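import Pool.Agent.Q283.ND.Dn
import Pool.Agent.Q283.Q3.Fld
import Pool.Agent.Q283.Q3.Kt

/-! From the exponents to the divisors of `D²` -/

set_option autoImplicit false
set_option linter.unusedSectionVars false

open scoped Classical
open Finset Filter

namespace Q283.ND

open Module
open Q283.Q3 (cq KT)
open Q283.Q3N (fe fe_ne fe_mul fe_cube fe_pow fe_one cf_unique)
open Q283.Q3B (rr rr_eq)
open Q283.MC (cf_bs)
open Q283.TQ (Bs)
open Pool.Agent.Y703.CT (Cls Base)

/-- the cube-free part -/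
def cf (n : ℕ) : ℕ := ∏ p ∈ n.primeFactors, p ^ (n.factorization p % 3)

theorem cf_free (n : ℕ) : ∀ p : ℕ, p.Prime → ¬ p ^ 3 ∣ cf n := by
  intro p hp h
  have h1 : p ∣ cf n := (dvd_pow_self p (by norm_num)).trans h
  unfold cf at h1
  obtain ⟨u, hu, hpu⟩ := (hp.prime.dvd_finsetProd_iff _).1 h1
  have h2 : p = u := (Nat.prime_dvd_prime_iff_eq hp (Nat.prime_of_mem_primeFactors hu)).1
    (hp.dvd_of_dvd_pow hpu)
  subst h2
  have h3 : cf n = (∏ q ∈ n.primeFactors.erase p, q ^ (n.factorization q % 3)) *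
      p ^ (n.factorization p % 3) := by
    unfold cf
    rw [← mul_prod_erase _ _ hu, mul_comm]
  have h4 : Nat.Coprime (p ^ 3) (∏ q ∈ n.primeFactors.erase p, q ^ (n.factorization q % 3)) := by
    refine Nat.Coprime.prod_right fun q hq => ?_
    rw [mem_erase] at hq
    refine Nat.Coprime.pow _ _ ?_
    exact (Nat.coprime_primes hp (Nat.prime_of_mem_primeFactors hq.2)).2 (Ne.symm hq.1)
  rw [h3] at h
  have h5 := Nat.Coprime.dvd_of_dvd_mul_left h4 h
  have h6 := (Nat.pow_dvd_pow_iff_le_right hp.one_lt).1 h5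
  omega

theorem cf_mul {n : ℕ} (hn : n ≠ 0) :
    n = cf n * (∏ p ∈ n.primeFactors, p ^ (n.factorization p / 3)) ^ 3 := by
  unfold cf
  rw [← prod_pow, ← prod_mul_distrib]
  have h1 : n = ∏ p ∈ n.primeFactors, p ^ n.factorization p :=
    (Nat.prod_factorization_pow_eq_self hn).symm
  refine h1.trans (prod_congr rfl fun p _ => ?_)
  rw [← pow_mul, ← pow_add]
  congr 1
  omega

theorem cf_ne {n : ℕ} (hn : n ≠ 0) : cf n ≠ 0 := by
  intro h
  apply hn
  rw [cf_mul hn, h, zero_mul]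

theorem fe_cf {n : ℕ} (hn : n ≠ 0) (p : ℕ) : fe (cf n) p = fe n p := by
  have h := cf_mul hn
  have h2 : (∏ p ∈ n.primeFactors, p ^ (n.factorization p / 3)) ^ 3 ≠ 0 := by
    intro h0
    apply hn
    rw [h, h0, mul_zero]
  conv_rhs => rw [h]
  rw [fe_mul (cf_ne hn) h2, fe_cube, add_zero]

/-- the cube-free part is in the class -/
theorem cls_cf {N D d : ℕ} (hC : Cls N) (hD : Dc D) (hd : d ∣ D ^ 2) (h1 : N * d % 9 ≠ 1)
    (h8 : N * d % 9 ≠ 8) : Cls (cf (N * d)) := by
  have hD0 : D ≠ 0 := hD.1.ne_zero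
  have hd0 : d ≠ 0 := by
    rintro rfl
    exact pow_ne_zero 2 hD0 (zero_dvd_iff.1 hd)
  obtain ⟨M, c, g1, g2, g3, -⟩ := cf_bs (N := N) (R := d) ⟨hC.1, hC.2.2.2⟩ hd0
    fun p hp hpd => hD.2 p hp (hp.dvd_of_dvd_pow (hpd.trans hd))
  have hn : N * d ≠ 0 := mul_ne_zero hC.1.1 hd0
  have h2 : M = cf (N * d) := cf_unique (g1.symm.trans (cf_mul hn)) (by rw [← g1]; exact hn)
    g2.1.2.2 (cf_free _)
  rw [← h2]
  exact ⟨g2.1, by rw [g3]; exact h1, by rw [g3]; exact h8, g2.2⟩

/-- the product of the powers -/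
noncomputable def dv {S : Finset ℕ} (e : S → ZMod 3) : ℕ := ∏ p : S, (p : ℕ) ^ (e p).val

theorem fe_prime {p : ℕ} (hp : p.Prime) (q : ℕ) : fe p q = if p = q then 1 else 0 := by
  unfold fe
  rw [hp.factorization, Finsupp.single_apply]
  split_ifs <;> simp

theorem fe_prod' {ι : Type} (s : Finset ι) (f : ι → ℕ) (hf : ∀ i ∈ s, f i ≠ 0) (e : ι → ZMod 3)
    (q : ℕ) : fe (∏ i ∈ s, f i ^ (e i).val) q = ∑ i ∈ s, e i * fe (f i) q := by
  induction s using Finset.induction_on with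
  | empty => rw [prod_empty, sum_empty, fe_one]
  | insert a s ha ih =>
    rw [prod_insert ha, sum_insert ha, fe_mul (pow_ne_zero _ (hf a (mem_insert_self _ _)))
      (prod_ne_zero_iff.2 fun j hj => pow_ne_zero _ (hf j (mem_insert_of_mem hj))),
      ih fun i hi => hf i (mem_insert_of_mem hi), fe_pow, ZMod.natCast_zmod_val]

theorem fe_dv {S : Finset ℕ} (hS : ∀ p ∈ S, p.Prime) (e : S → ZMod 3) (q : ℕ) :
    fe (dv e) q = if h : q ∈ S then e ⟨q, h⟩ else 0 := by
  unfold dv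
  rw [fe_prod' univ (fun p : S => (p : ℕ)) (fun p _ => (hS p p.2).ne_zero)]
  by_cases h : q ∈ S
  · rw [dif_pos h, sum_eq_single_of_mem (⟨q, h⟩ : S) (mem_univ _)]
    · rw [fe_prime (hS q h), if_pos rfl, mul_one]
    · intro p _ hp
      rw [fe_prime (hS p p.2), if_neg fun h' => hp (Subtype.ext h'), mul_zero]
  · rw [dif_neg h]
    refine sum_eq_zero fun p _ => ?_
    rw [fe_prime (hS p p.2), if_neg fun h' : (p : ℕ) = q => h (by rw [← h']; exact p.2), mul_zero]

theorem dv_dvd {D : ℕ} (hD : Squarefree D) (e : D.primeFactors → ZMod 3) : dv e ∣ D ^ 2 := by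
  have h1 : D ^ 2 = ∏ p : D.primeFactors, (p : ℕ) ^ 2 := by
    have h2 : ∏ p : D.primeFactors, (p : ℕ) ^ 2 = ∏ p ∈ D.primeFactors, p ^ 2 :=
      prod_coe_sort D.primeFactors (fun p => p ^ 2)
    rw [h2, prod_pow, Nat.prod_primeFactors_of_squarefree hD]
  rw [h1]
  unfold dv
  refine prod_dvd_prod_of_dvd _ _ fun p _ => pow_dvd_pow _ ?_
  have := ZMod.val_lt (e p)
  omega

theorem eq_of_fe {D a b : ℕ} (hD : Squarefree D) (ha : a ∣ D ^ 2) (hb : b ∣ D ^ 2)
    (h : ∀ p, fe a p = fe b p) : a = b := by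
  have h0 : D ^ 2 ≠ 0 := pow_ne_zero 2 hD.ne_zero
  have ha0 : a ≠ 0 := fun h' => h0 (zero_dvd_iff.1 (h' ▸ ha))
  have hb0 : b ≠ 0 := fun h' => h0 (zero_dvd_iff.1 (h' ▸ hb))
  have hle : ∀ {x : ℕ}, x ≠ 0 → x ∣ D ^ 2 → ∀ p, x.factorization p ≤ 2 := by
    intro x hx0 hx p
    have h1 := (Nat.factorization_le_iff_dvd hx0 h0).2 hx p
    rw [Nat.factorization_pow, Finsupp.smul_apply, smul_eq_mul] at h1
    have h2 := hD.natFactorization_le_one p
    omega
  refine Nat.eq_of_factorization_eq ha0 hb0 fun p => ?_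
  have h1 := h p
  unfold fe at h1
  have h2 := hle ha0 ha p
  have h3 := hle hb0 hb p
  generalize a.factorization p = x at *
  generalize b.factorization p = y at *
  interval_cases x <;> interval_cases y <;> first | rfl | exact absurd h1 (by decide)

/-- the divisors in a residue class -/
def Dk (k D : ℕ) : Finset ℕ := (D ^ 2).divisors.filter fun d => d % 9 = k

theorem mem_Dk {k D d : ℕ} (hD : Squarefree D) : d ∈ Dk k D ↔ d ∣ D ^ 2 ∧ d % 9 = k := by
  unfold Dk
  rw [mem_filter, Nat.mem_divisors]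
  exact ⟨fun h => ⟨h.1.1, h.2⟩, fun h => ⟨⟨h.1, pow_ne_zero 2 hD.ne_zero⟩, h.2⟩⟩

theorem dv_inj {D : ℕ} : Function.Injective (dv (S := D.primeFactors)) := by
  intro e e' h
  funext p
  have hS : ∀ p ∈ D.primeFactors, p.Prime := fun p hp => Nat.prime_of_mem_primeFactors hp
  have h1 := fe_dv hS e p
  have h2 := fe_dv hS e' p
  rw [dif_pos p.2] at h1 h2
  rw [← h1, ← h2, h]

theorem Dk_eq {k D : ℕ} (hD : Squarefree D) : Dk k D = (Ax k D.primeFactors).image dv := by
  have hS : ∀ p ∈ D.primeFactors, p.Prime := fun p hp => Nat.prime_of_mem_primeFactors hp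
  ext d
  rw [mem_Dk hD, mem_image]
  constructor
  · rintro ⟨h1, h2⟩
    have h3 : dv (fun p : D.primeFactors => fe d p) = d := by
      refine eq_of_fe hD (dv_dvd hD _) h1 fun q => ?_
      rw [fe_dv hS]
      by_cases hq : q ∈ D.primeFactors
      · rw [dif_pos hq]
      · rw [dif_neg hq]
        unfold fe
        have h5 : d.factorization q = 0 := by
          by_cases hp : q.Prime
          · refine Nat.factorization_eq_zero_of_not_dvd fun h4 => hq ?_
            exact Nat.mem_primeFactors.2 ⟨hp, hp.dvd_of_dvd_pow (h4.trans h1), hD.ne_zero⟩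
          · exact Nat.factorization_eq_zero_of_not_prime _ hp
        rw [h5, Nat.cast_zero]
    refine ⟨_, ?_, h3⟩
    unfold Ax
    rw [mem_filter]
    refine ⟨mem_univ _, ?_⟩
    have h4 : ∏ p : D.primeFactors, (p : ℕ) ^ (fe d p).val = d := h3
    rw [h4, h2]
  · rintro ⟨e, he, rfl⟩
    unfold Ax at he
    rw [mem_filter] at he
    exact ⟨dv_dvd hD e, he.2⟩

/-- the coranks -/
theorem ck_rr {N D : ℕ} (hC : Cls N) (hD : Dc D) (e : D.primeFactors → ZMod 3)
    (h1 : N * dv e % 9 ≠ 1) (h8 : N * dv e % 9 ≠ 8) :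
    ck D.primeFactors N.primeFactors (fe N) e = rr (cf (N * dv e)) := by
  have hS : ∀ p ∈ D.primeFactors, p.Prime := fun p hp => Nat.prime_of_mem_primeFactors hp
  have hdd := dv_dvd hD.1 e
  have hd0 : dv e ≠ 0 := fun h' =>
    pow_ne_zero 2 hD.1.ne_zero (zero_dvd_iff.1 (h' ▸ hdd))
  have hn : N * dv e ≠ 0 := mul_ne_zero hC.1.1 hd0
  have hC' := cls_cf hC hD hdd h1 h8
  have hx : xe D.primeFactors (fe N) e = fe (cf (N * dv e)) := by
    funext q
    rw [fe_cf hn, fe_mul hC.1.1 hd0, fe_dv hS]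
    unfold xe
    rw [add_comm]
  unfold ck
  rw [hx]
  refine rr_eq hC' ?_ ?_
  · intro p hp
    have h2 : fe (cf (N * dv e)) p ≠ 0 := (fe_ne hC'.1).2 hp
    rw [← hx] at h2
    rw [mem_union]
    by_contra h3
    rw [not_or] at h3
    apply h2
    unfold xe
    rw [dif_neg h3.1, zero_add]
    by_contra h4
    exact h3.2 ((fe_ne hC.1).1 h4)
  · intro u hu hu'
    rcases mem_union.1 hu with h | h
    · exact ⟨hS u h, hD.2 u (hS u h) (Nat.dvd_of_mem_primeFactors h)⟩
    · have hup := Nat.prime_of_mem_primeFactors h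
      refine ⟨hup, ?_⟩
      obtain ⟨q, hq, hq2, hqN, hall⟩ := hC.2.2.2
      by_contra h3
      have huq : u = q := by
        by_contra h4
        exact h3 (hall u hup (Nat.dvd_of_mem_primeFactors h) h4)
      subst huq
      apply hu'
      rw [← fe_ne hC'.1, ← hx]
      unfold xe
      have h5 : u ∉ D.primeFactors := by
        intro h6
        have := hD.2 u hup (Nat.dvd_of_mem_primeFactors h6)
        omega
      rw [dif_neg h5, zero_add]
      exact (fe_ne hC.1).2 h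

/-- **The law over the divisors.** -/
theorem good_div {k N D B : ℕ} {ε : ℝ} (hC : Cls N) (hD : Dc D) (h1 : N * k % 9 ≠ 1)
    (h8 : N * k % 9 ≠ 8) (h : TD k N B ε D) : Good B ε (Dk k D) fun d => rr (cf (N * d)) := by
  have hmod : ∀ e ∈ Ax k D.primeFactors, N * dv e % 9 = N * k % 9 := by
    intro e he
    unfold Ax at he
    rw [mem_filter] at he
    have h2 : dv e % 9 = k := he.2
    rw [Nat.mul_mod, h2]
    have hk : k < 9 := by
      rw [← h2]
      exact Nat.mod_lt _ (by norm_num)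
    conv_rhs => rw [Nat.mul_mod, Nat.mod_eq_of_lt hk]
  have hck : ∀ e ∈ Ax k D.primeFactors,
      ck D.primeFactors N.primeFactors (fe N) e = rr (cf (N * dv e)) := by
    intro e he
    have h2 := hmod e he
    exact ck_rr hC hD e (by rw [h2]; exact h1) (by rw [h2]; exact h8)
  have hinj : Set.InjOn (dv (S := D.primeFactors)) (Ax k D.primeFactors) :=
    fun _ _ _ _ h' => dv_inj h'
  have hcard : (Dk k D).card = (Ax k D.primeFactors).card := by
    rw [Dk_eq hD.1, card_image_of_injOn hinj]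
  have hsum : ∀ f : ℕ → ℝ, ∑ d ∈ Dk k D, f (rr (cf (N * d))) =
      ∑ e ∈ Ax k D.primeFactors, f (ck D.primeFactors N.primeFactors (fe N) e) := by
    intro f
    rw [Dk_eq hD.1, sum_image hinj]
    exact sum_congr rfl fun e he => by rw [hck e he]
  obtain ⟨g1, g2⟩ := h
  refine ⟨fun b hb => ?_, ?_⟩
  · have h2 := g1 b hb
    rw [hcard, hsum fun r => one b r - cq b]
    exact h2
  · rw [hcard, hsum fun r => (3 : ℝ) ^ r]
    exact g2

end Q283.ND
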