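import Pool.Agent.Q283.ND.Ky
import Pool.Agent.Q283.Q3.Asyq

/-! The exceptional sets of primes are few -/

set_option autoImplicit false

open scoped Classical
open Finset Filter

namespace Q283.ND

open Q283.Q3 (NdM t_BADM zz_ev)
open Q283.Q3A (sml_mainW out_sub2)
open Pool.Agent.Y703.CX

/-- **The exceptional sets are few.** -/
theorem asy {k : ℕ} (hk9 : k < 9) {W : Finset ℕ} {m : ℕ → ZMod 3} {r : ℕ} (hb : Bd W m r) (a : ℕ)
    (ha : a % 3 = 2) (B : ℕ) (ε : ℝ) (hε : 0 < ε) (η : ℝ) (hη : 0 < η) :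
    ∀ᶠ X : ℕ in atTop, (((SS X).filter fun S => a ∈ S ∧ ¬ TS k W m B ε (S.erase a)).card : ℝ) ≤
      η * (((SS X).filter fun S => a ∈ S).card : ℝ) + η * (X * Real.exp (-(eL X) / 2)) := by
  have hL := Pool.Agent.Y333.CX.t_LAM
  have hC := Pool.Agent.Y388.CX.t_CNT
  have hSIE := Pool.Agent.Y488.CX.t_SIE
  obtain ⟨C, hC1, hkey⟩ := t_KEQ hL Pool.Agent.Y261.CX.t_BIL1 Pool.Agent.Y779.CX.t_BIL2
  obtain ⟨R₀, hR₀⟩ := t_BXN Pool.Agent.Y419.CX.t_EQ B ε hε η hη
  set R : ℕ := R₀ + 1 with hR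
  have hbx := hR₀ R (by omega) k W m r a hk9 hb ha
  obtain ⟨CF, XF, hfew⟩ := Pool.Agent.Y495.CX.Few.t_FEW hSIE R
  obtain ⟨CB, XB, hbad⟩ := t_BADM hL hSIE Pool.Agent.Y495.CX.t_HAL R W hb.pr
  have s1 := sml_many hC
  have s2 := sml_cut hC
  have s3 := sml_coll hC
  have s4 := sml_rpow hfew
  have s5 := sml_rpow hbad
  have s6 := sml_mainW W.card hC1
  have s := sml_add (sml_add (sml_add (sml_add (sml_add s1 s2) s3) s4) s5) s6
  obtain ⟨X₁, hX₁⟩ := zz_ev (max a (W.sup id))
  filter_upwards [s η hη, ev_eL 1, eventually_ge_atTop X₁] with X hX hl hX1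
  have hl0 : 0 < eL X := by linarith
  have hXp := X_pos hl0
  have hN : (HH X : ℝ) * Real.log X < NN X := by
    unfold NN
    push_cast
    exact Nat.lt_floor_add_one _
  have hz := hX₁ X hX1
  have hWz : ∀ u ∈ W, u ≤ zz X := fun u hu =>
    ((le_sup (f := id) hu).trans (le_max_right _ _)).trans hz
  have haz : a ≤ zz X := (le_max_left _ _).trans hz
  have hQ : ∀ S : Finset ℕ, a ∈ sm (zz X) S ↔ a ∈ S := by
    intro S
    unfold sm
    rw [mem_filter]
    exact ⟨fun h => h.1, fun h => ⟨h, haz⟩⟩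
  have hmain := hkey W R a (fun S => TS k W m B ε (S.erase a)) η hbx hη.le X (zz X)
    (HH X) (kk X) 0 (NN X) (kap C X) hWz hXp (HH_pos hl0) (zz_pos hl)
    (kap_nonneg hC1 X) (kap_pow hC1 hl) hN
  set T₀ := (RR X (zz X) (HH X) (kk X) 0).filter fun S => NdM R W (sm (zz X) S) (la (zz X) S) with hT₀
  have hsplit : (((RR X (zz X) (HH X) (kk X) 0).filter
      (fun S => a ∈ sm (zz X) S ∧ NdM R W (sm (zz X) S) (la (zz X) S))).card : ℝ) =
      (((RR X (zz X) (HH X) (kk X) 0).filter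
      (fun S => a ∈ sm (zz X) S ∧ NdM R W (sm (zz X) S) (la (zz X) S) ∧
        TS k W m B ε (S.erase a))).card : ℝ) +
      ((T₀.filter fun S => a ∈ S ∧ ¬ TS k W m B ε (S.erase a)).card : ℝ) := by
    have h2 := card_filter_add_card_filter_not
      (s := (RR X (zz X) (HH X) (kk X) 0).filter
        fun S => a ∈ sm (zz X) S ∧ NdM R W (sm (zz X) S) (la (zz X) S))
      (fun S => TS k W m B ε (S.erase a))
    have h3 : ((RR X (zz X) (HH X) (kk X) 0).filter
        fun S => a ∈ sm (zz X) S ∧ NdM R W (sm (zz X) S) (la (zz X) S)).filter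
        (fun S => TS k W m B ε (S.erase a)) = (RR X (zz X) (HH X) (kk X) 0).filter
      (fun S => a ∈ sm (zz X) S ∧ NdM R W (sm (zz X) S) (la (zz X) S) ∧
        TS k W m B ε (S.erase a)) := by
      rw [filter_filter]
      ext S
      simp only [mem_filter]
      tauto
    have h4 : ((RR X (zz X) (HH X) (kk X) 0).filter
        fun S => a ∈ sm (zz X) S ∧ NdM R W (sm (zz X) S) (la (zz X) S)).filter
        (fun S => ¬ TS k W m B ε (S.erase a)) =
        T₀.filter fun S => a ∈ S ∧ ¬ TS k W m B ε (S.erase a) := by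
      rw [hT₀, filter_filter, filter_filter]
      ext S
      simp only [mem_filter, hQ]
      tauto
    rw [h3, h4] at h2
    exact_mod_cast h2.symm
  have hRS : (((RR X (zz X) (HH X) (kk X) 0).filter fun S => a ∈ sm (zz X) S).card : ℝ) ≤
      (((SS X).filter fun S => a ∈ S).card : ℝ) := by
    refine Nat.cast_le.2 (card_le_card fun S hS => ?_)
    rw [mem_filter, hQ] at hS
    rw [mem_filter]
    exact ⟨filter_subset _ _ hS.1, hS.2⟩
  have hout0 : (SS X).filter (fun S => a ∈ S ∧ ¬ TS k W m B ε (S.erase a)) ⊆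
      (T₀.filter fun S => a ∈ S ∧ ¬ TS k W m B ε (S.erase a)) ∪ (SS X \ T₀) := by
    intro S hS
    rw [mem_filter] at hS
    rw [mem_union, mem_filter, Finset.mem_sdiff]
    by_cases h : S ∈ T₀
    · exact Or.inl ⟨h, hS.2⟩
    · exact Or.inr ⟨hS.1, h⟩
  have hout : ((SS X \ T₀).card : ℝ) ≤
      ((((SS X).filter fun S => kk X < S.card).card : ℝ) +
      (((SS X).filter fun S => S.card ≤ kk X ∧
        X < (∏ p ∈ sm (zz X) S, p) * ∏ p ∈ la (zz X) S, XX (HH X) (jj (HH X) p)).card : ℝ) +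
      (((SS X).filter fun S => ¬ Set.InjOn (jj (HH X)) (la (zz X) S : Set ℕ)).card : ℝ) +
      (((SS X).filter fun S => ((la (zz X) S).filter fun p => p % 3 = 1).card ≤
        (sm (zz X) S).card + R).card : ℝ)) +
      (((SS X).filter fun S => S.card ≤ kk X ∧ (¬ NdM R W (sm (zz X) S) (la (zz X) S) ∧
        R ≤ ((la (zz X) S).filter fun p => p % 3 = 1).card)).card : ℝ) := by
    have g := card_le_card (out_sub2 (W := W) (R := R) (by omega) X (zz X) (HH X) (kk X))
    have g2 := (g.trans (card_union_le _ _)).trans (Nat.add_le_add_right ((card_union_le _ _).trans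
      (Nat.add_le_add_right ((card_union_le _ _).trans
      (Nat.add_le_add_right (card_union_le _ _) _)) _)) _)
    exact_mod_cast g2
  have h1 : (((SS X).filter fun S => a ∈ S ∧ ¬ TS k W m B ε (S.erase a)).card : ℝ) ≤
      ((T₀.filter fun S => a ∈ S ∧ ¬ TS k W m B ε (S.erase a)).card : ℝ) +
        ((SS X \ T₀).card : ℝ) := by
    have h2 := (card_le_card hout0).trans (card_union_le _ _)
    exact_mod_cast h2
  have h2 := (abs_le.1 hmain).1
  have h3 := mul_le_mul_of_nonneg_left hRS hη.le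
  rw [one_mul, hsplit] at h2
  linarith

end Q283.ND
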