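import Pool.Agent.Q283.ND.Le
import Pool.Agent.Q283.Q3.Boxq

/-! Transfers: from the primes to the tables, from the exponents of the primes to functions -/

set_option autoImplicit false
set_option linter.unusedSectionVars false

open scoped Classical

namespace Q283.ND

open Finset Module
open Q283.Q3 (cq cq_ge cq_le KT mem_KT)
open Pool.Agent.Y703.CX (lam)

theorem NE_eq (I : Type) [Fintype I] : NE I = 3 ^ Fintype.card I := by
  unfold NE
  rw [Fintype.card_fun, ZMod.card]
  push_cast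
  rfl

theorem NT_eq (I : Type) [Fintype I] : NT I = Nat.card (I → I → ZMod 3) := by
  unfold NT
  rw [Nat.card_eq_fintype_card]

/-- the local theorem without decidability -/
theorem loc' (B : ℕ) (ε : ℝ) (hε : 0 < ε) : ∃ R₀ : ℕ, ∀ R : ℕ, R₀ ≤ R →
    ∀ (I : Type) [Fintype I] (J P : Finset I) (ks : I) (G : I → I → ZMod 3) (m : I → ZMod 3)
      (A : Finset (I → ZMod 3)), Dat J P ks G m R → (3 : ℝ) ^ Fintype.card I ≤ 3 * A.card →
    (Nat.card {α : I → I → ZMod 3 // ¬ Good B ε A (fun e => co (ef P m e) ks (mx J G α))} : ℝ) ≤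
      ε * Nat.card (I → I → ZMod 3) := by
  obtain ⟨R₀, h⟩ := loc B ε hε
  refine ⟨R₀, fun R hR I _ J P ks G m A hD hA => ?_⟩
  have h1 := h R hR I J P ks G m A hD (by rw [NE_eq]; exact hA)
  rw [NT_eq, ncI] at h1
  exact h1

/-- the size of the complement -/
theorem card_cpl {I : Type} [Fintype I] (J : Finset I) : Jᶜ.card + J.card = Fintype.card I := by
  rw [add_comm]
  exact card_add_card_compl J

/-- the data, without decidability -/
theorem mkDat {I : Type} [Fintype I] {J P : Finset I} {ks : I} {G : I → I → ZMod 3}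
    {m : I → ZMod 3} {R u : ℕ} (hu : u + J.card = Fintype.card I) (sub : J ⊆ P) (ksP : ks ∉ P)
    (mks : m ks ≠ 0) (mJ : ∀ i ∈ J, m i = 0)
    (hv : ∀ v : I → ZMod 3, (∀ i ∈ J, v i = 0) → v ks = 0 → v ≠ 0 →
      2 * u + R ≤ Nat.card {i // i ∈ J ∧ ∑ x, v x * G x i ≠ 0})
    (hw : ∀ w : I → ZMod 3, (∀ i ∈ J, w i = 0) → w ≠ 0 →
      2 * u + R ≤ Nat.card {i // i ∈ J ∧ ∑ x, w x * G i x ≠ 0}) (hJ : R ≤ J.card) :
    Dat J P ks G m R := by
  have h1 : Jᶜ.card = u := by
    have := card_cpl J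
    omega
  have h2 : ∀ T : I → Prop, Nat.card {i // i ∈ J ∧ T i} = (J.filter T).card := by
    intro T
    rw [nc]
    congr 1
    ext i
    simp
  refine ⟨sub, ksP, mks, mJ, fun v h3 h4 => ?_, fun w h3 h4 => ?_, hJ⟩
  · rw [h1]
    exact ((hv v (mem_off.1 h3) h4.1 h4.2).trans (le_of_eq (h2 _))).trans (le_of_eq fcc)
  · rw [h1]
    exact ((hw w (mem_off.1 h3) h4).trans (le_of_eq (h2 _))).trans (le_of_eq fcc)

/-! ### the fibres of a surjective homomorphism -/

section tr
variable {E F : Type} [AddCommGroup E] [AddCommGroup F] [Fintype E] [Fintype F]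

theorem sum_tr (ρ : E →+ F) (hρ : Function.Surjective ρ) (A : Finset F) (A' : Finset E)
    (hA : ∀ e, e ∈ A' ↔ ρ e ∈ A) (h : F → ℝ) :
    (Fintype.card F : ℝ) * ∑ e ∈ A', h (ρ e) = Fintype.card E * ∑ x ∈ A, h x := by
  have h1 : ∑ e ∈ A', h (ρ e) = ∑ x ∈ A, ∑ e ∈ A'.filter (fun e => ρ e = x), h (ρ e) :=
    (sum_fiberwise_of_maps_to (fun e he => (hA e).1 he) _).symm
  rw [h1, mul_sum, mul_sum]
  refine sum_congr rfl fun x hx => ?_
  have h2 : ∑ e ∈ A'.filter (fun e => ρ e = x), h (ρ e) =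
      ((univ.filter fun e => ρ e = x).card : ℝ) * h x := by
    have e1 : A'.filter (fun e => ρ e = x) = univ.filter fun e => ρ e = x := by
      ext e
      rw [mem_filter, mem_filter]
      constructor
      · exact fun h => ⟨mem_univ _, h.2⟩
      · intro h
        refine ⟨(hA e).2 (h.2 ▸ hx), h.2⟩
    rw [e1, ← nsmul_eq_mul, ← sum_const]
    exact sum_congr rfl fun e he => by rw [(mem_filter.1 he).2]
  rw [h2]
  have h3 := fibF ρ hρ (fun y => y = x)
  have h4 : (univ.filter fun y : F => y = x).card = 1 := by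
    rw [card_eq_one]
    exact ⟨x, by ext; simp⟩
  rw [fcc.trans h4, one_mul] at h3
  have h5 : ((univ.filter fun e => ρ e = x).card : ℝ) * (Fintype.card F : ℝ) = Fintype.card E := by
    rw [← h3]
    push_cast
    congr 2
  rw [← h5]
  ring

theorem good_tr (ρ : E →+ F) (hρ : Function.Surjective ρ) (A : Finset F) (A' : Finset E)
    (hA : ∀ e, e ∈ A' ↔ ρ e ∈ A) (B : ℕ) (ε : ℝ) (g : F → ℕ) :
    Good B ε A' (fun e => g (ρ e)) ↔ Good B ε A g := by
  have hF : (0 : ℝ) < Fintype.card F := by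
    have : Nonempty F := ⟨0⟩
    exact_mod_cast Fintype.card_pos
  have hE : (0 : ℝ) < Fintype.card E := by
    have : Nonempty E := ⟨0⟩
    exact_mod_cast Fintype.card_pos
  have hc := sum_tr ρ hρ A A' hA (fun _ => 1)
  simp only [sum_const, nsmul_eq_mul, mul_one] at hc
  have key : ∀ a b : ℝ, (Fintype.card F : ℝ) * a = Fintype.card E * b →
      (|a| ≤ ε * A'.card ↔ |b| ≤ ε * A.card) := by
    intro a b hab
    have h1 : |a| ≤ ε * A'.card ↔ Fintype.card F * |a| ≤ Fintype.card F * (ε * A'.card) :=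
      (mul_le_mul_iff_right₀ hF).symm
    have h2 : |b| ≤ ε * A.card ↔ Fintype.card E * |b| ≤ Fintype.card E * (ε * A.card) :=
      (mul_le_mul_iff_right₀ hE).symm
    have h3 : (Fintype.card F : ℝ) * |a| = Fintype.card E * |b| := by
      have := congrArg abs hab
      rwa [abs_mul, abs_mul, abs_of_pos hF, abs_of_pos hE] at this
    have h4 : (Fintype.card F : ℝ) * (ε * A'.card) = Fintype.card E * (ε * A.card) := by
      calc (Fintype.card F : ℝ) * (ε * A'.card) = ε * (Fintype.card F * A'.card) := by ring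
        _ = ε * (Fintype.card E * A.card) := by rw [hc]
        _ = _ := by ring
    rw [h1, h2, h3, h4]
  unfold Good
  refine and_congr (forall_congr' fun b => forall_congr' fun _ => key _ _ ?_) (key _ _ ?_)
  · exact sum_tr ρ hρ A A' hA (fun x => one b (g x) - cq b)
  · have h1 := sum_tr ρ hρ A A' hA (fun x => (3 : ℝ) ^ g x)
    rw [mul_sub, mul_sub, h1]
    linarith

end tr

/-! ### the solutions on a set of primes -/

theorem Sy_diag {I : Type} [Fintype I] {f : I → ZMod 3} {ks : I} {C : Finset I}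
    {L L' : I → I → ZMod 3} (h : ∀ i j, i ≠ j → L i j = L' i j) : Sy f ks C L = Sy f ks C L' := by
  ext x
  rw [mem_Sy, mem_Sy]
  refine and_congr_right fun _ => and_congr_right fun _ => forall_congr' fun i =>
    forall_congr' fun _ => forall_congr' fun _ => ?_
  have h1 : ro f L i x = ro f L' i x := by
    unfold ro
    refine sum_congr rfl fun j _ => ?_
    by_cases hij : i = j
    · rw [hij, sub_self, mul_zero, mul_zero]
    · rw [h i j hij]
  rw [h1]

theorem kt_co {I : Type} [Fintype I] {T : Finset ℕ} (E : I ≃ T) {ks : I}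
    (hk : ∀ i, (E i : ℕ) % 3 = 1 ↔ i ≠ ks) (f : ℕ → ZMod 3) (hf : f (E ks) ≠ 0) :
    finrank (ZMod 3) (KT T f) = co (fun i => f (E i)) ks (fun i j => lam (E i) (E j)) + 1 := by
  obtain ⟨V, hV⟩ : ∃ V : Submodule (ZMod 3) (I → ZMod 3), V = (KT T f).map
    (LinearEquiv.funCongrLeft (ZMod 3) (ZMod 3) E : (T → ZMod 3) →ₗ[ZMod 3] (I → ZMod 3)) :=
    ⟨_, rfl⟩
  have h0 : finrank (ZMod 3) (KT T f) = finrank (ZMod 3) V := by
    rw [hV]
    exact (LinearEquiv.finrank_map_eq (LinearEquiv.funCongrLeft (ZMod 3) (ZMod 3) E) (KT T f)).symm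
  have hmem : ∀ y : I → ZMod 3, y ∈ V ↔ (∀ i, f (E i) = 0 → y i = 0) ∧
      ∀ i, i ≠ ks → ro (fun i => f (E i)) (fun i j => lam (E i) (E j)) i y = 0 := by
    intro y
    rw [hV, Submodule.mem_map]
    constructor
    · rintro ⟨x, hx, rfl⟩
      rw [mem_KT] at hx
      refine ⟨fun i hi => hx.1 (E i) hi, fun i hi => ?_⟩
      have h1 := hx.2 (E i) ((hk i).2 hi)
      rw [← h1, ← Equiv.sum_comp E]
      rfl
    · rintro ⟨h1, h2⟩
      refine ⟨fun t => y (E.symm t), ?_, ?_⟩
      · rw [mem_KT]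
        constructor
        · intro p hp
          obtain ⟨i, rfl⟩ := E.surjective p
          rw [E.symm_apply_apply]
          exact h1 i hp
        · intro p hp
          obtain ⟨i, rfl⟩ := E.surjective p
          rw [← h2 i ((hk i).1 hp), ← Equiv.sum_comp E]
          unfold ro
          exact sum_congr rfl fun j _ => by rw [E.symm_apply_apply, E.symm_apply_apply]
      · funext i
        show y (E.symm (E i)) = y i
        rw [E.symm_apply_apply]
  rw [h0]
  set g : V →ₗ[ZMod 3] (ZMod 3) :=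
    (LinearMap.proj ks : (I → ZMod 3) →ₗ[ZMod 3] (ZMod 3)).comp V.subtype with hg
  have h1 := LinearMap.finrank_range_add_finrank_ker g
  have hone : (fun i => if f (E i) = 0 then (0 : ZMod 3) else 1) ∈ V := by
    rw [hmem]
    refine ⟨fun i hi => if_pos hi, fun i _ => ?_⟩
    unfold ro
    refine sum_eq_zero fun j _ => ?_
    beta_reduce
    by_cases hi : f (E i) = 0
    · rw [hi]; ring
    by_cases hj : f (E j) = 0
    · rw [hj]; ring
    · rw [if_neg hi, if_neg hj, sub_self, mul_zero]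
  have h2 : finrank (ZMod 3) (LinearMap.range g) = 1 := by
    have h3 : LinearMap.range g = ⊤ := by
      rw [LinearMap.range_eq_top]
      intro a
      refine ⟨a • ⟨_, hone⟩, ?_⟩
      rw [map_smul, hg, LinearMap.comp_apply]
      show a • (if f (E ks) = 0 then (0 : ZMod 3) else 1) = a
      rw [if_neg hf, smul_eq_mul, mul_one]
    rw [h3, finrank_top, finrank_self]
  have h3 : finrank (ZMod 3) (LinearMap.ker g) =
      co (fun i => f (E i)) ks (fun i j => lam (E i) (E j)) := by
    unfold co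
    have h4 : (LinearMap.ker g).map V.subtype =
        Sy (fun i => f (E i)) ks ∅ (fun i j => lam (E i) (E j)) := by
      ext x
      rw [Submodule.mem_map, mem_Sy]
      constructor
      · rintro ⟨⟨x, hx⟩, h0, rfl⟩
        have h5 := (hmem x).1 hx
        exact ⟨h5.1, h0, fun i hi _ => h5.2 i hi⟩
      · rintro ⟨g1, g2, g3⟩
        exact ⟨⟨x, (hmem x).2 ⟨g1, fun i hi => g3 i hi (notMem_empty _)⟩⟩, g2, rfl⟩
    rw [← h4]
    exact (Submodule.equivMapOfInjective V.subtype V.injective_subtype _).finrank_eq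
  omega

end Q283.ND
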