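import Pool.Agent.Q283.ND.Bt

/-! The law of large numbers over the exponents in a box of primes -/

set_option autoImplicit false
set_option linter.unusedSectionVars false

open scoped Classical

namespace Q283.ND

open Finset Module
open Q283.Q3 (cq cq_ge cq_le KT mem_KT NdM LN ndM_iff phi phi_bij)
open Pool.Agent.Y703.CX (lam HB S_EQ prs)
open Pool.Agent.Y911.CX (lb HB_sub)

/-- the exponents on the primes, extended -/
noncomputable def xe (S : Finset ℕ) (m : ℕ → ZMod 3) (e : S → ZMod 3) (p : ℕ) : ZMod 3 :=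
  (if h : p ∈ S then e ⟨p, h⟩ else 0) + m p

/-- the corank -/
noncomputable def ck (S W : Finset ℕ) (m : ℕ → ZMod 3) (e : S → ZMod 3) : ℕ :=
  finrank (ZMod 3) (KT (S ∪ W) (xe S m e)) - 1

/-- the exponents with a given residue class of the product modulo `9` -/
noncomputable def Ax (k : ℕ) (S : Finset ℕ) : Finset (S → ZMod 3) :=
  univ.filter fun e => (∏ p : S, (p : ℕ) ^ (e p).val) % 9 = k

/-- the property of a set of primes -/
def TS (k : ℕ) (W : Finset ℕ) (m : ℕ → ZMod 3) (B : ℕ) (ε : ℝ) (S : Finset ℕ) : Prop :=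
  Good B ε (Ax k S) (ck S W m)

/-- the data of the base -/
structure Bd (W : Finset ℕ) (m : ℕ → ZMod 3) (r : ℕ) : Prop where
  pr : ∀ u ∈ W, u.Prime ∧ u ≠ 3
  rW : r ∈ W
  r2 : r % 3 = 2
  ot : ∀ u ∈ W, u ≠ r → u % 3 = 1
  mr : m r ≠ 0
  mW : ∀ u, u ∉ W → m u = 0

/-! ### a third of the exponents at least -/

theorem mod9_iff {n k : ℕ} (hk : k < 9) : n % 9 = k ↔ (n : ZMod 9) = (k : ZMod 9) := by
  rw [ZMod.natCast_eq_natCast_iff]
  unfold Nat.ModEq
  rw [Nat.mod_eq_of_lt hk]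

theorem third {I : Type} [Fintype I] {P : Finset I} {v : I → ℕ} {k : ℕ}
    (hv : ∀ i ∈ P, v i % 3 = 1) (A : Finset (I → ZMod 3))
    (hA : ∀ e, e ∈ A ↔ (∏ i ∈ P, v i ^ (e i).val) % 9 = k) (hne : A.Nonempty) :
    (3 : ℝ) ^ Fintype.card I ≤ 3 * A.card := by
  have hc : Fintype.card (I → ZMod 3) = 3 ^ Fintype.card I := by
    rw [Fintype.card_fun, ZMod.card]
  have hk : k < 9 := by
    obtain ⟨e, he⟩ := hne
    rw [← (hA e).1 he]
    exact Nat.mod_lt _ (by norm_num)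
  have hA' : ∀ e, e ∈ A ↔ ∏ i ∈ P, (v i : ZMod 9) ^ (e i).val = (k : ZMod 9) := by
    intro e
    rw [hA, mod9_iff hk]
    push_cast
    rfl
  suffices h : 3 ^ Fintype.card I ≤ 3 * A.card by exact_mod_cast h
  rw [← hc]
  have hcast : ∀ (n c : ℕ), n % 9 = c → c < 9 → (n : ZMod 9) = ((c : ℕ) : ZMod 9) :=
    fun n c h hc => (mod9_iff hc).1 h
  by_cases hall : ∀ i ∈ P, v i % 9 = 1
  · have h3 : ∀ e : I → ZMod 3, ∏ i ∈ P, (v i : ZMod 9) ^ (e i).val = 1 := by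
      intro e
      refine prod_eq_one fun i hi => ?_
      rw [hcast _ _ (hall i hi) (by norm_num), Nat.cast_one, one_pow]
    have h2 : A = univ := by
      obtain ⟨e₀, he₀⟩ := hne
      rw [hA', h3] at he₀
      ext e
      rw [hA', h3]
      exact ⟨fun _ => mem_univ _, fun _ => he₀⟩
    rw [h2, card_univ]
    omega
  · push Not at hall
    obtain ⟨i₀, hi₀, hne'⟩ := hall
    have hv0 : (v i₀ : ZMod 9) = 4 ∨ (v i₀ : ZMod 9) = 7 := by
      have h2 := hv i₀ hi₀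
      have h3 : v i₀ % 9 = 4 ∨ v i₀ % 9 = 7 := by omega
      rcases h3 with h3 | h3
      · exact Or.inl (hcast _ _ h3 (by norm_num))
      · exact Or.inr (hcast _ _ h3 (by norm_num))
    have hone : ∀ e : I → ZMod 3, ∏ i ∈ P, (v i : ZMod 9) ^ (e i).val = 1 ∨
        ∏ i ∈ P, (v i : ZMod 9) ^ (e i).val = 4 ∨ ∏ i ∈ P, (v i : ZMod 9) ^ (e i).val = 7 := by
      intro e
      have hcl : ∀ x y : ZMod 9, (x = 1 ∨ x = 4 ∨ x = 7) → (y = 1 ∨ y = 4 ∨ y = 7) →
          (x * y = 1 ∨ x * y = 4 ∨ x * y = 7) := by decide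
      have hpw : ∀ y : ZMod 9, (y = 1 ∨ y = 4 ∨ y = 7) → ∀ c : ZMod 3,
          (y ^ c.val = 1 ∨ y ^ c.val = 4 ∨ y ^ c.val = 7) := by decide
      refine prod_induction (fun i => (v i : ZMod 9) ^ (e i).val)
        (fun x => x = 1 ∨ x = 4 ∨ x = 7) (fun x y => hcl x y) (Or.inl rfl) fun i hi => ?_
      refine hpw _ ?_ _
      have h2 := hv i hi
      have h3 : v i % 9 = 1 ∨ v i % 9 = 4 ∨ v i % 9 = 7 := by omega
      rcases h3 with h3 | h3 | h3
      · left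
        rw [hcast _ _ h3 (by norm_num), Nat.cast_one]
      · right; left
        exact hcast _ _ h3 (by norm_num)
      · right; right
        exact hcast _ _ h3 (by norm_num)
    have hs : ∀ g : I → ZMod 3, ∏ i ∈ P, (v i : ZMod 9) ^ (g i).val =
        (∏ i ∈ P.erase i₀, (v i : ZMod 9) ^ (g i).val) * (v i₀ : ZMod 9) ^ (g i₀).val := by
      intro g
      rw [← mul_prod_erase P _ hi₀]
      ring
    have key : ∀ x : ZMod 9, ∀ w : ZMod 9, (w = 4 ∨ w = 7) → ∀ e : ZMod 3, ∀ t : ZMod 9,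
        (x * w ^ e.val = 1 ∨ x * w ^ e.val = 4 ∨ x * w ^ e.val = 7) →
        (t = 1 ∨ t = 4 ∨ t = 7) → ∃ c : ZMod 3, x * w ^ (e + c).val = t := by decide
    have hkk : (k : ZMod 9) = 1 ∨ (k : ZMod 9) = 4 ∨ (k : ZMod 9) = 7 := by
      obtain ⟨e₀, he₀⟩ := hne
      rw [hA'] at he₀
      rw [← he₀]
      exact hone e₀
    have hex : ∀ e : I → ZMod 3, ∃ c : ZMod 3, e + Pi.single i₀ c ∈ A := by
      intro e
      have h1 := hone e
      rw [hs] at h1
      obtain ⟨c, hc⟩ := key _ _ hv0 _ _ h1 hkk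
      refine ⟨c, ?_⟩
      rw [hA', hs]
      have h2 : ∏ i ∈ P.erase i₀, (v i : ZMod 9) ^ ((e + Pi.single i₀ c : I → ZMod 3) i).val =
          ∏ i ∈ P.erase i₀, (v i : ZMod 9) ^ (e i).val := by
        refine prod_congr rfl fun i hi => ?_
        rw [Pi.add_apply, Pi.single_eq_of_ne (mem_erase.1 hi).1, add_zero]
      rw [h2, Pi.add_apply, Pi.single_eq_same]
      exact hc
    choose c hc' using hex
    have hle : (univ : Finset (I → ZMod 3)).card ≤ (A ×ˢ (univ : Finset (ZMod 3))).card := by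
      refine card_le_card_of_injOn (fun e => (e + Pi.single i₀ (c e), c e)) ?_ ?_
      · intro e _
        rw [mem_coe, mem_product]
        exact ⟨hc' e, mem_univ _⟩
      · intro e _ e' _ h
        rw [Prod.mk.injEq] at h
        obtain ⟨h1, h2⟩ := h
        rw [h2] at h1
        exact add_right_cancel h1
    rw [card_product, card_univ, card_univ, ZMod.card] at hle
    omega

/-! ### the box -/

section box
variable {ι : Type} [Fintype ι] {U : Finset ℕ}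

/-- the random labels -/
noncomputable def Jx (U : Finset ℕ) (ι : Type) [Fintype ι] : Finset (↥U ⊕ ι) := univ.image Sum.inr

theorem mem_Jx {i : ↥U ⊕ ι} : i ∈ Jx U ι ↔ ∃ k, i = Sum.inr k := by
  unfold Jx
  rw [mem_image]
  constructor
  · rintro ⟨k, -, rfl⟩
    exact ⟨k, rfl⟩
  · rintro ⟨k, rfl⟩
    exact ⟨k, mem_univ _, rfl⟩

theorem inl_Jx (u : U) : (Sum.inl u : ↥U ⊕ ι) ∉ Jx U ι := by
  rw [mem_Jx]
  rintro ⟨k, hk⟩
  exact absurd hk (by simp)

theorem inr_Jx (k : ι) : (Sum.inr k : ↥U ⊕ ι) ∈ Jx U ι := mem_Jx.2 ⟨k, rfl⟩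

theorem card_Jx : (Jx U ι).card = Fintype.card ι := by
  unfold Jx
  rw [card_image_of_injective _ Sum.inr_injective, card_univ]

theorem card_cJx : U.card + (Jx U ι).card = Fintype.card (↥U ⊕ ι) := by
  rw [card_Jx, Fintype.card_sum, Fintype.card_coe]

/-- the labels of the primes of `S₀` -/
noncomputable def Px (U S : Finset ℕ) (ι : Type) [Fintype ι] : Finset (↥U ⊕ ι) :=
  univ.filter fun i => ∀ u, i = Sum.inl u → (u : ℕ) ∈ S

theorem inl_Px {S : Finset ℕ} (u : U) : (Sum.inl u : ↥U ⊕ ι) ∈ Px U S ι ↔ (u : ℕ) ∈ S := by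
  unfold Px
  rw [mem_filter]
  constructor
  · exact fun h => h.2 u rfl
  · intro h
    refine ⟨mem_univ _, fun v hv => ?_⟩
    rw [← Sum.inl_injective hv]
    exact h

theorem inr_Px {S : Finset ℕ} (k : ι) : (Sum.inr k : ↥U ⊕ ι) ∈ Px U S ι := by
  unfold Px
  rw [mem_filter]
  exact ⟨mem_univ _, fun v hv => absurd hv (by simp)⟩

/-- the fixed entries -/
def Gx (U : Finset ℕ) (A : U → U → ZMod 3) (β : ι → (U → ZMod 3) × (U → ZMod 3)) :
    ↥U ⊕ ι → ↥U ⊕ ι → ZMod 3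
  | Sum.inl u, Sum.inl v => A u v
  | Sum.inl u, Sum.inr k => (β k).1 u
  | Sum.inr k, Sum.inl u => (β k).2 u
  | Sum.inr _, Sum.inr _ => 0

/-- the exponents of the base -/
def mm (U : Finset ℕ) (ι : Type) (m : ℕ → ZMod 3) : ↥U ⊕ ι → ZMod 3
  | Sum.inl u => m u
  | Sum.inr _ => 0

/-- the values -/
def vx (U : Finset ℕ) (κ9 : ι → ℕ) : ↥U ⊕ ι → ℕ
  | Sum.inl u => u
  | Sum.inr k => κ9 k

/-- the table of the off-diagonal entries -/
noncomputable def lf (U : Finset ℕ) (g : prs (univ : Finset ι) → ZMod 3) :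
    ↥U ⊕ ι → ↥U ⊕ ι → ZMod 3
  | Sum.inr k, Sum.inr l => Pool.Agent.Y703.CX.ext g k l
  | _, _ => 0

/-- the restriction to the ordered pairs -/
noncomputable def rpx (U : Finset ℕ) (ι : Type) [Fintype ι] : (↥U ⊕ ι → ↥U ⊕ ι → ZMod 3) →+
    (prs (univ : Finset ι) → ZMod 3) where
  toFun := fun α e => α (Sum.inr e.1.1) (Sum.inr e.1.2)
  map_zero' := rfl
  map_add' := fun _ _ => rfl

theorem rpx_surj : Function.Surjective (rpx U ι) := by
  intro g
  refine ⟨lf U g, ?_⟩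
  funext e
  show Pool.Agent.Y703.CX.ext g e.1.1 e.1.2 = g e
  unfold Pool.Agent.Y703.CX.ext
  rw [dif_pos e.2]

theorem co_lf (f : ↥U ⊕ ι → ZMod 3) (ks : ↥U ⊕ ι) (G α : ↥U ⊕ ι → ↥U ⊕ ι → ZMod 3) :
    co f ks (mx (Jx U ι) G (lf U (rpx U ι α))) = co f ks (mx (Jx U ι) G α) := by
  unfold co
  rw [Sy_diag]
  intro i j hij
  unfold mx
  by_cases h : i ∈ Jx U ι ∧ j ∈ Jx U ι
  · rw [if_pos h, if_pos h]
    obtain ⟨k, rfl⟩ := mem_Jx.1 h.1
    obtain ⟨l, rfl⟩ := mem_Jx.1 h.2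
    show Pool.Agent.Y703.CX.ext (rpx U ι α) k l = _
    unfold Pool.Agent.Y703.CX.ext
    rw [dif_pos (mem_prs.2 ⟨mem_univ _, fun h' => hij (congrArg Sum.inr (Eq.symm h'))⟩)]
    rfl
  · rw [if_neg h, if_neg h]

/-- the share of the bad tables -/
theorem share_le (B : ℕ) (ε δ : ℝ) (ks : ↥U ⊕ ι) (P : Finset (↥U ⊕ ι)) (m : ↥U ⊕ ι → ZMod 3)
    (G : ↥U ⊕ ι → ↥U ⊕ ι → ZMod 3) (A : Finset (↥U ⊕ ι → ZMod 3))
    (h : (Nat.card {α : ↥U ⊕ ι → ↥U ⊕ ι → ZMod 3 //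
      ¬ Good B ε A (fun e => co (ef P m e) ks (mx (Jx U ι) G α))} : ℝ) ≤
      δ * Nat.card (↥U ⊕ ι → ↥U ⊕ ι → ZMod 3)) :
    ((univ.filter fun g : prs (univ : Finset ι) → ZMod 3 =>
      ¬ Good B ε A (fun e => co (ef P m e) ks (mx (Jx U ι) G (lf U g)))).card : ℝ) /
        3 ^ (prs (univ : Finset ι)).card ≤ δ := by
  have h1 := fib (rpx U ι) rpx_surj (fun g =>
    ¬ Good B ε A (fun e => co (ef P m e) ks (mx (Jx U ι) G (lf U g))))
  have h2 : Nat.card {α : ↥U ⊕ ι → ↥U ⊕ ι → ZMod 3 //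
      ¬ Good B ε A (fun e => co (ef P m e) ks (mx (Jx U ι) G (lf U (rpx U ι α))))} =
      Nat.card {α : ↥U ⊕ ι → ↥U ⊕ ι → ZMod 3 //
      ¬ Good B ε A (fun e => co (ef P m e) ks (mx (Jx U ι) G α))} := by
    refine Nat.card_congr (Equiv.subtypeEquiv (Equiv.refl _) fun α => ?_)
    simp only [co_lf]
    exact Iff.rfl
  have hpc : Nat.card (prs (univ : Finset ι) → ZMod 3) = 3 ^ (prs (univ : Finset ι)).card := by
    rw [Nat.card_fun, Nat.card_zmod, Nat.card_eq_fintype_card (α := ↥(prs (univ : Finset ι))),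
      Fintype.card_coe]
  have h3 : (univ.filter fun g : prs (univ : Finset ι) → ZMod 3 =>
      ¬ Good B ε A (fun e => co (ef P m e) ks (mx (Jx U ι) G (lf U g)))).card =
      Nat.card {g : prs (univ : Finset ι) → ZMod 3 //
      ¬ Good B ε A (fun e => co (ef P m e) ks (mx (Jx U ι) G (lf U g)))} := ncI
  rw [h2, hpc, ← h3] at h1
  have hN : (0 : ℝ) < Nat.card (↥U ⊕ ι → ↥U ⊕ ι → ZMod 3) := by
    exact_mod_cast Nat.card_pos
  have h3p : (0 : ℝ) < 3 ^ (prs (univ : Finset ι)).card := by positivity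
  rw [div_le_iff₀ h3p]
  have h4 := mul_le_mul_of_nonneg_right h h3p.le
  have h5 : (Nat.card {α : ↥U ⊕ ι → ↥U ⊕ ι → ZMod 3 //
      ¬ Good B ε A (fun e => co (ef P m e) ks (mx (Jx U ι) G α))} : ℝ) *
        3 ^ (prs (univ : Finset ι)).card =
      ((univ.filter fun g : prs (univ : Finset ι) → ZMod 3 =>
      ¬ Good B ε A (fun e => co (ef P m e) ks (mx (Jx U ι) G (lf U g)))).card : ℝ) *
        Nat.card (↥U ⊕ ι → ↥U ⊕ ι → ZMod 3) := by
    exact_mod_cast h1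
  rw [h5] at h4
  have h6 : ((univ.filter fun g : prs (univ : Finset ι) → ZMod 3 =>
      ¬ Good B ε A (fun e => co (ef P m e) ks (mx (Jx U ι) G (lf U g)))).card : ℝ) *
        Nat.card (↥U ⊕ ι → ↥U ⊕ ι → ZMod 3) ≤
      (δ * 3 ^ (prs (univ : Finset ι)).card) * Nat.card (↥U ⊕ ι → ↥U ⊕ ι → ZMod 3) := by
    linarith
  exact le_of_mul_le_mul_right h6 hN

end box

end Q283.ND
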