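import Pool.Agent.Q283.ND.Bx

/-! The law of large numbers over the exponents in a box of primes: the link with the tables -/

set_option autoImplicit false
set_option linter.unusedSectionVars false

open scoped Classical

namespace Q283.ND

open Finset Module
open Q283.Q3 (cq cq_ge cq_le KT mem_KT NdM LN ndM_iff phi phi_bij)
open Pool.Agent.Y703.CX (lam HB S_EQ prs)
open Pool.Agent.Y911.CX (lb HB_sub)

section lk
variable {ι : Type} [Fintype ι] {S W : Finset ℕ} {p : ι → ℕ}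

/-- the restriction of the exponents to the primes of the set -/
noncomputable def rho (S W : Finset ℕ) (p : ι → ℕ) (E : ↥(S ∪ W) ⊕ ι ≃ ↥((S ∪ univ.image p) ∪ W)) :
    (↥(S ∪ W) ⊕ ι → ZMod 3) →+ (↥(S ∪ univ.image p) → ZMod 3) where
  toFun := fun e d => e (E.symm ⟨d, mem_union_left _ d.2⟩)
  map_zero' := rfl
  map_add' := fun _ _ => rfl

theorem rho_surj (E : ↥(S ∪ W) ⊕ ι ≃ ↥((S ∪ univ.image p) ∪ W)) :
    Function.Surjective (rho S W p E) := by
  intro g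
  refine ⟨fun i => if h : (E i : ℕ) ∈ S ∪ univ.image p then g ⟨E i, h⟩ else 0, ?_⟩
  funext d
  show (if h : ((E (E.symm ⟨d, mem_union_left _ d.2⟩) : ↥((S ∪ univ.image p) ∪ W)) : ℕ) ∈
    S ∪ univ.image p then g ⟨_, h⟩ else 0) = g d
  have h1 : ((E (E.symm ⟨d, mem_union_left _ d.2⟩) : ↥((S ∪ univ.image p) ∪ W)) : ℕ) = d := by
    rw [E.apply_symm_apply]
  rw [dif_pos (by rw [h1]; exact d.2)]
  congr 1
  exact Subtype.ext h1

/-- the enumeration -/
theorem exE (hp : Function.Injective p) (hd : ∀ i, p i ∉ S ∪ W) : ∃ E : ↥(S ∪ W) ⊕ ι ≃ ↥((S ∪ univ.image p) ∪ W),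
    (∀ u, (E (Sum.inl u) : ℕ) = u) ∧ ∀ k, (E (Sum.inr k) : ℕ) = p k :=
  ⟨Equiv.ofBijective _ (phi_bij hp hd), fun _ => rfl, fun _ => rfl⟩

theorem mem_P (hd : ∀ i, p i ∉ S ∪ W) (E : ↥(S ∪ W) ⊕ ι ≃ ↥((S ∪ univ.image p) ∪ W))
    (hE1 : ∀ u, (E (Sum.inl u) : ℕ) = u) (hE2 : ∀ k, (E (Sum.inr k) : ℕ) = p k)
    (i : ↥(S ∪ W) ⊕ ι) : (E i : ℕ) ∈ S ∪ univ.image p ↔ i ∈ Px (S ∪ W) S ι := by
  rcases i with u | k
  · rw [hE1, inl_Px, mem_union]
    constructor
    · rintro (h | h)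
      · exact h
      · obtain ⟨k, -, hk⟩ := mem_image.1 h
        exact absurd (hk ▸ u.2) (hd k)
    · exact fun h => Or.inl h
  · rw [hE2]
    exact ⟨fun _ => inr_Px k, fun _ => mem_union_right _ (mem_image_of_mem _ (mem_univ _))⟩

/-- the product over the primes of the set -/
theorem prod_P (hd : ∀ i, p i ∉ S ∪ W) (E : ↥(S ∪ W) ⊕ ι ≃ ↥((S ∪ univ.image p) ∪ W))
    (hE1 : ∀ u, (E (Sum.inl u) : ℕ) = u) (hE2 : ∀ k, (E (Sum.inr k) : ℕ) = p k)
    {κ9 : ι → ℕ} (hκ : ∀ k, p k % 9 = κ9 k) (e : ↥(S ∪ W) ⊕ ι → ZMod 3) :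
    ((∏ d : ↥(S ∪ univ.image p), (d : ℕ) ^ (rho S W p E e d).val : ℕ) : ZMod 9) =
      ((∏ i ∈ Px (S ∪ W) S ι, vx (S ∪ W) κ9 i ^ (e i).val : ℕ) : ZMod 9) := by
  push_cast
  refine Finset.prod_bij' (fun d _ => E.symm ⟨d, mem_union_left _ d.2⟩)
    (fun i hi => ⟨E i, (mem_P hd E hE1 hE2 i).2 hi⟩) ?_ ?_ ?_ ?_ ?_
  · intro d _
    rw [← mem_P hd E hE1 hE2, E.apply_symm_apply]
    exact d.2
  · intro i _
    exact mem_univ _
  · intro d _
    apply Subtype.ext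
    simp only [E.apply_symm_apply]
  · intro i _
    exact E.symm_apply_apply i
  · intro d _
    have h1 : rho S W p E e d = e (E.symm ⟨d, mem_union_left _ d.2⟩) := rfl
    rw [h1]
    congr 1
    obtain ⟨i, hi⟩ : ∃ i, i = E.symm ⟨d, mem_union_left _ d.2⟩ := ⟨_, rfl⟩
    have h2 : (d : ℕ) = (E i : ℕ) := by rw [hi, E.apply_symm_apply]
    rw [← hi, h2, ZMod.natCast_eq_natCast_iff]
    rcases i with u | k
    · rw [hE1]
      rfl
    · rw [hE2]
      show p k % 9 = κ9 k % 9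
      rw [← hκ k, Nat.mod_mod]

/-- **The link.** -/
theorem ts_iff (hp : Function.Injective p) (hd : ∀ i, p i ∉ S ∪ W) {k : ℕ} (hk9 : k < 9)
    {m : ℕ → ZMod 3} {r : ℕ} (hb : Bd W m r) (hS : ∀ u ∈ S, u % 3 = 1) (hp1 : ∀ i, p i % 3 = 1)
    {κ9 : ι → ℕ} (hκ : ∀ k, p k % 9 = κ9 k) (B : ℕ) (ε : ℝ)
    (A : Finset (↥(S ∪ W) ⊕ ι → ZMod 3))
    (hA : ∀ e, e ∈ A ↔ (∏ i ∈ Px (S ∪ W) S ι, vx (S ∪ W) κ9 i ^ (e i).val) % 9 = k) :
    TS k W m B ε (S ∪ univ.image p) ↔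
      Good B ε A (fun e => co (ef (Px (S ∪ W) S ι) (mm (S ∪ W) ι m) e)
        (Sum.inl ⟨r, mem_union_right _ hb.rW⟩)
        (mx (Jx (S ∪ W) ι) (Gx (S ∪ W) (fun u v => lam u v)
          (fun k => (fun u => lam u (p k), fun u => lam (p k) u)))
          (lf (S ∪ W) fun e => lam (p e.1.1) (p e.1.2)))) := by
  obtain ⟨E, hE1, hE2⟩ := exE hp hd
  unfold TS
  have hρA : ∀ e, e ∈ A ↔ rho S W p E e ∈ Ax k (S ∪ univ.image p) := by
    intro e
    rw [hA]
    unfold Ax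
    rw [mem_filter, mod9_iff hk9, mod9_iff hk9, prod_P hd E hE1 hE2 hκ]
    exact ⟨fun h => ⟨mem_univ _, h⟩, fun h => h.2⟩
  rw [← good_tr (rho S W p E) (rho_surj E) _ A hρA]
  have hrn : ∀ u : ↥(S ∪ W), (u : ℕ) % 3 = 1 ↔ u ≠ ⟨r, mem_union_right _ hb.rW⟩ := by
    intro u
    constructor
    · rintro h rfl
      have := hb.r2
      simp only at h
      omega
    · intro h
      have h' : (u : ℕ) ≠ r := fun h'' => h (Subtype.ext h'')
      rcases mem_union.1 u.2 with h2 | h2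
      · exact hS _ h2
      · exact hb.ot _ h2 h'
  have hk : ∀ i : ↥(S ∪ W) ⊕ ι, (E i : ℕ) % 3 = 1 ↔
      i ≠ Sum.inl ⟨r, mem_union_right _ hb.rW⟩ := by
    intro i
    rcases i with u | k
    · rw [hE1, hrn]
      exact ⟨fun h h' => h (Sum.inl_injective h'), fun h h' => h (congrArg Sum.inl h')⟩
    · rw [hE2]
      exact ⟨fun _ => by simp, fun _ => hp1 k⟩
  have hxe : ∀ (e : ↥(S ∪ W) ⊕ ι → ZMod 3) (i : ↥(S ∪ W) ⊕ ι),
      xe (S ∪ univ.image p) m (rho S W p E e) (E i) =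
      ef (Px (S ∪ W) S ι) (mm (S ∪ W) ι m) e i := by
    intro e i
    unfold xe ef
    congr 1
    · by_cases h : (E i : ℕ) ∈ S ∪ univ.image p
      · rw [dif_pos h, if_pos ((mem_P hd E hE1 hE2 i).1 h)]
        show e (E.symm ⟨(E i : ℕ), _⟩) = e i
        congr 1
        rw [Equiv.symm_apply_eq]
      · rw [dif_neg h, if_neg fun h' => h ((mem_P hd E hE1 hE2 i).2 h')]
    · rcases i with u | k
      · rw [hE1]
        rfl
      · rw [hE2]
        exact hb.mW _ fun h => hd k (mem_union_right _ h)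
  have hkey : ∀ e : ↥(S ∪ W) ⊕ ι → ZMod 3, ck (S ∪ univ.image p) W m (rho S W p E e) =
      co (ef (Px (S ∪ W) S ι) (mm (S ∪ W) ι m) e) (Sum.inl ⟨r, mem_union_right _ hb.rW⟩)
        (mx (Jx (S ∪ W) ι) (Gx (S ∪ W) (fun u v => lam u v)
          (fun k => (fun u => lam u (p k), fun u => lam (p k) u)))
          (lf (S ∪ W) fun e => lam (p e.1.1) (p e.1.2))) := by
    intro e
    have h1 := kt_co E hk (xe (S ∪ univ.image p) m (rho S W p E e)) (by
      rw [hxe]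
      unfold ef
      have hrS : r ∉ S := fun h => by
        have := hS r h
        have := hb.r2
        omega
      rw [if_neg (by rw [inl_Px]; exact hrS), zero_add]
      exact hb.mr)
    unfold ck
    rw [h1, Nat.add_sub_cancel]
    simp only [hxe]
    unfold co
    rw [Sy_diag]
    intro i j hij
    rcases i with u | k <;> rcases j with v | l
    · rw [hE1, hE1]
      unfold mx
      rw [if_neg fun h => inl_Jx u h.1]
      rfl
    · rw [hE1, hE2]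
      unfold mx
      rw [if_neg fun h => inl_Jx u h.1]
      rfl
    · rw [hE1, hE2]
      unfold mx
      rw [if_neg fun h => inl_Jx v h.2]
      rfl
    · rw [hE2, hE2]
      unfold mx
      rw [if_pos ⟨inr_Jx k, inr_Jx l⟩]
      show lam (p k) (p l) = Pool.Agent.Y703.CX.ext
        (fun e : prs (univ : Finset ι) => lam (p e.1.1) (p e.1.2)) k l
      unfold Pool.Agent.Y703.CX.ext
      rw [dif_pos (mem_prs.2 ⟨mem_univ _, fun h => hij (congrArg Sum.inr (Eq.symm h))⟩)]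
  simp only [hkey]

end lk

end Q283.ND
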