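import Pool.Agent.Q283.ND.By

/-! The law of large numbers over the exponents in a box of primes -/

set_option autoImplicit false
set_option linter.unusedSectionVars false

open scoped Classical

namespace Q283.ND

open Finset Module
open Q283.Q3 (cq cq_ge cq_le KT mem_KT NdM LN ndM_iff phi phi_bij mod3')
open Pool.Agent.Y703.CX (lam HB S_EQ prs)
open Pool.Agent.Y911.CX (lb HB_sub)

/-- a sum over a larger set -/
theorem sub_sum {V U : Finset ℕ} (h : V ⊆ U) (F : U → ZMod 3) (hF : ∀ u : U, (u : ℕ) ∉ V → F u = 0) :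
    ∑ u, F u = ∑ u : V, F ⟨u, h u.2⟩ := by
  have h1 : ∑ u : V, F ⟨u, h u.2⟩ =
      ∑ x ∈ (univ : Finset ↥V).image (fun u : ↥V => (⟨(u : ℕ), h u.2⟩ : ↥U)), F x := by
    rw [sum_image]
    intro x _ y _ hxy
    exact Subtype.ext (congrArg (fun z : ↥U => (z : ℕ)) hxy)
  rw [h1]
  symm
  refine sum_subset (subset_univ _) fun x _ hx => hF x fun hxV => hx ?_
  rw [mem_image]
  exact ⟨⟨x, hxV⟩, mem_univ _, rfl⟩

section dt
variable {ι : Type} [Fintype ι] {S W U : Finset ℕ}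

theorem inj_count (Q : ↥(S ∪ W) ⊕ ι → Prop) (T : ι → Prop) (hTQ : ∀ i, T i → Q (Sum.inr i)) :
    (univ.filter T).card ≤ Nat.card {x // x ∈ Jx (S ∪ W) ι ∧ Q x} := by
  rw [← nc]
  refine Nat.card_le_card_of_injective
    (fun i : {i // T i} => (⟨Sum.inr i.1, inr_Jx _, hTQ _ i.2⟩ :
      {x // x ∈ Jx (S ∪ W) ι ∧ Q x})) ?_
  intro i j hij
  apply Subtype.ext
  exact Sum.inr_injective (congrArg Subtype.val hij)

theorem dat_of {m : ℕ → ZMod 3} {r R : ℕ} (hb : Bd W m r) (hS : ∀ u ∈ S, u % 3 = 1)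
    (hSU : S ∪ W ⊆ U) (A : ↥(S ∪ W) → ↥(S ∪ W) → ZMod 3)
    (β : ι → (U → ZMod 3) × (U → ZMod 3)) (hL : LN R U univ β) :
    Dat (Jx (S ∪ W) ι) (Px (S ∪ W) S ι) (Sum.inl ⟨r, mem_union_right _ hb.rW⟩)
      (Gx (S ∪ W) A (fun k => (fun u => (β k).1 ⟨u, hSU u.2⟩, fun u => (β k).2 ⟨u, hSU u.2⟩)))
      (mm (S ∪ W) ι m) R := by
  have hle : (S ∪ W).card ≤ U.card := card_le_card hSU
  have hr1 : ∀ u : ↥(S ∪ W), u ≠ ⟨r, mem_union_right _ hb.rW⟩ → (u : ℕ) % 3 = 1 := by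
    intro u h
    have h' : (u : ℕ) ≠ r := fun h'' => h (Subtype.ext h'')
    rcases mem_union.1 u.2 with h2 | h2
    · exact hS _ h2
    · exact hb.ot _ h2 h'
  refine mkDat (u := (S ∪ W).card) card_cJx ?_ ?_ hb.mr ?_ ?_ ?_ ?_
  · intro i hi
    obtain ⟨k, rfl⟩ := mem_Jx.1 hi
    exact inr_Px k
  · rw [inl_Px]
    intro h
    have h1 := hS r h
    have h2 := hb.r2
    omega
  · intro i hi
    obtain ⟨k, rfl⟩ := mem_Jx.1 hi
    rfl
  · intro v hv hvk hv0
    obtain ⟨v', hv'⟩ : ∃ v' : U → ZMod 3, v' = fun u : U => if h : (u : ℕ) ∈ S ∪ W then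
      v (Sum.inl ⟨u, h⟩) else 0 := ⟨_, rfl⟩
    have hin : ∀ u : ↥(S ∪ W), v' ⟨u, hSU u.2⟩ = v (Sum.inl u) := by
      intro u
      rw [hv']
      simp only
      rw [dif_pos u.2]
    obtain ⟨i, hi⟩ := Function.ne_iff.1 hv0
    obtain ⟨u, rfl⟩ : ∃ u, i = Sum.inl u := by
      rcases i with u | k
      · exact ⟨u, rfl⟩
      · exact absurd (hv _ (inr_Jx k)) hi
    have hur : u ≠ ⟨r, mem_union_right _ hb.rW⟩ := by
      rintro rfl
      exact hi hvk
    have h1 := hL.1 v' ⟨⟨u, hSU u.2⟩, hr1 u hur, by rw [hin]; exact hi⟩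
    have h2 : ∀ i : ι, ∑ u ∈ univ.filter (fun u : U => (u : ℕ) % 3 = 1), v' u * (β i).1 u =
        ∑ x : ↥(S ∪ W) ⊕ ι, v x * Gx (S ∪ W) A
          (fun k => (fun u => (β k).1 ⟨u, hSU u.2⟩, fun u => (β k).2 ⟨u, hSU u.2⟩)) x (Sum.inr i) := by
      intro i
      rw [Fintype.sum_sum_type, sum_eq_zero (s := (univ : Finset ι)) (fun k _ => by
        show v (Sum.inr k) * 0 = 0
        rw [mul_zero]), add_zero]
      have h3 : ∑ u ∈ univ.filter (fun u : U => (u : ℕ) % 3 = 1), v' u * (β i).1 u =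
          ∑ u : U, v' u * (β i).1 u := by
        refine sum_subset (filter_subset _ _) fun u _ hu => ?_
        rw [mem_filter, not_and] at hu
        have hu1 := hu (mem_univ _)
        have h4 : v' u = 0 := by
          rw [hv']
          simp only
          by_cases h5 : (u : ℕ) ∈ S ∪ W
          · rw [dif_pos h5]
            by_cases h6 : (⟨u, h5⟩ : ↥(S ∪ W)) = ⟨r, mem_union_right _ hb.rW⟩
            · rw [h6]
              exact hvk
            · exact absurd (hr1 _ h6) hu1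
          · rw [dif_neg h5]
        rw [h4, zero_mul]
      rw [h3, sub_sum hSU _ (fun u hu => by rw [hv']; simp only; rw [dif_neg hu, zero_mul])]
      refine sum_congr rfl fun u _ => ?_
      rw [hin]
      rfl
    have h3 := inj_count (S := S) (W := W)
      (fun x => ∑ y : ↥(S ∪ W) ⊕ ι, v y * Gx (S ∪ W) A
          (fun k => (fun u => (β k).1 ⟨u, hSU u.2⟩, fun u => (β k).2 ⟨u, hSU u.2⟩)) y x ≠ 0)
      (fun i : ι => ∑ u ∈ univ.filter (fun u : U => (u : ℕ) % 3 = 1), v' u * (β i).1 u ≠ 0)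
      (fun i hi => by rw [← h2 i]; exact hi)
    refine le_trans ?_ h3
    refine le_trans ?_ (h1.trans (le_of_eq fcc))
    omega
  · intro w hw hw0
    obtain ⟨w', hw'⟩ : ∃ w' : U → ZMod 3, w' = fun u : U => if h : (u : ℕ) ∈ S ∪ W then
      w (Sum.inl ⟨u, h⟩) else 0 := ⟨_, rfl⟩
    have hin : ∀ u : ↥(S ∪ W), w' ⟨u, hSU u.2⟩ = w (Sum.inl u) := by
      intro u
      rw [hw']
      simp only
      rw [dif_pos u.2]
    obtain ⟨i, hi⟩ := Function.ne_iff.1 hw0
    obtain ⟨u, rfl⟩ : ∃ u, i = Sum.inl u := by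
      rcases i with u | k
      · exact ⟨u, rfl⟩
      · exact absurd (hw _ (inr_Jx k)) hi
    have h1 := hL.2.1 w' ⟨⟨u, hSU u.2⟩, by rw [hin]; exact hi⟩
    have h2 : ∀ i : ι, ∑ u, w' u * (β i).2 u =
        ∑ x : ↥(S ∪ W) ⊕ ι, w x * Gx (S ∪ W) A
          (fun k => (fun u => (β k).1 ⟨u, hSU u.2⟩, fun u => (β k).2 ⟨u, hSU u.2⟩)) (Sum.inr i) x := by
      intro i
      rw [Fintype.sum_sum_type, sum_eq_zero (s := (univ : Finset ι)) (fun k _ => by
        show w (Sum.inr k) * 0 = 0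
        rw [mul_zero]), add_zero]
      rw [sub_sum hSU _ (fun u hu => by rw [hw']; simp only; rw [dif_neg hu, zero_mul])]
      refine sum_congr rfl fun u _ => ?_
      rw [hin]
      rfl
    have h3 := inj_count (S := S) (W := W)
      (fun x => ∑ y : ↥(S ∪ W) ⊕ ι, w y * Gx (S ∪ W) A
          (fun k => (fun u => (β k).1 ⟨u, hSU u.2⟩, fun u => (β k).2 ⟨u, hSU u.2⟩)) x y ≠ 0)
      (fun i : ι => ∑ u, w' u * (β i).2 u ≠ 0)
      (fun i hi => by rw [← h2 i]; exact hi)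
    refine le_trans ?_ h3
    refine le_trans ?_ (h1.trans (le_of_eq fcc))
    omega
  · rw [card_Jx]
    have := hL.2.2
    rw [card_univ] at this
    omega

end dt

/-- the statement for the boxes -/
def BXN (W : Finset ℕ) (R a : ℕ) (G : Finset ℕ → Prop) (δ : ℝ) : Prop :=
  ∀ (ι : Type) [Fintype ι] (J1 : Finset ι)
  (C : ι → Finset ℕ) (X : ι → ℕ) (κ9 : ι → ℕ) (κ : ℝ) (S₀ : Finset ℕ), 0 ≤ κ →
  (∀ i, (C i).card ≤ X i) →
  HB J1 C X κ → (∀ u ∈ S₀, u.Prime ∧ u ≠ 3) → a ∈ S₀ →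
  (∀ i, ∀ p ∈ C i, p.Prime ∧ p ∉ S₀ ∪ W ∧ (i ∈ J1 → p % 3 = 1) ∧ (i ∉ J1 → p % 3 = 2)) →
  (∀ i, ∀ p ∈ C i, p % 9 = κ9 i) →
  (∀ i l, i ≠ l → Disjoint (C i) (C l)) →
  (S₀.filter fun p => p % 3 = 2).card + (univ \ J1).card = 1 →
  |(((Fintype.piFinset C).filter fun p => NdM R W S₀ (univ.image p) ∧
      G (S₀ ∪ univ.image p)).card : ℝ) -
      1 * (((Fintype.piFinset C).filter fun p => NdM R W S₀ (univ.image p)).card : ℝ)| ≤
    δ * (((Fintype.piFinset C).filter fun p => NdM R W S₀ (univ.image p)).card : ℝ) +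
    3 ^ (2 * (S₀ ∪ W).card * Fintype.card ι + (prs J1).card) * (κ * ∏ j, (X j : ℝ))

/-- **The count in a box.** -/
theorem t_BXN (hEQ : S_EQ) (B : ℕ) (ε : ℝ) (hε : 0 < ε) (δ : ℝ) (hδ : 0 < δ) : ∃ R : ℕ,
    ∀ R' : ℕ, R ≤ R' → ∀ (k : ℕ) (W : Finset ℕ) (m : ℕ → ZMod 3) (r a : ℕ), k < 9 → Bd W m r →
    a % 3 = 2 → BXN W R' a (fun S => TS k W m B ε (S.erase a)) δ := by
  obtain ⟨δ₁, hδ₁⟩ : ∃ δ₁ : ℝ, δ₁ = min δ ε := ⟨_, rfl⟩
  have hδ₁0 : 0 < δ₁ := by rw [hδ₁]; exact lt_min hδ hε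
  obtain ⟨R, hR⟩ := loc' B δ₁ hδ₁0
  refine ⟨R, ?_⟩
  intro R' hR' k W m r a hk9 hb ha ι _ J1 C X κ9 κ S₀ hκ hCX hHB hS₀ haS hC hC9 hdis hcard
  obtain ⟨E, hE⟩ : ∃ E : ℝ, E = 3 ^ (prs J1).card * (κ * ∏ j, (X j : ℝ)) := ⟨_, rfl⟩
  have hE0 : 0 ≤ E := by
    rw [hE]
    exact mul_nonneg (by positivity)
      (mul_nonneg hκ (Finset.prod_nonneg fun j _ => by positivity))
  -- the shape of the box
  have haf : a ∈ S₀.filter fun p => p % 3 = 2 := mem_filter.2 ⟨haS, ha⟩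
  have hpos : 0 < (S₀.filter fun p => p % 3 = 2).card := card_pos.2 ⟨a, haf⟩
  have hone : (S₀.filter fun p => p % 3 = 2).card = 1 := by omega
  have hJ1 : J1 = univ := by
    have h1 : (univ \ J1).card = 0 := by omega
    rw [card_eq_zero, sdiff_eq_empty_iff_subset] at h1
    exact univ_subset_iff.1 h1
  subst hJ1
  obtain ⟨S, hS⟩ : ∃ S, S = S₀.erase a := ⟨_, rfl⟩
  have hS1 : ∀ u ∈ S, u % 3 = 1 := by
    intro u hu
    rw [hS, mem_erase] at hu
    rcases mod3' (hS₀ u hu.2).1 (hS₀ u hu.2).2 with h | h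
    · exact h
    · exfalso
      obtain ⟨y, hy⟩ := card_eq_one.1 hone
      have h1 : u ∈ S₀.filter fun p => p % 3 = 2 := mem_filter.2 ⟨hu.2, h⟩
      rw [hy, mem_singleton] at h1 haf
      exact hu.1 (h1.trans haf.symm)
  have hSS₀ : S ⊆ S₀ := by rw [hS]; exact erase_subset _ _
  have hSU : S ∪ W ⊆ S₀ ∪ W := union_subset_union hSS₀ (Finset.Subset.refl _)
  -- facts on tuples
  have hinj : ∀ p ∈ Fintype.piFinset C, Function.Injective p := by
    intro p hp i j hij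
    rw [Fintype.mem_piFinset] at hp
    by_contra hne
    have h1 := Finset.disjoint_left.1 (hdis i j hne) (hp i)
    rw [hij] at h1
    exact h1 (hp j)
  have hJ : ∀ p ∈ Fintype.piFinset C, ∀ i, p i % 3 = 1 := by
    intro p hp i
    rw [Fintype.mem_piFinset] at hp
    obtain ⟨-, -, h1, -⟩ := hC i _ (hp i)
    exact h1 (mem_univ _)
  have hd : ∀ p ∈ Fintype.piFinset C, ∀ i, p i ∉ S₀ ∪ W := by
    intro p hp i
    rw [Fintype.mem_piFinset] at hp
    exact (hC i _ (hp i)).2.1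
  have h9 : ∀ p ∈ Fintype.piFinset C, ∀ i, p i % 9 = κ9 i := by
    intro p hp i
    rw [Fintype.mem_piFinset] at hp
    exact hC9 i _ (hp i)
  have hG : ∀ p ∈ Fintype.piFinset C, (S₀ ∪ univ.image p).erase a = S ∪ univ.image p := by
    intro p hp
    rw [hS]
    ext x
    simp only [mem_erase, mem_union]
    constructor
    · rintro ⟨h1, h2 | h2⟩
      · exact Or.inl ⟨h1, h2⟩
      · exact Or.inr h2
    · rintro (⟨h1, h2⟩ | h2)
      · exact ⟨h1, Or.inl h2⟩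
      · refine ⟨?_, Or.inr h2⟩
        rintro rfl
        obtain ⟨i, -, hi⟩ := mem_image.1 h2
        exact hd p hp i (hi ▸ mem_union_left _ haS)
  -- the admissible exponents
  obtain ⟨A, hA⟩ : ∃ A : Finset (↥(S ∪ W) ⊕ ι → ZMod 3), ∀ e, e ∈ A ↔
      (∏ i ∈ Px (S ∪ W) S ι, vx (S ∪ W) κ9 i ^ (e i).val) % 9 = k :=
    ⟨(Set.toFinite {e : ↥(S ∪ W) ⊕ ι → ZMod 3 |
      (∏ i ∈ Px (S ∪ W) S ι, vx (S ∪ W) κ9 i ^ (e i).val) % 9 = k}).toFinset,
      fun e => by rw [Set.Finite.mem_toFinset]; exact Iff.rfl⟩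
  -- the part with given labels
  have h1 : ∀ β : ι → (↥(S₀ ∪ W) → ZMod 3) × (↥(S₀ ∪ W) → ZMod 3), LN R' (S₀ ∪ W) univ β →
      (((Fintype.piFinset C).filter fun p => (fun i => lb (S₀ ∪ W) (p i)) = β ∧
          ¬ TS k W m B ε ((S₀ ∪ univ.image p).erase a)).card : ℝ) ≤
      δ * (((Fintype.piFinset C).filter fun p => (fun i => lb (S₀ ∪ W) (p i)) = β).card : ℝ) +
        E := by
    intro β hβ
    rcases ((Fintype.piFinset C).filter fun p =>
      (fun i => lb (S₀ ∪ W) (p i)) = β).eq_empty_or_nonempty with hemp | ⟨p₀, hp₀⟩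
    · have h2 : (Fintype.piFinset C).filter (fun p => (fun i => lb (S₀ ∪ W) (p i)) = β ∧
          ¬ TS k W m B ε ((S₀ ∪ univ.image p).erase a)) = ∅ := by
        rw [filter_eq_empty_iff]
        intro p hp h
        have h3 : p ∈ (Fintype.piFinset C).filter fun p =>
          (fun i => lb (S₀ ∪ W) (p i)) = β := mem_filter.2 ⟨hp, h.1⟩
        rw [hemp] at h3
        exact notMem_empty _ h3
      rw [h2, hemp, card_empty, Nat.cast_zero, mul_zero, zero_add]
      exact hE0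
    have hp₀m := (mem_filter.1 hp₀).1
    have hdS' : ∀ p ∈ Fintype.piFinset C, ∀ i, p i ∉ S ∪ W := fun p hp i h => hd p hp i (hSU h)
    rcases A.eq_empty_or_nonempty with hAe | hAne
    · have h2 : (Fintype.piFinset C).filter (fun p => (fun i => lb (S₀ ∪ W) (p i)) = β ∧
          ¬ TS k W m B ε ((S₀ ∪ univ.image p).erase a)) = ∅ := by
        rw [filter_eq_empty_iff]
        intro p hp h
        apply h.2
        rw [hG p hp]
        refine (ts_iff (hinj p hp) (hdS' p hp) hk9 hb hS1 (hJ p hp) (h9 p hp) B ε A hA).2 ?_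
        rw [hAe]
        refine ⟨fun b _ => ?_, ?_⟩ <;> simp
      rw [h2, card_empty, Nat.cast_zero]
      positivity
    -- the values modulo nine
    have hκ1 : ∀ i ∈ Px (S ∪ W) S ι, vx (S ∪ W) κ9 i % 3 = 1 := by
      intro i hi
      rcases i with u | k
      · exact hS1 _ ((inl_Px u).1 hi)
      · show κ9 k % 3 = 1
        rw [← h9 p₀ hp₀m k]
        have := hJ p₀ hp₀m k
        omega
    obtain ⟨C', hC'⟩ : ∃ C' : ι → Finset ℕ, C' = fun i => (C i).filter fun q =>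
      lb (S₀ ∪ W) q = β i := ⟨_, rfl⟩
    have hpi : (Fintype.piFinset C).filter (fun p => (fun i => lb (S₀ ∪ W) (p i)) = β) =
        Fintype.piFinset C' := by
      ext p
      simp only [Finset.mem_filter, Fintype.mem_piFinset, hC']
      constructor
      · rintro ⟨h2, h3⟩ i
        exact ⟨h2 i, congrFun h3 i⟩
      · intro h2
        exact ⟨fun i => (h2 i).1, funext fun i => (h2 i).2⟩
    obtain ⟨G, hGd⟩ : ∃ G, G = Gx (S ∪ W) (fun u v => lam u v) (fun k : ι =>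
      ((fun u => (β k).1 ⟨u, hSU u.2⟩, fun u => (β k).2 ⟨u, hSU u.2⟩) :
        (↥(S ∪ W) → ZMod 3) × (↥(S ∪ W) → ZMod 3))) := ⟨_, rfl⟩
    have h2 := hR R' hR' (↥(S ∪ W) ⊕ ι) (Jx (S ∪ W) ι) (Px (S ∪ W) S ι)
      (Sum.inl ⟨r, mem_union_right _ hb.rW⟩) G (mm (S ∪ W) ι m) A
      (by rw [hGd]; exact dat_of hb hS1 hSU _ β hβ) (third hκ1 A hA hAne)
    have h2' := share_le B δ₁ δ₁ _ _ _ _ _ h2
    obtain ⟨Q, hQ⟩ : ∃ Q : (prs (univ : Finset ι) → ZMod 3) → Prop, Q = fun g =>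
        ¬ Good B δ₁ A (fun e => co (ef (Px (S ∪ W) S ι) (mm (S ∪ W) ι m) e)
          (Sum.inl ⟨r, mem_union_right _ hb.rW⟩) (mx (Jx (S ∪ W) ι) G (lf (S ∪ W) g))) := ⟨_, rfl⟩
    have h3 := hEQ ι univ C' X κ hκ
      (fun i => (Finset.card_le_card (by rw [hC']; exact Finset.filter_subset _ _)).trans (hCX i))
      (by rw [hC']; exact HB_sub hHB fun i q => lb (S₀ ∪ W) q = β i) Q
    have h4 : ((Fintype.piFinset C).filter fun p => (fun i => lb (S₀ ∪ W) (p i)) = β ∧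
        ¬ TS k W m B ε ((S₀ ∪ univ.image p).erase a)).card ≤
        ((Fintype.piFinset C').filter fun p => Q fun e => lam (p e.1.1) (p e.1.2)).card := by
      rw [← hpi, Finset.filter_filter]
      refine card_le_card fun p hp => ?_
      rw [mem_filter] at hp ⊢
      obtain ⟨hpC, hl, hT⟩ := hp
      refine ⟨hpC, hl, ?_⟩
      rw [hQ]
      intro hgood
      apply hT
      rw [hG p hpC]
      have h5 := (ts_iff (hinj p hpC) (hdS' p hpC) hk9 hb hS1 (hJ p hpC) (h9 p hpC) B δ₁ A hA).2 ?_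
      · exact Good.mono h5 le_rfl (by rw [hδ₁]; exact min_le_right _ _)
      · have e1 : G = Gx (S ∪ W) (fun u v => lam u v)
            (fun k : ι => ((fun u => lam u (p k), fun u => lam (p k) u) :
              (↥(S ∪ W) → ZMod 3) × (↥(S ∪ W) → ZMod 3))) := by
          rw [hGd]
          congr 1
          funext k
          rw [← hl]
          rfl
        rw [← e1]
        exact hgood
    have h5 : (((Fintype.piFinset C').card : ℕ) : ℝ) = ∏ j, ((C' j).card : ℝ) := by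
      rw [Fintype.card_piFinset]
      push_cast
      rfl
    rw [hpi, h5]
    refine le_trans ((Nat.cast_le (α := ℝ)).2 h4) ?_
    rw [← hE] at h3
    obtain ⟨n, hn⟩ : ∃ n : ℝ, n = (((Fintype.piFinset C').filter fun p =>
          Q fun e => lam (p e.1.1) (p e.1.2)).card : ℝ) := ⟨_, rfl⟩
    obtain ⟨q, hq⟩ : ∃ q : ℝ, q = ((univ.filter Q).card : ℝ) / 3 ^ (prs (univ : Finset ι)).card :=
      ⟨_, rfl⟩
    obtain ⟨P, hP⟩ : ∃ P : ℝ, P = ∏ j, ((C' j).card : ℝ) := ⟨_, rfl⟩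
    have hP0 : 0 ≤ P := by
      rw [hP]
      exact Finset.prod_nonneg fun j _ => by positivity
    have hqδ : q ≤ δ := by
      refine le_trans (le_trans (le_of_eq ?_) h2') (by rw [hδ₁]; exact min_le_left _ _)
      rw [hq, hQ]
      congr 2
      exact fcc
    rw [← hn, ← hq, ← hP] at h3
    rw [← hn, ← hP]
    have h6 := (abs_le.1 h3).2
    have h7 : q * P ≤ δ * P := mul_le_mul_of_nonneg_right hqδ hP0
    linarith
  -- sum over the labels
  obtain ⟨LL, hLL⟩ : ∃ LL : Finset (ι → (↥(S₀ ∪ W) → ZMod 3) × (↥(S₀ ∪ W) → ZMod 3)),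
    LL = univ.filter (fun β => LN R' (S₀ ∪ W) univ β) := ⟨_, rfl⟩
  have hJ' : ∀ p ∈ Fintype.piFinset C, ∀ i, p i % 3 = 1 ↔ i ∈ (univ : Finset ι) :=
    fun p hp i => ⟨fun _ => mem_univ _, fun _ => hJ p hp i⟩
  have hfib : ∀ T : (ι → ℕ) → Prop,
      (((Fintype.piFinset C).filter fun p => NdM R' W S₀ (univ.image p) ∧ T p).card : ℝ) =
      ∑ β ∈ LL, (((Fintype.piFinset C).filter fun p =>
        (fun i => lb (S₀ ∪ W) (p i)) = β ∧ T p).card : ℝ) := by
    intro T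
    rw [Finset.card_eq_sum_card_fiberwise (f := fun (p : ι → ℕ) (i : ι) => lb (S₀ ∪ W) (p i))
      (t := LL) (by
        intro p hp
        rw [Finset.mem_coe, Finset.mem_filter] at hp
        rw [Finset.mem_coe, hLL, Finset.mem_filter]
        exact ⟨Finset.mem_univ _, (ndM_iff (hinj p hp.1) (hJ' p hp.1)).1 hp.2.1⟩)]
    push_cast
    refine Finset.sum_congr rfl fun β hβ => ?_
    rw [hLL, Finset.mem_filter] at hβ
    congr 2
    ext p
    simp only [Finset.mem_filter]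
    constructor
    · rintro ⟨⟨h3, h4, h4'⟩, h5⟩
      exact ⟨h3, h5, h4'⟩
    · rintro ⟨h3, h4, h5⟩
      refine ⟨⟨h3, ?_, h5⟩, h4⟩
      rw [ndM_iff (hinj p h3) (hJ' p h3), h4]
      exact hβ.2
  have hf1 : (((Fintype.piFinset C).filter fun p => NdM R' W S₀ (univ.image p) ∧
        ¬ TS k W m B ε ((S₀ ∪ univ.image p).erase a)).card : ℝ) =
      ∑ β ∈ LL, (((Fintype.piFinset C).filter fun p => (fun i => lb (S₀ ∪ W) (p i)) = β ∧
        ¬ TS k W m B ε ((S₀ ∪ univ.image p).erase a)).card : ℝ) :=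
    (congrArg Nat.cast fcc).trans
      ((hfib fun p => ¬ TS k W m B ε ((S₀ ∪ univ.image p).erase a)).trans
        (Finset.sum_congr rfl fun β _ => congrArg Nat.cast fcc))
  have hf2 := hfib fun _ => True
  simp only [and_true] at hf2
  have hsplit : (((Fintype.piFinset C).filter fun p => NdM R' W S₀ (univ.image p)).card : ℝ) =
      (((Fintype.piFinset C).filter fun p => NdM R' W S₀ (univ.image p) ∧
        TS k W m B ε ((S₀ ∪ univ.image p).erase a)).card : ℝ) +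
      (((Fintype.piFinset C).filter fun p => NdM R' W S₀ (univ.image p) ∧
        ¬ TS k W m B ε ((S₀ ∪ univ.image p).erase a)).card : ℝ) := by
    have h2 := card_filter_add_card_filter_not
      (s := (Fintype.piFinset C).filter fun p => NdM R' W S₀ (univ.image p))
      (fun p => TS k W m B ε ((S₀ ∪ univ.image p).erase a))
    rw [filter_filter, filter_filter] at h2
    exact_mod_cast h2.symm
  have hbnd : (((Fintype.piFinset C).filter fun p => NdM R' W S₀ (univ.image p) ∧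
        ¬ TS k W m B ε ((S₀ ∪ univ.image p).erase a)).card : ℝ) ≤
      δ * (((Fintype.piFinset C).filter fun p => NdM R' W S₀ (univ.image p)).card : ℝ) +
      3 ^ (2 * (S₀ ∪ W).card * Fintype.card ι + (prs (univ : Finset ι)).card) *
        (κ * ∏ j, (X j : ℝ)) := by
    rw [hf1, hf2]
    refine (Finset.sum_le_sum fun β hβ => h1 β (by
      rw [hLL] at hβ
      exact (Finset.mem_filter.1 hβ).2)).trans ?_
    rw [Finset.sum_add_distrib, ← Finset.mul_sum, Finset.sum_const, nsmul_eq_mul]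
    have h5 : ((LL.card : ℕ) : ℝ) ≤ 3 ^ (2 * (S₀ ∪ W).card * Fintype.card ι) := by
      have h6 : LL.card ≤ Fintype.card (ι → (↥(S₀ ∪ W) → ZMod 3) × (↥(S₀ ∪ W) → ZMod 3)) :=
        Finset.card_le_univ _
      rw [Fintype.card_fun, Fintype.card_prod, Fintype.card_fun, ZMod.card, Fintype.card_coe,
        ← pow_add, ← two_mul, ← pow_mul] at h6
      exact_mod_cast h6
    have h6 := mul_le_mul_of_nonneg_right h5 hE0
    rw [pow_add, mul_assoc, ← hE]
    linarith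
  rw [one_mul, abs_le]
  have h0 : (0 : ℝ) ≤ (((Fintype.piFinset C).filter fun p => NdM R' W S₀ (univ.image p) ∧
        ¬ TS k W m B ε ((S₀ ∪ univ.image p).erase a)).card : ℝ) := Nat.cast_nonneg _
  constructor <;> linarith

end Q283.ND
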