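import Pool.Agent.Q283.Q3.Lowq
import Pool.Agent.TH423.SH.PAIP

/-! A lower bound for the number of the squarefree numbers with all prime factors `≡ 1` modulo `3`
(after `Pool.Agent.Y461.CX.LOW` of helper461) -/

set_option autoImplicit false

open scoped Classical

namespace Q283.ND

open Finset
open Pool.Agent.Y461.CX (M1 mem_M1 G1_lower)

/-- the squarefree numbers with all prime factors `≡ 1` modulo `3` -/
noncomputable def DS (X : ℕ) : Finset ℕ :=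
  (Icc 1 X).filter fun D => Squarefree D ∧ ∀ p : ℕ, p.Prime → p ∣ D → p % 3 = 1

theorem mem_DS {X D : ℕ} : D ∈ DS X ↔ D ≤ X ∧ Squarefree D ∧ ∀ p : ℕ, p.Prime → p ∣ D → p % 3 = 1 := by
  unfold DS
  rw [mem_filter, mem_Icc]
  constructor
  · rintro ⟨⟨-, h1⟩, h2⟩
    exact ⟨h1, h2⟩
  · rintro ⟨h1, h2⟩
    exact ⟨⟨Nat.pos_of_ne_zero h2.1.ne_zero, h1⟩, h2⟩

theorem che1 : ∃ (c : ℝ) (Y₀ : ℕ), 0 < c ∧ ∀ Y : ℕ, Y₀ ≤ Y →
    c * Y / Real.log Y ≤ (((Ioc (Y / 2 + 1) Y).filter fun p => p.Prime ∧ p % 9 = 1).card : ℝ) := by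
  obtain ⟨x₀, hx₀⟩ := Pool.Agent.TH423.SH.pai 9 (by norm_num) (1 / 2) (1 / 4) (by norm_num)
    (by norm_num)
  refine ⟨1 / 48, max 4 ⌈x₀⌉₊, by norm_num, ?_⟩
  intro Y hY
  have hY4 : 4 ≤ Y := le_trans (le_max_left _ _) hY
  have hYx : x₀ ≤ (Y : ℝ) := (Nat.le_ceil x₀).trans (by exact_mod_cast (le_max_right _ _).trans hY)
  have hY4' : (4 : ℝ) ≤ Y := by exact_mod_cast hY4
  have hdiv1 : ((Y / 2 : ℕ) : ℝ) ≤ (Y : ℝ) / 2 := Nat.cast_div_le
  have hdiv2 : (Y : ℝ) / 2 ≤ ((Y / 2 + 1 : ℕ) : ℝ) := by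
    have : Y < 2 * (Y / 2 + 1) := by omega
    have : (Y : ℝ) < 2 * ((Y / 2 + 1 : ℕ) : ℝ) := by exact_mod_cast this
    linarith
  have hlog : 0 < Real.log Y := Real.log_pos (by linarith)
  have h := hx₀ Y hYx (Y / 2 + 1) Y 1 hdiv2 (by linarith)
    (by push_cast; linarith) (by decide)
  have htot : Nat.totient 9 = 6 := by decide
  rw [htot] at h
  have h1 := (abs_le.mp h).1
  have e1 : (1 : ℕ) % 9 = 1 := rfl
  rw [e1] at h1
  have h2 : (1 / 2 : ℝ) * (((Y : ℝ) - ((Y / 2 + 1 : ℕ) : ℝ)) / ((6 : ℕ) * Real.log Y)) ≤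
      (((Ioc (Y / 2 + 1) Y).filter (fun q => q.Prime ∧ q % 9 = 1)).card : ℝ) := by
    have e2 : ((Ioc (Y / 2 + 1) Y).filter (fun q => q.Prime ∧ q % 9 = 1)).card =
      ((Ioc (Y / 2 + 1) Y).filter (fun q => q.Prime ∧ q % 9 = 1)).card := rfl
    have h3 : ∀ n n' : ℝ, n = n' → -(1 / 2 * (((Y : ℝ) - ((Y / 2 + 1 : ℕ) : ℝ)) /
        ((6 : ℕ) * Real.log Y))) ≤ n - ((Y : ℝ) - ((Y / 2 + 1 : ℕ) : ℝ)) / ((6 : ℕ) * Real.log Y) →
        1 / 2 * (((Y : ℝ) - ((Y / 2 + 1 : ℕ) : ℝ)) / ((6 : ℕ) * Real.log Y)) ≤ n' := by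
      intro n n' hn h4
      rw [← hn]
      linarith
    refine h3 _ _ ?_ h1
    congr 2
  refine le_trans ?_ h2
  have h3 : (Y : ℝ) / 4 ≤ (Y : ℝ) - ((Y / 2 + 1 : ℕ) : ℝ) := by push_cast; linarith
  have h4 : (Y : ℝ) / 4 / ((6 : ℕ) * Real.log Y) ≤
      ((Y : ℝ) - ((Y / 2 + 1 : ℕ) : ℝ)) / ((6 : ℕ) * Real.log Y) := by
    apply div_le_div_of_nonneg_right h3
    positivity
  calc (1 / 48 : ℝ) * Y / Real.log Y = 1 / 2 * ((Y : ℝ) / 4 / ((6 : ℕ) * Real.log Y)) := by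
        push_cast; field_simp; ring
    _ ≤ _ := by linarith

/-- the pairs -/
noncomputable def DP (X y : ℕ) : Finset (Σ _ : Finset ℕ, ℕ) :=
  (M1 y).sigma fun S => (Ioc (X / (∏ p ∈ S, p) / 2 + 1) (X / (∏ p ∈ S, p))).filter
    fun q => q.Prime ∧ q % 9 = 1

theorem card_DP_le (X y : ℕ) (hy : 2 * y * y ≤ X) : (DP X y).card ≤ (DS X).card := by
  -- the large prime
  have key : ∀ (S : Finset ℕ) (q : ℕ), (⟨S, q⟩ : Σ _ : Finset ℕ, ℕ) ∈ DP X y →
      S ∈ M1 y ∧ q.Prime ∧ q % 9 = 1 ∧ y < q ∧ q * ∏ p ∈ S, p ≤ X := by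
    intro S q ht
    rw [DP, mem_sigma, mem_filter, mem_Ioc] at ht
    obtain ⟨hS, ⟨hq1, hq2⟩, hqp, hq9⟩ := ht
    obtain ⟨h1, h2⟩ := mem_M1 hS
    simp only at hq1 hq2 hqp hq9
    have hm0 : 0 < ∏ p ∈ S, p := Finset.prod_pos fun p hp => (h1 p hp).1.pos
    refine ⟨hS, hqp, hq9, ?_, (Nat.le_div_iff_mul_le hm0).mp hq2⟩
    have h3 : 2 * y ≤ X / ∏ p ∈ S, p := by
      rw [Nat.le_div_iff_mul_le hm0]
      exact (Nat.mul_le_mul_left _ h2).trans hy
    omega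
  refine Finset.card_le_card_of_injOn (fun t => t.2 * ∏ p ∈ t.1, p) ?_ ?_
  · rintro ⟨S, q⟩ ht
    obtain ⟨hS, hqp, hq9, hyq, hX⟩ := key S q (mem_coe.1 ht)
    obtain ⟨h1, h2⟩ := mem_M1 hS
    rw [mem_coe, mem_DS]
    have hm0 : 0 < ∏ p ∈ S, p := Finset.prod_pos fun p hp => (h1 p hp).1.pos
    have hpf : ∀ p : ℕ, p.Prime → p ∣ ∏ p ∈ S, p → p ∈ S := by
      intro p hp hd
      obtain ⟨u, hu, hpu⟩ := (hp.prime.dvd_finsetProd_iff _).1 hd
      rw [(Nat.prime_dvd_prime_iff_eq hp (h1 u hu).1).1 hpu]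
      exact hu
    refine ⟨hX, ?_, ?_⟩
    · rw [Nat.squarefree_mul]
      · refine ⟨hqp.squarefree, ?_⟩
        exact Finset.squarefree_prod_of_pairwise_isCoprime (fun a ha b hb hab => by
          rw [Function.onFun, ← Nat.coprime_iff_isRelPrime]
          exact (Nat.coprime_primes (h1 a ha).1 (h1 b hb).1).2 hab) fun a ha => (h1 a ha).1.squarefree
      · rw [Nat.Prime.coprime_iff_not_dvd hqp]
        intro h
        have := (h1 q (hpf q hqp h)).2.2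
        omega
    · intro p hp hd
      rcases (Nat.Prime.dvd_mul hp).1 hd with h | h
      · rw [(Nat.prime_dvd_prime_iff_eq hp hqp).1 h]
        omega
      · exact (h1 p (hpf p hp h)).2.1
  · rintro ⟨S, q⟩ ht ⟨S', q'⟩ ht' he
    obtain ⟨hS, hqp, hq9, hyq, hX⟩ := key S q (mem_coe.1 ht)
    obtain ⟨hS', hqp', hq9', hyq', hX'⟩ := key S' q' (mem_coe.1 ht')
    obtain ⟨h1, h2⟩ := mem_M1 hS
    obtain ⟨h1', h2'⟩ := mem_M1 hS'
    simp only at he
    have hm0' : 0 < ∏ p ∈ S', p := Finset.prod_pos fun p hp => (h1' p hp).1.pos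
    have hqq : q = q' := by
      have h3 : q ∣ q' * ∏ p ∈ S', p := by rw [← he]; exact dvd_mul_right _ _
      rcases (Nat.Prime.dvd_mul hqp).1 h3 with h | h
      · exact (Nat.prime_dvd_prime_iff_eq hqp hqp').1 h
      · have := Nat.le_of_dvd hm0' h
        omega
    subst hqq
    have hmm : ∏ p ∈ S, p = ∏ p ∈ S', p := Nat.eq_of_mul_eq_mul_left hqp.pos he
    have hSS : S = S' := by
      have e1 := Nat.primeFactors_prod fun p hp => (h1 p hp).1
      have e2 := Nat.primeFactors_prod fun p hp => (h1' p hp).1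
      rw [← e1, ← e2, hmm]
    subst hSS
    rfl

/-- **The lower bound.** -/
theorem low_D : ∃ (c : ℝ) (X₀ : ℕ), 0 < c ∧ ∀ X : ℕ, X₀ ≤ X →
    c * X * (Real.log X) ^ (-(1 / 2) : ℝ) ≤ ((DS X).card : ℝ) := by
  obtain ⟨C, hC⟩ := Pool.Agent.Y87.CX.t_MER
  obtain ⟨c, Y₀, hc, hche⟩ := che1
  refine ⟨c / 2 * (3 / 8 * Real.exp (-C) / 2), (max 8 (Y₀ + 3)) ^ 4, by positivity, ?_⟩
  intro X hX
  set s := Nat.sqrt X with hs
  set y := s / 2 with hy
  have hM : 8 ≤ max 8 (Y₀ + 3) := le_max_left _ _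
  have hsM : (max 8 (Y₀ + 3)) ^ 2 ≤ s := by
    rw [hs]
    have h1 : Nat.sqrt (((max 8 (Y₀ + 3)) ^ 2) ^ 2) ≤ Nat.sqrt X := Nat.sqrt_le_sqrt (by
      rw [← pow_mul]
      exact hX)
    rwa [Nat.sqrt_eq'] at h1
  have hsM' : 8 * max 8 (Y₀ + 3) ≤ s := by
    refine le_trans ?_ hsM
    rw [pow_two]
    exact Nat.mul_le_mul_right _ hM
  have hs1 : Y₀ + 3 ≤ max 8 (Y₀ + 3) := le_max_right _ _
  have hy3 : 32 ≤ y := by omega
  have hyY : Y₀ + 3 ≤ y := by omega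
  have hsX : s * s ≤ X := Nat.sqrt_le X
  have hXs : X < (s + 1) * (s + 1) := Nat.lt_succ_sqrt X
  have hyX : 2 * y * y ≤ X := by
    refine le_trans ?_ hsX
    have h1 : 2 * y ≤ s := by omega
    exact Nat.mul_le_mul h1 (by omega)
  have hX4 : X ≤ y ^ 4 := by
    have h1 : s + 1 ≤ y * y := by
      have : s + 1 ≤ 2 * y + 2 := by omega
      nlinarith
    have : (s + 1) * (s + 1) ≤ y ^ 4 := by
      calc (s + 1) * (s + 1) ≤ (y * y) * (y * y) := Nat.mul_le_mul h1 h1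
        _ = y ^ 4 := by ring
    omega
  have hyX1 : y ≤ X := by nlinarith
  have hy1 : (1 : ℝ) < y := by exact_mod_cast (show 1 < y by omega)
  have hX1 : (1 : ℝ) < X := by exact_mod_cast (show 1 < X by omega)
  have hlogy : 0 < Real.log y := Real.log_pos hy1
  have hlogX : 0 < Real.log X := Real.log_pos hX1
  have hlog4 : Real.log X ≤ 4 * Real.log y := by
    have : Real.log X ≤ Real.log ((y : ℝ) ^ 4) := by
      apply Real.log_le_log (by linarith)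
      exact_mod_cast hX4
    rwa [Real.log_pow] at this
  -- the sum
  have hsum : ∑ S ∈ M1 y, c / 2 * (X / Real.log X) * ((1 : ℝ) / ((∏ p ∈ S, p : ℕ) : ℝ)) ≤
      ((DP X y).card : ℝ) := by
    rw [DP, Finset.card_sigma, Nat.cast_sum]
    refine Finset.sum_le_sum fun S hS => ?_
    obtain ⟨h1, h2⟩ := mem_M1 hS
    set m := ∏ p ∈ S, p with hm
    have hm0 : 0 < m := Finset.prod_pos fun p hp => (h1 p hp).1.pos
    have hYy : y ≤ X / m := by
      rw [Nat.le_div_iff_mul_le hm0]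
      have h3 := Nat.mul_le_mul_left y h2
      have h4 : y * y ≤ 2 * y * y := by nlinarith
      omega
    have h3 := hche (X / m) (by omega)
    refine le_trans ?_ h3
    have hYX : X / m ≤ X := Nat.div_le_self _ _
    have hY1 : (1 : ℝ) < ((X / m : ℕ) : ℝ) := by exact_mod_cast (show 1 < X / m by omega)
    have hlY : 0 < Real.log ((X / m : ℕ) : ℝ) := Real.log_pos hY1
    have hlYX : Real.log ((X / m : ℕ) : ℝ) ≤ Real.log X :=
      Real.log_le_log (by linarith) (by exact_mod_cast hYX)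
    have hhalf : (X : ℝ) / (2 * m) ≤ ((X / m : ℕ) : ℝ) := by
      have h4 : X < m * (X / m) + m := by
        have := Nat.div_add_mod X m
        have := Nat.mod_lt X hm0
        omega
      have h5 : (X : ℝ) < m * ((X / m : ℕ) : ℝ) + m := by exact_mod_cast h4
      have hm' : (0 : ℝ) < m := by exact_mod_cast hm0
      rw [div_le_iff₀ (by positivity)]
      nlinarith
    calc c / 2 * (X / Real.log X) * ((1 : ℝ) / (m : ℝ)) = c * ((X : ℝ) / (2 * m)) / Real.log X := by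
          have hm' : (m : ℝ) ≠ 0 := by exact_mod_cast hm0.ne'
          field_simp
      _ ≤ c * ((X / m : ℕ) : ℝ) / Real.log X := by
          apply div_le_div_of_nonneg_right _ hlogX.le
          exact mul_le_mul_of_nonneg_left hhalf hc.le
      _ ≤ c * ((X / m : ℕ) : ℝ) / Real.log ((X / m : ℕ) : ℝ) := by
          apply div_le_div_of_nonneg_left (by positivity) hlY hlYX
  rw [← Finset.mul_sum] at hsum
  have hG := G1_lower C y (by omega) (by
    refine le_trans (le_of_eq ?_) (hC y (by omega))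
    refine Finset.sum_congr ?_ fun _ _ => rfl
    ext p
    simp only [mem_filter])
  have hcard : ((DP X y).card : ℝ) ≤ ((DS X).card : ℝ) := by
    exact_mod_cast card_DP_le X y hyX
  refine le_trans ?_ (hsum.trans hcard)
  have h6 : 0 ≤ c / 2 * (X / Real.log X) := by positivity
  refine le_trans ?_ (mul_le_mul_of_nonneg_left hG h6)
  -- the square root of the logarithm
  have h7 : (Real.log X) ^ (1 / 2 : ℝ) ≤ 2 * (Real.log y) ^ (1 / 2 : ℝ) := by
    have h8 : (Real.log X) ^ (1 / 2 : ℝ) ≤ (4 * Real.log y) ^ (1 / 2 : ℝ) :=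
      Real.rpow_le_rpow hlogX.le hlog4 (by norm_num)
    rw [Real.mul_rpow (by norm_num) hlogy.le] at h8
    have h9 : (4 : ℝ) ^ (1 / 2 : ℝ) = 2 := by
      rw [show (4 : ℝ) = 2 ^ (2 : ℝ) by norm_num, ← Real.rpow_mul (by norm_num)]
      norm_num
    rwa [h9] at h8
  have h10 : (Real.log X) ^ (-(1 / 2) : ℝ) = (Real.log X) ^ (1 / 2 : ℝ) / Real.log X := by
    rw [eq_div_iff hlogX.ne']
    nth_rewrite 2 [← Real.rpow_one (Real.log X)]
    rw [← Real.rpow_add hlogX]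
    norm_num
  rw [h10]
  have hee : 0 < Real.exp (-C) := Real.exp_pos _
  calc c / 2 * (3 / 8 * Real.exp (-C) / 2) * X * ((Real.log X) ^ (1 / 2 : ℝ) / Real.log X)
      = c / 2 * (X / Real.log X) * (3 / 8 * Real.exp (-C) / 2 * (Real.log X) ^ (1 / 2 : ℝ)) := by
        ring
    _ ≤ c / 2 * (X / Real.log X) *
        (3 / 8 * Real.exp (-C) / 2 * (2 * (Real.log y) ^ (1 / 2 : ℝ))) := by
        apply mul_le_mul_of_nonneg_left _ h6
        apply mul_le_mul_of_nonneg_left h7 (by positivity)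
    _ = c / 2 * (X / Real.log X) * (3 / 8 * Real.exp (-C) * (Real.log y) ^ (1 / 2 : ℝ)) := by ring

end Q283.ND
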