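import Pool.Agent.Q283.ND.As
import Pool.Agent.Q283.ND.Lw
import Pool.Agent.Q283.Q3.Cfq
import Pool.Agent.Q155.NL.Dia

/-! Almost all numbers `D` with all prime factors `≡ 1` modulo `3` -/

set_option autoImplicit false

open scoped Classical
open Finset Filter

namespace Q283.ND

open Q283.Q3N (fe fe_ne)
open Q283.Q3 (mod3')
open Pool.Agent.Y703.CX (SS Cl eL X_pos rpow_eL ev_eL)
open Pool.Agent.Y703.CT (Cls Base)
open Q155.NL (Alm cnt cs mem_cs)

/-- the class of the numbers `D` -/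
def Dc (D : ℕ) : Prop := Squarefree D ∧ ∀ p : ℕ, p.Prime → p ∣ D → p % 3 = 1

theorem DS_eq (X : ℕ) : (DS X).card = cnt Dc X := by
  unfold cnt
  congr 1
  ext D
  rw [mem_DS, mem_cs]
  unfold Dc
  constructor
  · rintro ⟨h1, h2⟩
    exact ⟨⟨Nat.pos_of_ne_zero h2.1.ne_zero, h1⟩, h2⟩
  · rintro ⟨⟨-, h1⟩, h2⟩
    exact ⟨h1, h2⟩

/-- the property of a number -/
def TD (k N B : ℕ) (ε : ℝ) (D : ℕ) : Prop := TS k N.primeFactors (fe N) B ε D.primeFactors

/-- the data of a base -/
theorem bd_of {N : ℕ} (hC : Cls N) : ∃ r, Bd N.primeFactors (fe N) r := by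
  obtain ⟨hb, h91, h98, q, hq, hq2, hqD, hqu⟩ := hC
  have hqN : q ∈ N.primeFactors := Nat.mem_primeFactors.2 ⟨hq, hqD, hb.1⟩
  refine ⟨q, ⟨fun u hu => ⟨Nat.prime_of_mem_primeFactors hu, ?_⟩, hqN, hq2, fun u hu hne =>
    hqu u (Nat.prime_of_mem_primeFactors hu) (Nat.dvd_of_mem_primeFactors hu) hne,
    (fe_ne hb).2 hqN, fun u hu => ?_⟩⟩
  · rintro rfl
    exact hb.2.1 (Nat.dvd_of_mem_primeFactors hu)
  · by_contra h
    exact hu ((fe_ne hb).1 h)

theorem prod_mod3 {D : ℕ} (hD : Dc D) : D % 3 = 1 := by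
  have h1 := Pool.Agent.Y461.CX.prod_mod_three D.primeFactors fun p hp =>
    hD.2 p (Nat.prime_of_mem_primeFactors hp) (Nat.dvd_of_mem_primeFactors hp)
  rwa [Nat.prod_primeFactors_of_squarefree hD.1] at h1

/-- the auxiliary prime is added -/
theorem ins_mem {D a X : ℕ} (hD : Dc D) (hDX : D ≤ X) (ha : a.Prime) (ha2 : a % 3 = 2)
    (h1 : a * D % 9 ≠ 1) (h8 : a * D % 9 ≠ 8) :
    insert a D.primeFactors ∈ SS (a * X) ∧ (insert a D.primeFactors).erase a = D.primeFactors := by
  have haD : a ∉ D.primeFactors := by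
    intro h
    have := hD.2 a ha (Nat.dvd_of_mem_primeFactors h)
    omega
  have hprod : ∏ p ∈ insert a D.primeFactors, p = a * D := by
    rw [prod_insert haD, Nat.prod_primeFactors_of_squarefree hD.1]
  refine ⟨?_, erase_insert haD⟩
  rw [Q283.Q3.mem_SS, hprod]
  refine ⟨⟨?_, ?_, by rw [hprod]; exact h1, by rw [hprod]; exact h8⟩, Nat.mul_le_mul_left _ hDX⟩
  · intro p hp
    rw [mem_insert] at hp
    rcases hp with rfl | hp
    · exact ⟨ha, by omega⟩
    · refine ⟨Nat.prime_of_mem_primeFactors hp, ?_⟩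
      rintro rfl
      have := hD.2 3 Nat.prime_three (Nat.dvd_of_mem_primeFactors hp)
      omega
  · rw [card_eq_one]
    refine ⟨a, ?_⟩
    ext p
    simp only [mem_filter, mem_insert, mem_singleton]
    constructor
    · rintro ⟨rfl | hp, h3⟩
      · rfl
      · have := hD.2 p (Nat.prime_of_mem_primeFactors hp) (Nat.dvd_of_mem_primeFactors hp)
        omega
    · rintro rfl
      exact ⟨Or.inl rfl, ha2⟩

/-- the sets with the auxiliary prime -/
theorem card_aux {a X : ℕ} (ha : a.Prime) (ha2 : a % 3 = 2) :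
    ((SS (a * X)).filter fun S => a ∈ S).card ≤ cnt Dc X := by
  unfold cnt
  refine card_le_card_of_injOn (fun S => ∏ p ∈ S.erase a, p) ?_ ?_
  · intro S hS
    rw [mem_coe, mem_filter, Q283.Q3.mem_SS] at hS
    obtain ⟨⟨hC, hX⟩, haS⟩ := hS
    have hp1 : ∀ p ∈ S.erase a, p.Prime ∧ p % 3 = 1 := by
      intro p hp
      rw [mem_erase] at hp
      obtain ⟨h1, h2⟩ := hC.1 p hp.2
      refine ⟨h1, ?_⟩
      rcases mod3' h1 h2 with h | h
      · exact h
      · exfalso
        obtain ⟨y, hy⟩ := card_eq_one.1 hC.2.1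
        have h3 : p ∈ S.filter fun p => p % 3 = 2 := mem_filter.2 ⟨hp.2, h⟩
        have h4 : a ∈ S.filter fun p => p % 3 = 2 := mem_filter.2 ⟨haS, ha2⟩
        rw [hy, mem_singleton] at h3 h4
        exact hp.1 (h3.trans h4.symm)
    rw [mem_coe, mem_cs]
    have hprod : a * ∏ p ∈ S.erase a, p = ∏ p ∈ S, p :=
      mul_prod_erase S (fun p => p) haS
    rw [← hprod] at hX
    have hle := Nat.le_of_mul_le_mul_left hX ha.pos
    have hpos : 0 < ∏ p ∈ S.erase a, p := prod_pos fun p hp => (hp1 p hp).1.pos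
    refine ⟨⟨hpos, hle⟩, ?_, ?_⟩
    · exact Finset.squarefree_prod_of_pairwise_isCoprime (fun x hx y hy hxy => by
        rw [Function.onFun, ← Nat.coprime_iff_isRelPrime]
        exact (Nat.coprime_primes (hp1 x hx).1 (hp1 y hy).1).2 hxy)
        fun x hx => (hp1 x hx).1.squarefree
    · intro p hp hd
      obtain ⟨u, hu, hpu⟩ := (hp.prime.dvd_finsetProd_iff _).1 hd
      rw [(Nat.prime_dvd_prime_iff_eq hp (hp1 u hu).1).1 hpu]
      exact (hp1 u hu).2
  · intro S hS T hT h
    rw [mem_coe, mem_filter, Q283.Q3.mem_SS] at hS hT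
    have e1 := Nat.primeFactors_prod (s := S.erase a) fun p hp => (hS.1.1.1 p (mem_erase.1 hp).2).1
    have e2 := Nat.primeFactors_prod (s := T.erase a) fun p hp => (hT.1.1.1 p (mem_erase.1 hp).2).1
    have e3 : S.erase a = T.erase a := by
      rw [← e1, ← e2]
      exact congrArg _ h
    rw [← insert_erase hS.2, ← insert_erase hT.2, e3]

/-- **Almost all numbers have the property.** -/
theorem alm_TD {k : ℕ} (hk : k < 9) {N : ℕ} (hC : Cls N) (B : ℕ) (ε : ℝ) (hε : 0 < ε) :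
    Alm Dc (TD k N B ε) := by
  obtain ⟨r, hb⟩ := bd_of hC
  obtain ⟨c, X₀, hc, hlow⟩ := low_D
  intro δ hδ
  obtain ⟨η, hη⟩ : ∃ η : ℝ, η = δ / (2 + 7 / c) := ⟨_, rfl⟩
  have hη0 : 0 < η := by rw [hη]; positivity
  have h2 := asy hk hb 2 (by norm_num) B ε hε η hη0
  have h5 := asy hk hb 5 (by norm_num) B ε hε η hη0
  have t2 : Tendsto (fun X : ℕ => 2 * X) atTop atTop := tendsto_id.const_mul_atTop' (by norm_num)
  have t5 : Tendsto (fun X : ℕ => 5 * X) atTop atTop := tendsto_id.const_mul_atTop' (by norm_num)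
  filter_upwards [t2.eventually h2, t5.eventually h5, ev_eL 1, eventually_ge_atTop X₀,
    eventually_ge_atTop 3] with X g2 g5 hl hX0 hX3
  have hl0 : 0 < eL X := by linarith
  have hXp : (0 : ℝ) < X := by exact_mod_cast (by omega : 0 < X)
  have hlo := hlow X hX0
  rw [rpow_eL hl0, DS_eq] at hlo
  have hlX : 0 < Real.log X := Real.log_pos (by exact_mod_cast (by omega : 1 < X))
  -- the error terms
  have herr : ∀ a : ℕ, 1 ≤ a → Real.exp (-(eL (a * X)) / 2) ≤ Real.exp (-(1 / 2) * eL X) := by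
    intro a ha
    apply Real.exp_le_exp.2
    have h1 : eL X ≤ eL (a * X) := by
      unfold eL
      refine Real.log_le_log hlX (Real.log_le_log hXp ?_)
      exact_mod_cast Nat.le_mul_of_pos_left X (by omega)
    linarith
  have hbound : ∀ a : ℕ, a.Prime → a % 3 = 2 →
      (((SS (a * X)).filter fun S => a ∈ S ∧
        ¬ TS k N.primeFactors (fe N) B ε (S.erase a)).card : ℝ) ≤
      η * (((SS (a * X)).filter fun S => a ∈ S).card : ℝ) +
        η * (((a * X : ℕ) : ℝ) * Real.exp (-(eL (a * X)) / 2)) →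
      (((SS (a * X)).filter fun S => a ∈ S ∧
        ¬ TS k N.primeFactors (fe N) B ε (S.erase a)).card : ℝ) ≤
      η * (cnt Dc X : ℝ) + η * (a / c) * (cnt Dc X : ℝ) := by
    intro a ha ha2 h
    have h1 : (((SS (a * X)).filter fun S => a ∈ S).card : ℝ) ≤ (cnt Dc X : ℝ) := by
      exact_mod_cast card_aux ha ha2
    have h3 := herr a ha.one_lt.le
    have h4 : (((a * X : ℕ) : ℝ) * Real.exp (-(eL (a * X)) / 2)) ≤ (a / c) * (cnt Dc X : ℝ) := by
      calc (((a * X : ℕ) : ℝ) * Real.exp (-(eL (a * X)) / 2)) ≤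
            ((a * X : ℕ) : ℝ) * Real.exp (-(1 / 2) * eL X) :=
            mul_le_mul_of_nonneg_left h3 (Nat.cast_nonneg _)
        _ = (a / c) * (c * X * Real.exp (-(1 / 2) * eL X)) := by
            push_cast
            field_simp
        _ ≤ _ := mul_le_mul_of_nonneg_left hlo (by positivity)
    have h6 := mul_le_mul_of_nonneg_left h1 hη0.le
    have h7 := mul_le_mul_of_nonneg_left h4 hη0.le
    linarith
  have b2 := hbound 2 Nat.prime_two (by norm_num) g2
  have b5 := hbound 5 Nat.prime_five (by norm_num) g5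
  -- the exceptional numbers
  have hcard : cnt (fun D => Dc D ∧ ¬ TD k N B ε D) X ≤
      ((SS (2 * X)).filter fun S => 2 ∈ S ∧
        ¬ TS k N.primeFactors (fe N) B ε (S.erase 2)).card +
      ((SS (5 * X)).filter fun S => 5 ∈ S ∧
        ¬ TS k N.primeFactors (fe N) B ε (S.erase 5)).card := by
    have hinj : ∀ a : ℕ, a.Prime → a % 3 = 2 → ((cs (fun D => Dc D ∧ ¬ TD k N B ε D) X).filter
        fun D => a * D % 9 ≠ 1 ∧ a * D % 9 ≠ 8).card ≤
        ((SS (a * X)).filter fun S => a ∈ S ∧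
        ¬ TS k N.primeFactors (fe N) B ε (S.erase a)).card := by
      intro a ha ha2
      refine card_le_card_of_injOn (fun D => insert a D.primeFactors) ?_ ?_
      · intro D hD
        rw [mem_coe, mem_filter, mem_cs] at hD
        obtain ⟨⟨⟨-, hX⟩, hDc, hT⟩, h1, h8⟩ := hD
        obtain ⟨k1, k2⟩ := ins_mem hDc hX ha ha2 h1 h8
        rw [mem_coe, mem_filter]
        refine ⟨k1, mem_insert_self _ _, ?_⟩
        rw [k2]
        exact hT
      · intro D hD D' hD' h
        rw [mem_coe, mem_filter, mem_cs] at hD hD'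
        obtain ⟨-, k2⟩ := ins_mem hD.1.2.1 hD.1.1.2 ha ha2 hD.2.1 hD.2.2
        obtain ⟨-, k2'⟩ := ins_mem hD'.1.2.1 hD'.1.1.2 ha ha2 hD'.2.1 hD'.2.2
        have e1 : D.primeFactors = D'.primeFactors := by
          rw [← k2, ← k2']
          exact congrArg (fun T : Finset ℕ => T.erase a) h
        rw [← Nat.prod_primeFactors_of_squarefree hD.1.2.1.1,
          ← Nat.prod_primeFactors_of_squarefree hD'.1.2.1.1, e1]
    refine le_trans ?_ (Nat.add_le_add (hinj 2 Nat.prime_two (by norm_num))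
      (hinj 5 Nat.prime_five (by norm_num)))
    refine le_trans (card_le_card ?_) (card_union_le _ _)
    intro D hD
    rw [mem_union, mem_filter, mem_filter]
    have hD3 := prod_mod3 (mem_cs.1 hD).2.1
    by_cases h4 : D % 9 = 4
    · right
      exact ⟨hD, by omega, by omega⟩
    · left
      exact ⟨hD, by omega, by omega⟩
  have hcard' : (cnt (fun D => Dc D ∧ ¬ TD k N B ε D) X : ℝ) ≤
      (((SS (2 * X)).filter fun S => 2 ∈ S ∧
        ¬ TS k N.primeFactors (fe N) B ε (S.erase 2)).card : ℝ) +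
      (((SS (5 * X)).filter fun S => 5 ∈ S ∧
        ¬ TS k N.primeFactors (fe N) B ε (S.erase 5)).card : ℝ) := by exact_mod_cast hcard
  have hfin : η * (cnt Dc X : ℝ) + η * (2 / c) * (cnt Dc X : ℝ) +
      (η * (cnt Dc X : ℝ) + η * (5 / c) * (cnt Dc X : ℝ)) = δ * (cnt Dc X : ℝ) := by
    rw [hη]
    field_simp
    ring
  push_cast at b2 b5
  linarith

end Q283.ND
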