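import Mathlib

/-! Systems with random rows over `ℤ/3`: the dimension and the fibres -/

set_option autoImplicit false
set_option linter.unusedSectionVars false

open scoped Classical

namespace Q283.ND

open Finset Module

/-! ### Fibres -/

/-- the fibres of a surjective homomorphism have the same size -/
theorem fib {A B : Type} [AddCommGroup A] [AddCommGroup B] [Finite A] [Finite B] (φ : A →+ B)
    (hφ : Function.Surjective φ) (Q : B → Prop) :
    Nat.card {a // Q (φ a)} * Nat.card B = Nat.card {b // Q b} * Nat.card A := by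
  obtain ⟨s, hs⟩ := hφ.hasRightInverse
  have key : ∀ Q : B → Prop, Nat.card {a // Q (φ a)} = Nat.card {b // Q b} * Nat.card φ.ker := by
    intro Q
    rw [← Nat.card_prod]
    refine Nat.card_congr
      { toFun := fun a => (⟨φ a.1, a.2⟩, ⟨a.1 - s (φ a.1), by
          rw [AddMonoidHom.mem_ker, map_sub, hs, sub_self]⟩)
        invFun := fun x => ⟨x.2.1 + s x.1.1, by
          have h := x.2.2
          rw [AddMonoidHom.mem_ker] at h
          rw [map_add, h, hs, zero_add]
          exact x.1.2⟩
        left_inv := fun a => Subtype.ext (by simp)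
        right_inv := fun x => by
          have h := x.2.2
          rw [AddMonoidHom.mem_ker] at h
          refine Prod.ext (Subtype.ext ?_) (Subtype.ext ?_)
          · simp [h, hs x.1.1]
          · simp [h, hs x.1.1] }
  have h1 := key Q
  have h2 := key fun _ => True
  have h3 : Nat.card {a : A // True} = Nat.card A := Nat.card_congr (Equiv.subtypeUnivEquiv fun _ => trivial)
  have h4 : Nat.card {b : B // True} = Nat.card B := Nat.card_congr (Equiv.subtypeUnivEquiv fun _ => trivial)
  rw [h3, h4] at h2
  rw [h1, h2]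
  ring

/-- the number of elements of a decidable set -/
theorem nc {A : Type} [Fintype A] (Q : A → Prop) : Nat.card {a // Q a} = (univ.filter Q).card := by
  rw [Nat.card_eq_fintype_card, Fintype.card_subtype]

theorem fibF {A B : Type} [AddCommGroup A] [AddCommGroup B] [Fintype A] [Fintype B] (φ : A →+ B)
    (hφ : Function.Surjective φ) (Q : B → Prop) :
    (univ.filter fun a => Q (φ a)).card * Fintype.card B = (univ.filter Q).card * Fintype.card A := by
  have h := fib φ hφ Q
  rw [nc, nc, Nat.card_eq_fintype_card, Nat.card_eq_fintype_card] at h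
  exact h

/-! ### Systems -/

section sys
variable {I : Type} [Fintype I]

/-- a row -/
def ro (f : I → ZMod 3) (L : I → I → ZMod 3) (i : I) (x : I → ZMod 3) : ZMod 3 :=
  ∑ j, f i * f j * L i j * (x j - x i)

theorem ro_add (f : I → ZMod 3) (L : I → I → ZMod 3) (i : I) (x y : I → ZMod 3) :
    ro f L i (x + y) = ro f L i x + ro f L i y := by
  unfold ro
  rw [← sum_add_distrib]
  exact sum_congr rfl fun j _ => by simp only [Pi.add_apply]; ring

theorem ro_smul (f : I → ZMod 3) (L : I → I → ZMod 3) (i : I) (a : ZMod 3) (x : I → ZMod 3) :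
    ro f L i (a • x) = a * ro f L i x := by
  unfold ro
  rw [mul_sum]
  exact sum_congr rfl fun j _ => by simp only [Pi.smul_apply, smul_eq_mul]; ring

theorem ro_zero (f : I → ZMod 3) (L : I → I → ZMod 3) (i : I) : ro f L i 0 = 0 := by
  unfold ro
  exact sum_eq_zero fun j _ => by simp

theorem ro_f {f : I → ZMod 3} (L : I → I → ZMod 3) {i : I} (x : I → ZMod 3) (h : f i = 0) :
    ro f L i x = 0 := by
  unfold ro
  exact sum_eq_zero fun j _ => by rw [h]; ring

theorem ro_congr {f : I → ZMod 3} {L L' : I → I → ZMod 3} {i : I} (x : I → ZMod 3)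
    (h : f i ≠ 0 → L i = L' i) : ro f L i x = ro f L' i x := by
  by_cases hi : f i = 0
  · rw [ro_f L x hi, ro_f L' x hi]
  · unfold ro
    rw [h hi]

/-- the solutions of the rows outside `C` -/
def Sy (f : I → ZMod 3) (ks : I) (C : Finset I) (L : I → I → ZMod 3) :
    Submodule (ZMod 3) (I → ZMod 3) where
  carrier := {x | (∀ i, f i = 0 → x i = 0) ∧ x ks = 0 ∧ ∀ i, i ≠ ks → i ∉ C → ro f L i x = 0}
  add_mem' := by
    rintro x y ⟨h1, h2, h3⟩ ⟨k1, k2, k3⟩
    refine ⟨fun i hi => by rw [Pi.add_apply, h1 i hi, k1 i hi, add_zero],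
      by rw [Pi.add_apply, h2, k2, add_zero], fun i hi hC => ?_⟩
    rw [ro_add, h3 i hi hC, k3 i hi hC, add_zero]
  zero_mem' := ⟨fun _ _ => rfl, rfl, fun i _ _ => ro_zero f L i⟩
  smul_mem' := by
    rintro a x ⟨h1, h2, h3⟩
    refine ⟨fun i hi => by rw [Pi.smul_apply, h1 i hi, smul_zero],
      by rw [Pi.smul_apply, h2, smul_zero], fun i hi hC => ?_⟩
    rw [ro_smul, h3 i hi hC, mul_zero]

theorem mem_Sy {f : I → ZMod 3} {ks : I} {C : Finset I} {L : I → I → ZMod 3} {x : I → ZMod 3} :
    x ∈ Sy f ks C L ↔ (∀ i, f i = 0 → x i = 0) ∧ x ks = 0 ∧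
      ∀ i, i ≠ ks → i ∉ C → ro f L i x = 0 := Iff.rfl

theorem Sy_congr {f : I → ZMod 3} {ks : I} {C : Finset I} {L L' : I → I → ZMod 3}
    (h : ∀ i, i ∉ C → f i ≠ 0 → L i = L' i) : Sy f ks C L = Sy f ks C L' := by
  ext x
  rw [mem_Sy, mem_Sy]
  refine and_congr_right fun _ => and_congr_right fun _ => forall_congr' fun i =>
    forall_congr' fun _ => forall_congr' fun hC => ?_
  rw [ro_congr x (h i hC)]

/-- the map of the rows outside `C` -/
noncomputable def Ph (f : I → ZMod 3) (ks : I) (C : Finset I) (L : I → I → ZMod 3) :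
    (I → ZMod 3) →ₗ[ZMod 3] ({i // i ∉ C} → ZMod 3) where
  toFun := fun x i => if f i = 0 ∨ (i : I) = ks then x i else ro f L i x
  map_add' := fun x y => by
    funext i
    show (if f i = 0 ∨ (i : I) = ks then (x + y) i else ro f L i (x + y)) =
      (if f i = 0 ∨ (i : I) = ks then x i else ro f L i x) +
      (if f i = 0 ∨ (i : I) = ks then y i else ro f L i y)
    split_ifs
    · rfl
    · exact ro_add f L i x y
  map_smul' := fun a x => by
    funext i
    show (if f i = 0 ∨ (i : I) = ks then (a • x) i else ro f L i (a • x)) =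
      a * (if f i = 0 ∨ (i : I) = ks then x i else ro f L i x)
    split_ifs
    · rfl
    · exact ro_smul f L i a x

theorem Ph_apply (f : I → ZMod 3) (ks : I) (C : Finset I) (L : I → I → ZMod 3) (x : I → ZMod 3)
    (i : {i // i ∉ C}) : Ph f ks C L x i = if f i = 0 ∨ (i : I) = ks then x i else ro f L i x := rfl

theorem ker_Ph {f : I → ZMod 3} {ks : I} {C : Finset I} {L : I → I → ZMod 3} (hks : ks ∉ C)
    (hC : ∀ i ∈ C, f i ≠ 0) : LinearMap.ker (Ph f ks C L) = Sy f ks C L := by
  ext x
  rw [LinearMap.mem_ker, mem_Sy]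
  constructor
  · intro h
    have h1 : ∀ i : {i // i ∉ C}, (if f i = 0 ∨ (i : I) = ks then x i else ro f L i x) = 0 :=
      fun i => congrFun h i
    refine ⟨fun i hi => ?_, ?_, fun i hi hiC => ?_⟩
    · have hiC : i ∉ C := fun h => hC i h hi
      have := h1 ⟨i, hiC⟩
      rwa [if_pos (Or.inl hi)] at this
    · have := h1 ⟨ks, hks⟩
      rwa [if_pos (Or.inr rfl)] at this
    · by_cases hf : f i = 0
      · exact ro_f L x hf
      · have := h1 ⟨i, hiC⟩
        rwa [if_neg (by tauto)] at this
  · rintro ⟨h1, h2, h3⟩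
    funext i
    rw [Ph_apply]
    split_ifs with h
    · rcases h with h | h
      · exact h1 i h
      · rw [h]; exact h2
    · exact h3 i (fun h' => h (Or.inr h')) i.2

theorem card_nin (C : Finset I) : Fintype.card {i // i ∉ C} + C.card = Fintype.card I := by
  rw [Fintype.card_subtype]
  have h := Finset.card_filter_add_card_filter_not (s := (univ : Finset I)) (fun i => i ∈ C)
  have e : (univ.filter fun i => i ∈ C) = C := by ext; simp
  rw [e, card_univ] at h
  omega

/-- the dimension is at least the number of the missing rows -/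
theorem le_Sy {f : I → ZMod 3} {ks : I} {C : Finset I} {L : I → I → ZMod 3} (hks : ks ∉ C)
    (hC : ∀ i ∈ C, f i ≠ 0) : C.card ≤ finrank (ZMod 3) (Sy f ks C L) := by
  have h1 := LinearMap.finrank_range_add_finrank_ker (Ph f ks C L)
  have h2 := Submodule.finrank_le (LinearMap.range (Ph f ks C L))
  rw [finrank_fintype_fun_eq_card] at h1 h2
  rw [ker_Ph hks hC] at h1
  have h3 := card_nin C
  omega

/-- separated columns: all rows outside `A` are independent -/
theorem eq_Sy {f : I → ZMod 3} {ks : I} {A : Finset I} {L : I → I → ZMod 3} (hks : ks ∉ A)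
    (hA : ∀ i ∈ A, f i ≠ 0)
    (hv : ∀ v : I → ZMod 3, (∀ i, (i ∈ A ∨ i = ks ∨ f i = 0) → v i = 0) → v ≠ 0 →
      ∃ j ∈ A, ∑ u, v u * L u j ≠ 0) : finrank (ZMod 3) (Sy f ks A L) = A.card := by
  have hs : LinearMap.range (Ph f ks A L) = ⊤ := by
    by_contra hne
    obtain ⟨φ, hφ, hle⟩ := Submodule.exists_le_ker_of_lt_top _ (lt_top_iff_ne_top.2 hne)
    obtain ⟨c, hc⟩ : ∃ c : {i // i ∉ A} → ZMod 3, c = fun i => φ (Pi.single i 1) := ⟨_, rfl⟩
    have hφc : ∀ y : {i // i ∉ A} → ZMod 3, φ y = ∑ i, c i * y i := by
      intro y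
      rw [hc, LinearMap.pi_apply_eq_sum_univ φ y]
      refine sum_congr rfl fun i _ => ?_
      rw [smul_eq_mul, mul_comm]
      congr 2
      funext j
      rw [Pi.single_apply]
      by_cases h : i = j
      · rw [if_pos h, if_pos h.symm]
      · rw [if_neg h, if_neg (Ne.symm h)]
    have h0 : ∀ x : I → ZMod 3, ∑ i, c i * Ph f ks A L x i = 0 := by
      intro x
      rw [← hφc]
      exact hle ⟨x, rfl⟩
    -- the genuine rows
    have h1 : ∀ i : {i // i ∉ A}, ¬ (f i = 0 ∨ (i : I) = ks) → c i = 0 := by
      by_contra hex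
      push Not at hex
      obtain ⟨i₀, ⟨hi1, hi2⟩, hi3⟩ := hex
      obtain ⟨v, hvd⟩ : ∃ v : I → ZMod 3, v = fun u => if h : u ∉ A then
        (if f u = 0 ∨ u = ks then 0 else c ⟨u, h⟩ * f u) else 0 := ⟨_, rfl⟩
      obtain ⟨j, hj, hjne⟩ := hv v (by
        intro i hi
        rw [hvd]
        simp only
        by_cases g1 : i ∉ A
        · rw [dif_pos g1, if_pos]
          rcases hi with hi | hi | hi
          · exact absurd hi g1
          · exact Or.inr hi
          · exact Or.inl hi
        · rw [dif_neg g1]) (by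
        intro h
        have h2 := congrFun h i₀.1
        rw [hvd] at h2
        simp only [dif_pos i₀.2, Pi.zero_apply] at h2
        rw [if_neg (by tauto)] at h2
        exact hi3 ((mul_eq_zero.1 h2).resolve_right hi1))
      apply hjne
      have h2 := h0 (Pi.single j 1)
      have hfj := hA j hj
      have h3 : ∑ i, c i * Ph f ks A L (Pi.single j 1) i = f j * ∑ u, v u * L u j := by
        rw [mul_sum]
        have e1 : ∑ u, f j * (v u * L u j) = ∑ u : {i // i ∉ A}, f j * (v u * L u j) := by
          have e2 : ∑ u ∈ univ.filter (fun u : I => u ∉ A), f j * (v u * L u j) =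
              ∑ u : {i // i ∉ A}, f j * (v u * L u j) :=
            Finset.sum_subtype _ (by simp) (fun u => f j * (v u * L u j))
          rw [← e2]
          symm
          refine Finset.sum_subset (filter_subset _ _) fun u _ hu => ?_
          have hu' : u ∈ A := by
            by_contra h
            exact hu (mem_filter.2 ⟨mem_univ _, h⟩)
          rw [hvd]
          simp only
          rw [dif_neg (not_not.2 hu')]
          ring
        rw [e1]
        refine sum_congr rfl fun i _ => ?_
        have hij : j ≠ i := fun h => i.2 (h ▸ hj)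
        rw [Ph_apply, hvd]
        simp only
        rw [dif_pos i.2]
        by_cases hi : f i = 0 ∨ (i : I) = ks
        · rw [if_pos hi, if_pos hi, Pi.single_eq_of_ne hij.symm]
          ring
        · rw [if_neg hi, if_neg hi]
          unfold ro
          rw [Finset.sum_eq_single j]
          · rw [Pi.single_eq_same, Pi.single_eq_of_ne hij.symm]
            ring
          · intro k _ hk
            rw [Pi.single_eq_of_ne hk, Pi.single_eq_of_ne hij.symm]
            ring
          · intro h
            exact absurd (mem_univ _) h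
      rw [h3] at h2
      exact (mul_eq_zero.1 h2).resolve_left hfj
    -- the other rows
    apply hφ
    refine LinearMap.ext fun y => ?_
    rw [hφc, LinearMap.zero_apply]
    refine sum_eq_zero fun i _ => ?_
    by_cases hi : f i = 0 ∨ (i : I) = ks
    · have h2 := h0 (Pi.single i.1 1)
      rw [Finset.sum_eq_single i] at h2
      · rw [Ph_apply, if_pos hi, Pi.single_eq_same, mul_one] at h2
        rw [h2, zero_mul]
      · intro k _ hk
        by_cases hk' : f k = 0 ∨ (k : I) = ks
        · rw [Ph_apply, if_pos hk', Pi.single_eq_of_ne (fun h => hk (Subtype.ext h)), mul_zero]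
        · rw [h1 k hk', zero_mul]
      · intro h
        exact absurd (mem_univ _) h
    · rw [h1 i hi, zero_mul]
  have h1 := LinearMap.finrank_range_add_finrank_ker (Ph f ks A L)
  rw [hs, finrank_top, finrank_fintype_fun_eq_card, finrank_fintype_fun_eq_card,
    ker_Ph hks hA] at h1
  have h3 := card_nin A
  omega

end sys

end Q283.ND
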