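import Pool.Agent.Q283.ND.Lc

/-! Random exponents: the number of the degenerate ones -/

set_option autoImplicit false
set_option linter.unusedSectionVars false

open scoped Classical

namespace Q283.ND

open Finset Module
open Q283.Q3 (cq cq_ge cq_le)

section ex
variable {I : Type} [Fintype I]

/-- a sum of products over all functions -/
theorem sum_prodF (ψ : I → ZMod 3 → ℝ) : ∑ e : I → ZMod 3, ∏ i, ψ i (e i) = ∏ i, ∑ x, ψ i x := by
  rw [Finset.prod_univ_sum, Fintype.piFinset_univ]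

/-- a sum of products over all pairs of functions, the factors outside `K` are `1` -/
theorem sum_pairs (K : Finset I) (ψ : ZMod 3 → ZMod 3 → ℝ) :
    ∑ e : I → ZMod 3, ∑ e' : I → ZMod 3, ∏ i ∈ K, ψ (e i) (e' i) =
      (Fintype.card (I → ZMod 3) : ℝ) ^ 2 * ((∑ x, ∑ y, ψ x y) / 9) ^ K.card := by
  have h1 : ∀ e : I → ZMod 3, ∑ e' : I → ZMod 3, ∏ i ∈ K, ψ (e i) (e' i) =
      ∏ i, if i ∈ K then ∑ y, ψ (e i) y else 3 := by
    intro e
    have h2 := sum_prodF (fun i y => if i ∈ K then ψ (e i) y else 1)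
    have h3 : ∀ e' : I → ZMod 3, (∏ i ∈ K, ψ (e i) (e' i)) =
        ∏ i, (if i ∈ K then ψ (e i) (e' i) else 1) := by
      intro e'
      rw [Finset.prod_ite_mem, Finset.univ_inter]
    rw [sum_congr rfl fun e' _ => h3 e', h2]
    refine prod_congr rfl fun i _ => ?_
    split_ifs
    · rfl
    · rw [sum_const, card_univ, ZMod.card, nsmul_eq_mul]
      norm_num
  rw [sum_congr rfl fun e _ => h1 e]
  have h2 := sum_prodF (fun i x => if i ∈ K then ∑ y, ψ x y else (3 : ℝ))
  rw [h2]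
  have h3 : ∀ i, (∑ x, if i ∈ K then ∑ y, ψ x y else (3 : ℝ)) =
      9 * if i ∈ K then (∑ x, ∑ y, ψ x y) / 9 else 1 := by
    intro i
    split_ifs
    · ring
    · rw [sum_const, card_univ, ZMod.card, nsmul_eq_mul]
      norm_num
  rw [prod_congr rfl fun i _ => h3 i, prod_mul_distrib, prod_const, card_univ,
    Finset.prod_ite_mem, Finset.univ_inter, prod_const, Fintype.card_fun, ZMod.card]
  push_cast
  rw [← pow_mul, mul_comm (Fintype.card I) 2, pow_mul]
  norm_num

/-- the single version -/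
theorem sum_single (K : Finset I) (ψ : ZMod 3 → ℝ) :
    ∑ e : I → ZMod 3, ∏ i ∈ K, ψ (e i) =
      (Fintype.card (I → ZMod 3) : ℝ) * ((∑ x, ψ x) / 3) ^ K.card := by
  have h2 := sum_prodF (fun i y => if i ∈ K then ψ y else 1)
  have h3 : ∀ e' : I → ZMod 3, (∏ i ∈ K, ψ (e' i)) =
      ∏ i, (if i ∈ K then ψ (e' i) else 1) := by
    intro e'
    rw [Finset.prod_ite_mem, Finset.univ_inter]
  rw [sum_congr rfl fun e' _ => h3 e', h2]
  have h4 : ∀ i, (∑ x, if i ∈ K then ψ x else (1 : ℝ)) =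
      3 * if i ∈ K then (∑ x, ψ x) / 3 else 1 := by
    intro i
    split_ifs
    · ring
    · rw [sum_const, card_univ, ZMod.card, nsmul_eq_mul]
      norm_num
  rw [prod_congr rfl fun i _ => h4 i, prod_mul_distrib, prod_const, card_univ,
    Finset.prod_ite_mem, Finset.univ_inter, prod_const, Fintype.card_fun, ZMod.card]
  push_cast
  rfl

/-- no index of `K` in the common support -/
noncomputable def ps2 (x y : ZMod 3) : ℝ := if x ≠ 0 ∧ y ≠ 0 then 0 else 1

noncomputable def ps1 (x : ZMod 3) : ℝ := if x ≠ 0 then 0 else 1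

noncomputable def ps3 (x y : ZMod 3) : ℝ := if x ≠ 0 ∧ y = 0 then 1 / 2 else 1

theorem ps2_nonneg (x y : ZMod 3) : 0 ≤ ps2 x y := by
  unfold ps2
  split_ifs <;> norm_num

theorem ps1_nonneg (x : ZMod 3) : 0 ≤ ps1 x := by
  unfold ps1
  split_ifs <;> norm_num

theorem u3 (g : ZMod 3 → ℝ) : ∑ x, g x = g 0 + g 1 + g 2 := by
  have h : (univ : Finset (ZMod 3)) = {0, 1, 2} := by decide
  rw [h, sum_insert (by decide), sum_insert (by decide), sum_singleton]
  ring

theorem sum_ps1 : ∑ x, ps1 x = 1 := by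
  rw [u3]
  unfold ps1
  rw [if_neg (by decide), if_pos (by decide), if_pos (by decide)]
  norm_num

theorem sum_ps2 : ∑ x, ∑ y, ps2 x y = 5 := by
  rw [u3, u3, u3, u3]
  unfold ps2
  rw [if_neg (by decide), if_neg (by decide), if_neg (by decide), if_neg (by decide),
    if_pos (by decide), if_pos (by decide), if_neg (by decide), if_pos (by decide),
    if_pos (by decide)]
  norm_num

theorem sum_ps3 : ∑ x, ∑ y, ps3 x y = 8 := by
  rw [u3, u3, u3, u3]
  unfold ps3
  rw [if_neg (by decide), if_neg (by decide), if_neg (by decide), if_pos (by decide),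
    if_neg (by decide), if_neg (by decide), if_pos (by decide), if_neg (by decide),
    if_neg (by decide)]
  norm_num

variable {J : Finset I}

/-- the functions that vanish on `J` -/
noncomputable def off (J : Finset I) : Finset (I → ZMod 3) := univ.filter fun w => ∀ i ∈ J, w i = 0

theorem mem_off {w : I → ZMod 3} : w ∈ off J ↔ ∀ i ∈ J, w i = 0 := by
  unfold off
  rw [mem_filter]
  exact ⟨fun h => h.2, fun h => ⟨mem_univ _, h⟩⟩

theorem card_off : (off J).card = 3 ^ Jᶜ.card := by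
  have h1 : off J = Fintype.piFinset fun i => if i ∈ Jᶜ then univ else {0} := by
    ext w
    rw [mem_off, Fintype.mem_piFinset]
    constructor
    · intro h i
      split_ifs with hi
      · exact mem_univ _
      · rw [mem_compl, not_not] at hi
        rw [mem_singleton]
        exact h i hi
    · intro h i hi
      have h2 := h i
      rw [if_neg (by rw [mem_compl, not_not]; exact hi), mem_singleton] at h2
      exact h2
  rw [h1, Fintype.card_piFinset]
  have h2 : ∀ i, (if i ∈ Jᶜ then (univ : Finset (ZMod 3)) else {0}).card =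
      if i ∈ Jᶜ then 3 else 1 := by
    intro i
    split_ifs
    · rw [card_univ, ZMod.card]
    · rw [card_singleton]
  rw [prod_congr rfl fun i _ => h2 i, Finset.prod_ite_mem, Finset.univ_inter, prod_const]

/-- **The degenerate pairs are few.** -/
theorem pairs_few (Ok : (I → ZMod 3) → Prop) (T : (I → ZMod 3) → I → Prop) (R : ℕ)
    (hT : ∀ w ∈ off J, Ok w → 2 * Jᶜ.card + R ≤ (J.filter fun i => T w i).card)
    (B : (I → ZMod 3) → (I → ZMod 3) → Prop)
    (hB : ∀ e e', B e e' → ∃ w ∈ off J, Ok w ∧ ∀ i ∈ J, T w i → ¬ (e i ≠ 0 ∧ e' i ≠ 0)) :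
    ∑ e : I → ZMod 3, ∑ e' : I → ZMod 3, (if B e e' then (1 : ℝ) else 0) ≤
      (Fintype.card (I → ZMod 3) : ℝ) ^ 2 * (5 / 9) ^ R := by
  obtain ⟨u, hu⟩ : ∃ u, u = Jᶜ.card := ⟨_, rfl⟩
  have h1 : ∀ e e' : I → ZMod 3, (if B e e' then (1 : ℝ) else 0) ≤
      ∑ w ∈ (off J).filter Ok, ∏ i ∈ J.filter (fun i => T w i), ps2 (e i) (e' i) := by
    intro e e'
    split_ifs with h
    · obtain ⟨w, hw, hw0, h2⟩ := hB e e' h
      have h3 : ∏ i ∈ J.filter (fun i => T w i), ps2 (e i) (e' i) = 1 := by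
        refine prod_eq_one fun i hi => ?_
        rw [mem_filter] at hi
        unfold ps2
        rw [if_neg (h2 i hi.1 hi.2)]
      rw [← h3]
      exact single_le_sum (f := fun w => ∏ i ∈ J.filter (fun i => T w i), ps2 (e i) (e' i))
        (fun w _ => prod_nonneg fun i _ => ps2_nonneg _ _) (mem_filter.2 ⟨hw, hw0⟩)
    · exact sum_nonneg fun w _ => prod_nonneg fun i _ => ps2_nonneg _ _
  refine (sum_le_sum fun e _ => sum_le_sum fun e' _ => h1 e e').trans ?_
  have h2 : ∑ e : I → ZMod 3, ∑ e' : I → ZMod 3, ∑ w ∈ (off J).filter Ok,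
      ∏ i ∈ J.filter (fun i => T w i), ps2 (e i) (e' i) =
      ∑ w ∈ (off J).filter Ok, ∑ e : I → ZMod 3, ∑ e' : I → ZMod 3,
      ∏ i ∈ J.filter (fun i => T w i), ps2 (e i) (e' i) := by
    rw [sum_congr rfl fun e _ => sum_comm]
    exact sum_comm
  rw [h2]
  have h3 : ∀ w ∈ (off J).filter Ok, ∑ e : I → ZMod 3, ∑ e' : I → ZMod 3,
      ∏ i ∈ J.filter (fun i => T w i), ps2 (e i) (e' i) ≤
      (Fintype.card (I → ZMod 3) : ℝ) ^ 2 * (5 / 9) ^ (2 * u + R) := by
    intro w hw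
    rw [mem_filter] at hw
    rw [sum_pairs, sum_ps2]
    refine mul_le_mul_of_nonneg_left ?_ (by positivity)
    refine pow_le_pow_of_le_one (by norm_num) (by norm_num) ?_
    rw [hu]
    exact hT w hw.1 hw.2
  refine (sum_le_sum h3).trans ?_
  rw [sum_const, nsmul_eq_mul]
  have h4 : (((off J).filter Ok).card : ℝ) ≤ 3 ^ u := by
    have h5 := card_filter_le (off J) Ok
    rw [card_off, ← hu] at h5
    exact_mod_cast h5
  have h5 : (3 : ℝ) ^ u * (5 / 9) ^ (2 * u + R) ≤ (5 / 9) ^ R := by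
    rw [pow_add, pow_mul, ← mul_assoc, ← mul_pow]
    refine mul_le_of_le_one_left (by positivity) (pow_le_one₀ (by norm_num) (by norm_num))
  calc (((off J).filter Ok).card : ℝ) *
        ((Fintype.card (I → ZMod 3) : ℝ) ^ 2 * (5 / 9) ^ (2 * u + R))
      ≤ 3 ^ u * ((Fintype.card (I → ZMod 3) : ℝ) ^ 2 * (5 / 9) ^ (2 * u + R)) :=
        mul_le_mul_of_nonneg_right h4 (by positivity)
    _ = (Fintype.card (I → ZMod 3) : ℝ) ^ 2 * (3 ^ u * (5 / 9) ^ (2 * u + R)) := by ring
    _ ≤ _ := mul_le_mul_of_nonneg_left h5 (by positivity)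

/-- the degenerate exponents are few -/
theorem single_few (Ok : (I → ZMod 3) → Prop) (T : (I → ZMod 3) → I → Prop) (R : ℕ)
    (hT : ∀ w ∈ off J, Ok w → 2 * Jᶜ.card + R ≤ (J.filter fun i => T w i).card)
    (B : (I → ZMod 3) → Prop)
    (hB : ∀ e, B e → ∃ w ∈ off J, Ok w ∧ ∀ i ∈ J, T w i → ¬ e i ≠ 0) :
    (3 : ℝ) ^ Jᶜ.card * ∑ e : I → ZMod 3, (if B e then (1 : ℝ) else 0) ≤
      (Fintype.card (I → ZMod 3) : ℝ) * (1 / 3) ^ R := by
  obtain ⟨u, hu⟩ : ∃ u, u = Jᶜ.card := ⟨_, rfl⟩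
  rw [← hu]
  have h1 : ∀ e : I → ZMod 3, (if B e then (1 : ℝ) else 0) ≤
      ∑ w ∈ (off J).filter Ok, ∏ i ∈ J.filter (fun i => T w i), ps1 (e i) := by
    intro e
    split_ifs with h
    · obtain ⟨w, hw, hw0, h2⟩ := hB e h
      have h3 : ∏ i ∈ J.filter (fun i => T w i), ps1 (e i) = 1 := by
        refine prod_eq_one fun i hi => ?_
        rw [mem_filter] at hi
        unfold ps1
        rw [if_neg (h2 i hi.1 hi.2)]
      rw [← h3]
      exact single_le_sum (f := fun w => ∏ i ∈ J.filter (fun i => T w i), ps1 (e i))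
        (fun w _ => prod_nonneg fun i _ => ps1_nonneg _) (mem_filter.2 ⟨hw, hw0⟩)
    · exact sum_nonneg fun w _ => prod_nonneg fun i _ => ps1_nonneg _
  have h3 : ∀ w ∈ (off J).filter Ok, ∑ e : I → ZMod 3,
      ∏ i ∈ J.filter (fun i => T w i), ps1 (e i) ≤
      (Fintype.card (I → ZMod 3) : ℝ) * (1 / 3) ^ (2 * u + R) := by
    intro w hw
    rw [mem_filter] at hw
    rw [sum_single, sum_ps1]
    refine mul_le_mul_of_nonneg_left ?_ (by positivity)
    refine pow_le_pow_of_le_one (by norm_num) (by norm_num) ?_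
    rw [hu]
    exact hT w hw.1 hw.2
  have h4 : (((off J).filter Ok).card : ℝ) ≤ 3 ^ u := by
    have h5 := card_filter_le (off J) Ok
    rw [card_off, ← hu] at h5
    exact_mod_cast h5
  have h6 : ∑ e : I → ZMod 3, (if B e then (1 : ℝ) else 0) ≤
      3 ^ u * ((Fintype.card (I → ZMod 3) : ℝ) * (1 / 3) ^ (2 * u + R)) := by
    refine (sum_le_sum fun e _ => h1 e).trans ?_
    rw [sum_comm]
    refine (sum_le_sum h3).trans ?_
    rw [sum_const, nsmul_eq_mul]
    exact mul_le_mul_of_nonneg_right h4 (by positivity)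
  refine (mul_le_mul_of_nonneg_left h6 (by positivity)).trans (le_of_eq ?_)
  have h5 : (3 : ℝ) ^ u * (3 ^ u * (1 / 3) ^ (2 * u + R)) = (1 / 3) ^ R := by
    rw [pow_add, pow_mul, ← mul_assoc, ← mul_assoc, ← mul_pow, ← mul_pow]
    norm_num
  calc (3 : ℝ) ^ u * (3 ^ u * ((Fintype.card (I → ZMod 3) : ℝ) * (1 / 3) ^ (2 * u + R)))
      = (Fintype.card (I → ZMod 3) : ℝ) * (3 ^ u * (3 ^ u * (1 / 3) ^ (2 * u + R))) := by ring
    _ = _ := by rw [h5]

/-- the pairs with few different indices are few -/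
theorem diff_few (s₀ : ℕ) :
    ∑ e : I → ZMod 3, ∑ e' : I → ZMod 3,
      (if (J.filter fun i => e i ≠ 0 ∧ e' i = 0).card < s₀ then (1 : ℝ) else 0) ≤
      (Fintype.card (I → ZMod 3) : ℝ) ^ 2 * (2 ^ s₀ * (8 / 9) ^ J.card) := by
  have h1 : ∀ e e' : I → ZMod 3,
      (if (J.filter fun i => e i ≠ 0 ∧ e' i = 0).card < s₀ then (1 : ℝ) else 0) ≤
      2 ^ s₀ * ∏ i ∈ J, ps3 (e i) (e' i) := by
    intro e e'
    have h2 : ∏ i ∈ J, ps3 (e i) (e' i) =
        (1 / 2) ^ (J.filter fun i => e i ≠ 0 ∧ e' i = 0).card := by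
      unfold ps3
      rw [prod_ite, prod_const, prod_const_one, mul_one]
    rw [h2]
    split_ifs with h
    · have h3 : (1 / 2 : ℝ) ^ s₀ ≤ (1 / 2) ^ (J.filter fun i => e i ≠ 0 ∧ e' i = 0).card :=
        pow_le_pow_of_le_one (by norm_num) (by norm_num) h.le
      have h4 : (2 : ℝ) ^ s₀ * (1 / 2) ^ s₀ = 1 := by
        rw [← mul_pow]
        norm_num
      calc (1 : ℝ) = 2 ^ s₀ * (1 / 2) ^ s₀ := h4.symm
        _ ≤ _ := mul_le_mul_of_nonneg_left h3 (by positivity)
    · positivity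
  refine (sum_le_sum fun e _ => sum_le_sum fun e' _ => h1 e e').trans (le_of_eq ?_)
  simp_rw [← mul_sum]
  rw [sum_pairs, sum_ps3]
  ring

end ex

end Q283.ND
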