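import Pool.Agent.Q283.ND.Lp
import Pool.Agent.Q283.Q3.Lq2

/-! The law of the corank of a large square matrix -/

set_option autoImplicit false
set_option linter.unusedSectionVars false

open scoped Classical

namespace Q283.ND

open Finset Module
open Q283.Q3 (cq cq_ge cq_le cc c0 cc_ks cc_zero cc_zero' Lq mem_kerLq finrank_KSq t_LAQ)
open Q283.T3 (KS Sk mem_Sk_inl mem_Sk_inr dg)
open Pool.Agent.Y703.CX (prs)

theorem cb_le (s b : ℕ) : cb s b ≤ 1 := by
  unfold cb
  rw [div_le_one (by positivity)]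
  have : Finite (Module.Dual (ZMod 3) (Fin s → ZMod 3)) := Module.finite_of_finite (ZMod 3)
  have h1 : nm s b ≤ Nat.card (Fin s → Module.Dual (ZMod 3) (Fin s → ZMod 3)) :=
    Finite.card_subtype_le _
  have h2 : Nat.card (Fin s → Module.Dual (ZMod 3) (Fin s → ZMod 3)) = 3 ^ (s * s) := by
    rw [Nat.card_fun, Nat.card_eq_fintype_card (α := Fin s), Fintype.card_fin,
      Module.natCard_eq_pow_finrank (K := ZMod 3), Nat.card_zmod, Subspace.dual_finrank_eq,
      finrank_fintype_fun_eq_card, Fintype.card_fin, ← pow_mul]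
  rw [h2] at h1
  exact_mod_cast h1

/-- the mean of one indicator, without decidability -/
theorem single' {I : Type} [Fintype I] {J : Finset I} {f : I → ZMod 3} {ks : I}
    {G : I → I → ZMod 3} {C : Finset I} (hks : ks ∉ J) (hf : f ks ≠ 0)
    (hC : ∀ i ∈ C, i ∈ J ∧ f i ≠ 0)
    (hw : ∀ w : I → ZMod 3, (∀ i ∈ J, w i = 0) → w ≠ 0 →
      ∃ i, (i ∈ J ∧ f i ≠ 0) ∧ i ∉ C ∧ ∑ u, w u * G i u ≠ 0)
    (hv : ∀ v : I → ZMod 3, (∀ i ∈ J, v i = 0) → v ks = 0 → v ≠ 0 →
      ∃ j, (j ∈ J ∧ f j ≠ 0) ∧ ∑ u, v u * G u j ≠ 0) (b : ℕ) :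
    |(Nat.card {α : I → I → ZMod 3 // co f ks (mx J G α) = b} : ℝ) -
      Nat.card (I → I → ZMod 3) * cb C.card b| ≤
      Nat.card (I → I → ZMod 3) * (1 / 3) ^ C.card := by
  have h := single (J := J) (f := f) (ks := ks) (G := G) (C := C) hks hf
    (fun i hi => mem_sp.2 (hC i hi)) (fun w h1 h2 => by
      obtain ⟨i, g1, g2, g3⟩ := hw w h1 h2
      exact ⟨i, mem_sdiff.2 ⟨mem_sp.2 g1, g2⟩, g3⟩) (fun v h1 h2 h3 => by
      obtain ⟨i, g1, g2⟩ := hv v h1 h2 h3
      exact ⟨i, mem_sp.2 g1, g2⟩) b (cb_ge C.card b) (cb_le C.card b) rfl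
  rw [sum_sub_distrib, sum_one, sum_const, card_univ, nsmul_eq_mul] at h
  rw [nc, Nat.card_eq_fintype_card]
  refine le_trans (le_of_eq ?_) h
  congr 2
  exact congrArg Nat.cast fcc

theorem ncI {A : Type} {inst : Fintype A} {Q : A → Prop} {d : DecidablePred Q} :
    (@Finset.filter A Q d (@Finset.univ A inst)).card = Nat.card {a // Q a} := by
  rw [Nat.card_eq_fintype_card, Fintype.card_subtype]

theorem mem_prs {ι : Type} [Fintype ι] {J : Finset ι} {e : ι × ι} :
    e ∈ prs J ↔ e.1 ∈ J ∧ e.2 ≠ e.1 := by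
  unfold prs
  rw [mem_filter]
  exact ⟨fun h => h.2, fun h => ⟨mem_univ _, h⟩⟩

/-- the restriction to the ordered pairs -/
noncomputable def rp (n : ℕ) : ((Unit ⊕ Fin n) → (Unit ⊕ Fin n) → ZMod 3) →+
    (prs (univ : Finset (Fin n)) → ZMod 3) where
  toFun := fun α e => α (Sum.inr e.1.1) (Sum.inr e.1.2)
  map_zero' := rfl
  map_add' := fun _ _ => rfl

theorem rp_surj (n : ℕ) : Function.Surjective (rp n) := by
  intro g
  refine ⟨fun i j => match i, j with
    | Sum.inr k, Sum.inr l => if h : (k, l) ∈ prs (univ : Finset (Fin n)) then g ⟨(k, l), h⟩ else 0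
    | _, _ => 0, ?_⟩
  funext e
  show (if h : (e.1.1, e.1.2) ∈ prs (univ : Finset (Fin n)) then g ⟨(e.1.1, e.1.2), h⟩ else 0) = g e
  rw [dif_pos e.2]

/-- the fixed entries -/
def G1 (n : ℕ) : (Unit ⊕ Fin n) → (Unit ⊕ Fin n) → ZMod 3
  | Sum.inr _, Sum.inl _ => 1
  | _, _ => 0

/-- the random labels -/
noncomputable def J1 (n : ℕ) : Finset (Unit ⊕ Fin n) := univ.image Sum.inr

theorem mem_J1 {n : ℕ} {i : Unit ⊕ Fin n} : i ∈ J1 n ↔ ∃ k, i = Sum.inr k := by
  unfold J1
  rw [mem_image]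
  constructor
  · rintro ⟨k, -, rfl⟩
    exact ⟨k, rfl⟩
  · rintro ⟨k, rfl⟩
    exact ⟨k, mem_univ _, rfl⟩

theorem link (n : ℕ) (α : (Unit ⊕ Fin n) → (Unit ⊕ Fin n) → ZMod 3) :
    finrank (ZMod 3) (KS (cc (Sum.inl ()) (fun _ : Unit => 1) (fun _ _ => 0) (fun _ _ => 0)
      (fun _ _ => 1) (Pool.Agent.Y703.CX.ext (rp n α))) (Sk (Fin n) fun _ : Unit => (1 : ZMod 3))) =
      co (fun _ => 1) (Sum.inl ()) (mx (J1 n) (G1 n) α) + 1 := by
  rw [finrank_KSq (j₀ := Sum.inl ()) (fun i j h => cc_zero i j h) (fun i j h => cc_zero' i j h)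
    (mem_Sk_inl.2 one_ne_zero) cc_ks]
  unfold co
  have key : ∀ i : Unit ⊕ Fin n, i ≠ Sum.inl () → ∀ x : Unit ⊕ Fin n → ZMod 3,
      ∑ j, cc (Sum.inl ()) (fun _ : Unit => 1) (fun _ _ => 0) (fun _ _ => 0)
      (fun _ _ => 1) (Pool.Agent.Y703.CX.ext (rp n α)) i j * (x j - x i) =
      ro (fun _ => 1) (mx (J1 n) (G1 n) α) i x := by
    intro i hi x
    unfold ro
    refine sum_congr rfl fun j _ => ?_
    rcases i with i | k
    · exact absurd rfl hi
    rcases j with j | l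
    · unfold cc
      rw [if_neg hi]
      unfold mx
      rw [if_neg (by
        rintro ⟨-, h⟩
        obtain ⟨k', hk'⟩ := mem_J1.1 h
        exact absurd hk' (by simp))]
      simp only [c0, G1]
      ring
    · by_cases hkl : l = k
      · rw [hkl, sub_self, mul_zero, mul_zero]
      · unfold cc
        rw [if_neg hi]
        unfold mx
        rw [if_pos ⟨mem_J1.2 ⟨_, rfl⟩, mem_J1.2 ⟨_, rfl⟩⟩]
        have hm : (k, l) ∈ prs (univ : Finset (Fin n)) := mem_prs.2 ⟨mem_univ _, hkl⟩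
        have e : c0 (fun _ : Unit => (1 : ZMod 3)) (fun _ _ => 0) (fun _ _ => 0) (fun _ _ => 1)
            (Pool.Agent.Y703.CX.ext (rp n α)) (Sum.inr k) (Sum.inr l) =
            α (Sum.inr k) (Sum.inr l) := by
          show Pool.Agent.Y703.CX.ext (rp n α) k l = _
          unfold Pool.Agent.Y703.CX.ext
          rw [dif_pos hm]
          rfl
        rw [e]
        ring
  suffices h0 : LinearMap.ker (Lq (cc (Sum.inl ()) (fun _ : Unit => 1) (fun _ _ => 0)
      (fun _ _ => 0) (fun _ _ => 1) (Pool.Agent.Y703.CX.ext (rp n α)))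
      (dg (Sk (Fin n) fun _ : Unit => (1 : ZMod 3)) (Sum.inl ()))) =
      Sy (fun _ => 1) (Sum.inl ()) ∅ (mx (J1 n) (G1 n) α) by rw [h0]
  ext x
  rw [mem_kerLq, mem_Sy]
  constructor
  · intro h
    refine ⟨fun i hi => absurd hi one_ne_zero, ?_, fun i hi _ => ?_⟩
    · have h1 := h (Sum.inl ())
      rw [sum_eq_zero fun j _ => by rw [cc_ks, zero_mul], zero_add] at h1
      unfold dg at h1
      rw [if_pos (Or.inr rfl), one_mul] at h1
      exact h1
    · have h1 := h i
      rw [key i hi x] at h1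
      unfold dg at h1
      rw [if_neg, zero_mul, add_zero] at h1
      · exact h1
      · rintro (h2 | h2)
        · apply h2
          rcases i with i | i
          · exact mem_Sk_inl.2 one_ne_zero
          · exact mem_Sk_inr
        · exact hi h2
  · rintro ⟨-, h2, h3⟩ i
    by_cases hi : i = Sum.inl ()
    · rw [hi, sum_eq_zero fun j _ => by rw [cc_ks, zero_mul], zero_add, h2, mul_zero]
    · rw [key i hi x, h3 i hi (notMem_empty _), zero_add]
      unfold dg
      rw [if_neg, zero_mul]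
      rintro (h4 | h4)
      · apply h4
        rcases i with i | i
        · exact mem_Sk_inl.2 one_ne_zero
        · exact mem_Sk_inr
      · exact hi h4

/-- **The limit law of the square matrices.** -/
theorem cb_lim (b : ℕ) (ε : ℝ) (hε : 0 < ε) : ∃ s₀ : ℕ, ∀ s : ℕ, s₀ ≤ s → |cb s b - cq b| ≤ ε := by
  obtain ⟨R, hR⟩ := t_LAQ 1 (fun _ => b) (ε / 2) (by linarith)
  obtain ⟨t, ht⟩ := exists_pow_lt_of_lt_one (show (0 : ℝ) < ε / 2 by linarith)
    (show (1 / 3 : ℝ) < 1 by norm_num)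
  refine ⟨R + 2 + t, fun s hs => ?_⟩
  obtain ⟨n, hn⟩ : ∃ n, n = s + 1 := ⟨_, rfl⟩
  have h1 := hR Unit (Fin n) (Sum.inl ()) univ (fun _ _ => 1) (fun _ _ => 0) (fun _ _ => 0)
    (fun _ _ => 1) (fun l => ⟨fun _ => by simp, fun _ => mem_univ _⟩)
    (fun _ _ _ => one_ne_zero)
    (fun v hv hv0 => by
      exfalso
      apply hv0
      funext u
      exact hv u rfl)
    (fun w hw => by
      have h2 : w () ≠ 0 := by
        intro h
        apply hw
        funext u
        exact h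
      have h3 : (univ.filter fun k : Fin n => ∑ u : Unit, w u * 1 ≠ 0) = univ := by
        rw [filter_true_of_mem]
        intro k _
        rw [Fintype.sum_unique, mul_one]
        exact h2
      rw [h3, card_univ, Fintype.card_fin, Fintype.card_unit]
      omega)
    (by rw [card_univ, Fintype.card_fin, Fintype.card_unit]; omega)
    (fun k l hkl => absurd (Subsingleton.elim k l) hkl)
  rw [Fin.prod_univ_one] at h1
  -- the set of the resampled rows
  obtain ⟨C, hCd⟩ : ∃ C : Finset (Unit ⊕ Fin n), C = (univ.filter fun k : Fin n => (k : ℕ) < s).image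
    Sum.inr := ⟨_, rfl⟩
  have hCc : C.card = s := by
    rw [hCd, card_image_of_injective _ Sum.inr_injective]
    have h2 : (univ.filter fun k : Fin n => (k : ℕ) < s) = univ.erase (Fin.last s |>.cast hn.symm) := by
      ext k
      rw [mem_filter, mem_erase]
      have := k.2
      constructor
      · rintro ⟨-, h⟩
        refine ⟨fun h' => ?_, mem_univ _⟩
        rw [h'] at h
        simp at h
      · rintro ⟨h, -⟩
        refine ⟨mem_univ _, ?_⟩
        by_contra h'
        apply h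
        apply Fin.ext
        simp
        omega
    rw [h2, card_erase_of_mem (mem_univ _), card_univ, Fintype.card_fin, hn]
    omega
  have hks : (Sum.inl () : Unit ⊕ Fin n) ∉ J1 n := by
    intro h
    obtain ⟨k, hk⟩ := mem_J1.1 h
    exact absurd hk (by simp)
  have h2 := single' (J := J1 n) (f := fun _ => 1) (ks := Sum.inl ()) (G := G1 n) (C := C) hks
    one_ne_zero (by
      rw [hCd]
      intro i hi
      obtain ⟨k, -, rfl⟩ := mem_image.1 hi
      exact ⟨mem_J1.2 ⟨k, rfl⟩, one_ne_zero⟩)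
    (fun w hw hw0 => by
      have hwl : w (Sum.inl ()) ≠ 0 := by
        intro h
        apply hw0
        funext i
        rcases i with i | i
        · exact h
        · exact hw _ (mem_J1.2 ⟨i, rfl⟩)
      refine ⟨Sum.inr (Fin.last s |>.cast hn.symm), ⟨mem_J1.2 ⟨_, rfl⟩, one_ne_zero⟩, ?_, ?_⟩
      · rw [hCd]
        intro h
        obtain ⟨k, hk, hk2⟩ := mem_image.1 h
        rw [mem_filter] at hk
        have h3 := congrArg Fin.val (Sum.inr_injective hk2)
        simp at h3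
        omega
      · rw [Fintype.sum_sum_type, sum_eq_zero (s := (univ : Finset (Fin n))) (fun k _ => by
          rw [hw _ (mem_J1.2 ⟨k, rfl⟩), zero_mul]), add_zero, Fintype.sum_unique]
        show w (Sum.inl ()) * 1 ≠ 0
        rw [mul_one]
        exact hwl)
    (fun v hv hvk hv0 => by
      exfalso
      apply hv0
      funext i
      rcases i with i | i
      · exact hvk
      · exact hv _ (mem_J1.2 ⟨i, rfl⟩)) b
  rw [hCc] at h2
  obtain ⟨N, hN⟩ : ∃ N : ℝ, N = Nat.card ((Unit ⊕ Fin n) → (Unit ⊕ Fin n) → ZMod 3) := ⟨_, rfl⟩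
  have hN0 : 0 < N := by
    rw [hN]
    exact_mod_cast Nat.card_pos
  rw [← hN] at h2
  -- the comparison of the shares
  have h3 := fib (rp n) (rp_surj n) (fun g => finrank (ZMod 3) (KS (cc (Sum.inl ()) (fun _ : Unit => 1)
    (fun _ _ => 0) (fun _ _ => 0) (fun _ _ => 1) (Pool.Agent.Y703.CX.ext g))
    (Sk (Fin n) fun _ : Unit => (1 : ZMod 3))) = b + 1)
  obtain ⟨m, hm⟩ : ∃ m, m = Nat.card {α : (Unit ⊕ Fin n) → (Unit ⊕ Fin n) → ZMod 3 //
    co (fun _ => 1) (Sum.inl ()) (mx (J1 n) (G1 n) α) = b} := ⟨_, rfl⟩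
  obtain ⟨p, hp⟩ : ∃ p, p = (prs (univ : Finset (Fin n))).card := ⟨_, rfl⟩
  obtain ⟨k, hk⟩ : ∃ k, k = Nat.card {g : prs (univ : Finset (Fin n)) → ZMod 3 //
    finrank (ZMod 3) (KS (cc (Sum.inl ()) (fun _ : Unit => 1)
    (fun _ _ => 0) (fun _ _ => 0) (fun _ _ => 1) (Pool.Agent.Y703.CX.ext g))
    (Sk (Fin n) fun _ : Unit => (1 : ZMod 3))) = b + 1} := ⟨_, rfl⟩
  have h4 : Nat.card {α : (Unit ⊕ Fin n) → (Unit ⊕ Fin n) → ZMod 3 //
      finrank (ZMod 3) (KS (cc (Sum.inl ()) (fun _ : Unit => 1)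
      (fun _ _ => 0) (fun _ _ => 0) (fun _ _ => 1) (Pool.Agent.Y703.CX.ext (rp n α)))
      (Sk (Fin n) fun _ : Unit => (1 : ZMod 3))) = b + 1} = m := by
    rw [hm]
    refine Nat.card_congr (Equiv.subtypeEquiv (Equiv.refl _) fun α => ?_)
    rw [Equiv.refl_apply, link]
    exact Nat.add_right_cancel_iff
  have hpc : Nat.card (prs (univ : Finset (Fin n)) → ZMod 3) = 3 ^ p := by
    rw [Nat.card_fun, Nat.card_zmod, Nat.card_eq_fintype_card (α := ↥(prs (univ : Finset (Fin n)))),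
      Fintype.card_coe, ← hp]
  rw [h4, ← hk, hpc] at h3
  have h5 : (m : ℝ) * 3 ^ p = k * N := by
    rw [hN]
    exact_mod_cast h3
  have h6 : |(k : ℝ) / 3 ^ p - cq b| ≤ ε / 2 := by
    have e : Nat.card {g : prs (univ : Finset (Fin n)) → ZMod 3 // ∀ _ : Fin 1,
      finrank (ZMod 3) (KS (cc (Sum.inl ()) (fun _ : Unit => 1)
      (fun _ _ => 0) (fun _ _ => 0) (fun _ _ => 1) (Pool.Agent.Y703.CX.ext g))
      (Sk (Fin n) fun _ : Unit => (1 : ZMod 3))) = b + 1} = k := by
      rw [hk]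
      exact Nat.card_congr (Equiv.subtypeEquiv (Equiv.refl _) fun g => ⟨fun h => h 0, fun h _ => h⟩)
    rw [ncI, e, ← hp] at h1
    exact h1
  have h3p : (0 : ℝ) < 3 ^ p := by positivity
  have h8 : (k : ℝ) / 3 ^ p = m / N := by
    rw [div_eq_div_iff h3p.ne' hN0.ne']
    linarith
  have h9 : |(m : ℝ) / N - cb s b| ≤ (1 / 3) ^ s := by
    have e : (m : ℝ) / N - cb s b = (m - N * cb s b) / N := by
      field_simp
    rw [e, abs_div, abs_of_pos hN0, div_le_iff₀ hN0, mul_comm _ N, hm]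
    exact h2
  have h10 : (1 / 3 : ℝ) ^ s ≤ (1 / 3) ^ t := pow_le_pow_of_le_one (by norm_num) (by norm_num)
    (by omega)
  rw [h8] at h6
  rw [abs_le] at h6 h9 ⊢
  constructor <;> linarith [h6.1, h6.2, h9.1, h9.2]

end Q283.ND
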