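import Pool.Agent.Q283.ND.Lb

/-! The law of large numbers over the exponents: second moments and first moments -/

set_option autoImplicit false
set_option linter.unusedSectionVars false

open scoped Classical

namespace Q283.ND

open Finset Module
open Q283.Q3 (cq cq_ge cq_le)

section ex
variable {I : Type} [Fintype I] {J P : Finset I} {ks : I} {G : I → I → ZMod 3}
  {m : I → ZMod 3}

/-- the exponents of the product -/
noncomputable def ef (P : Finset I) (m e : I → ZMod 3) : I → ZMod 3 :=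
  fun i => (if i ∈ P then e i else 0) + m i

/-- the data of a box -/
structure Dat (J P : Finset I) (ks : I) (G : I → I → ZMod 3) (m : I → ZMod 3) (R : ℕ) : Prop where
  sub : J ⊆ P
  ksP : ks ∉ P
  mks : m ks ≠ 0
  mJ : ∀ i ∈ J, m i = 0
  hv : ∀ v ∈ off J, (v ks = 0 ∧ v ≠ 0) → 2 * Jᶜ.card + R ≤
    (J.filter fun i => ∑ u, v u * G u i ≠ 0).card
  hw : ∀ w ∈ off J, w ≠ 0 → 2 * Jᶜ.card + R ≤ (J.filter fun i => ∑ u, w u * G i u ≠ 0).card
  hJ : R ≤ J.card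

theorem ef_J {R : ℕ} (h : Dat J P ks G m R) (e : I → ZMod 3) {i : I} (hi : i ∈ J) :
    ef P m e i = e i := by
  unfold ef
  rw [if_pos (h.sub hi), h.mJ i hi, add_zero]

theorem ef_ks {R : ℕ} (h : Dat J P ks G m R) (e : I → ZMod 3) : ef P m e ks ≠ 0 := by
  unfold ef
  rw [if_neg h.ksP, zero_add]
  exact h.mks

theorem sp_ef {R : ℕ} (h : Dat J P ks G m R) (e : I → ZMod 3) :
    sp J (ef P m e) = J.filter fun i => e i ≠ 0 := by
  unfold sp
  refine filter_congr fun i hi => ?_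
  rw [ef_J h e hi]

/-- the degenerate pairs -/
def bW (J : Finset I) (G : I → I → ZMod 3) (e e' : I → ZMod 3) : Prop :=
  ∃ w ∈ off J, w ≠ 0 ∧ ∀ i ∈ J, ∑ u, w u * G i u ≠ 0 → ¬ (e i ≠ 0 ∧ e' i ≠ 0)

def bW1 (J : Finset I) (G : I → I → ZMod 3) (e : I → ZMod 3) : Prop :=
  ∃ w ∈ off J, w ≠ 0 ∧ ∀ i ∈ J, ∑ u, w u * G i u ≠ 0 → ¬ e i ≠ 0

def bV (J : Finset I) (ks : I) (G : I → I → ZMod 3) (e : I → ZMod 3) : Prop :=
  ∃ v ∈ off J, (v ks = 0 ∧ v ≠ 0) ∧ ∀ i ∈ J, ∑ u, v u * G u i ≠ 0 → ¬ e i ≠ 0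

theorem nbW {e e' : I → ZMod 3} {R : ℕ} (h : Dat J P ks G m R) (hb : ¬ bW J G e e')
    (w : I → ZMod 3) (hw : ∀ i ∈ J, w i = 0) (hw0 : w ≠ 0) :
    ∃ i ∈ sp J (ef P m e) ∩ sp J (ef P m e'), ∑ u, w u * G i u ≠ 0 := by
  by_contra hc
  apply hb
  refine ⟨w, mem_off.2 hw, hw0, fun i hi h1 h2 => hc ⟨i, ?_, h1⟩⟩
  rw [mem_inter, sp_ef h, sp_ef h, mem_filter, mem_filter]
  exact ⟨⟨hi, h2.1⟩, hi, h2.2⟩

theorem nbW1 {e : I → ZMod 3} {R : ℕ} (h : Dat J P ks G m R) (hb : ¬ bW1 J G e)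
    (w : I → ZMod 3) (hw : ∀ i ∈ J, w i = 0) (hw0 : w ≠ 0) :
    ∃ i ∈ sp J (ef P m e), ∑ u, w u * G i u ≠ 0 := by
  by_contra hc
  apply hb
  refine ⟨w, mem_off.2 hw, hw0, fun i hi h1 h2 => hc ⟨i, ?_, h1⟩⟩
  rw [sp_ef h, mem_filter]
  exact ⟨hi, h2⟩

theorem nbV {e : I → ZMod 3} {R : ℕ} (h : Dat J P ks G m R) (hb : ¬ bV J ks G e)
    (v : I → ZMod 3) (hv : ∀ i ∈ J, v i = 0) (hk : v ks = 0) (hv0 : v ≠ 0) :
    ∃ j ∈ sp J (ef P m e), ∑ u, v u * G u j ≠ 0 := by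
  by_contra hc
  apply hb
  refine ⟨v, mem_off.2 hv, ⟨hk, hv0⟩, fun i hi h1 h2 => hc ⟨i, ?_, h1⟩⟩
  rw [sp_ef h, mem_filter]
  exact ⟨hi, h2⟩

/-- the number of tables -/
noncomputable def NT (I : Type) [Fintype I] : ℝ := (Fintype.card (I → I → ZMod 3) : ℝ)

/-- the number of exponents -/
noncomputable def NE (I : Type) [Fintype I] : ℝ := (Fintype.card (I → ZMod 3) : ℝ)

theorem NT_pos (I : Type) [Fintype I] : 0 < NT I := by
  unfold NT
  exact_mod_cast Fintype.card_pos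

theorem NE_pos (I : Type) [Fintype I] : 0 < NE I := by
  unfold NE
  exact_mod_cast Fintype.card_pos

/-- the covariance of two exponents -/
noncomputable def cv (J P : Finset I) (ks : I) (G : I → I → ZMod 3) (m : I → ZMod 3) (b : ℕ)
    (e e' : I → ZMod 3) : ℝ :=
  ∑ α : I → I → ZMod 3, (one b (co (ef P m e) ks (mx J G α)) - cq b) *
    (one b (co (ef P m e') ks (mx J G α)) - cq b)

theorem abs_one_sub (b n : ℕ) : |one b n - cq b| ≤ 1 := by
  have h1 := one_ge b n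
  have h2 := one_le b n
  have h3 := cq_ge b
  have h4 := cq_le b
  rw [abs_le]
  constructor <;> linarith

theorem cv_triv (b : ℕ) (e e' : I → ZMod 3) : |cv J P ks G m b e e'| ≤ NT I := by
  unfold cv NT
  refine (abs_sum_le_sum_abs _ _).trans ?_
  have h1 : ∀ α ∈ (univ : Finset (I → I → ZMod 3)),
      |(one b (co (ef P m e) ks (mx J G α)) - cq b) *
        (one b (co (ef P m e') ks (mx J G α)) - cq b)| ≤ 1 := by
    intro α _
    rw [abs_mul]
    exact mul_le_one₀ (abs_one_sub _ _) (abs_nonneg _) (abs_one_sub _ _)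
  refine (sum_le_sum h1).trans (le_of_eq ?_)
  rw [sum_const, card_univ, nsmul_eq_mul, mul_one]

theorem cv_good {R : ℕ} (h : Dat J P ks G m R) (b : ℕ) {δ : ℝ} {s₀ : ℕ}
    (hs : ∀ s, s₀ ≤ s → |cb s b - cq b| + (1 / 3) ^ s ≤ δ) {e e' : I → ZMod 3}
    (h1 : ¬ bW J G e e') (h2 : ¬ bV J ks G e)
    (h3 : ¬ (J.filter fun i => e i ≠ 0 ∧ e' i = 0).card < s₀) :
    |cv J P ks G m b e e'| ≤ NT I * δ := by
  have hks : ks ∉ J := fun hk => h.ksP (h.sub hk)
  have h4 := pair (f' := ef P m e') hks (ef_ks h e) (nbW h h1) (nbV h h2) b (cq_ge b) (cq_le b)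
  have h5 : sp J (ef P m e) \ sp J (ef P m e') = J.filter fun i => e i ≠ 0 ∧ e' i = 0 := by
    rw [sp_ef h, sp_ef h]
    ext i
    simp only [mem_sdiff, mem_filter]
    tauto
  rw [h5] at h4
  unfold cv NT
  refine h4.trans (mul_le_mul_of_nonneg_left ?_ (Nat.cast_nonneg _))
  exact hs _ (not_lt.1 h3)

theorem cv_le {R : ℕ} (h : Dat J P ks G m R) (b : ℕ) {δ : ℝ} (hδ : 0 ≤ δ) {s₀ : ℕ}
    (hs : ∀ s, s₀ ≤ s → |cb s b - cq b| + (1 / 3) ^ s ≤ δ) (e e' : I → ZMod 3) :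
    cv J P ks G m b e e' ≤ NT I * (δ + ((if bW J G e e' then (1 : ℝ) else 0) +
      (if bV J ks G e then (1 : ℝ) else 0) +
      (if (J.filter fun i => e i ≠ 0 ∧ e' i = 0).card < s₀ then (1 : ℝ) else 0))) := by
  have hN := NT_pos I
  have h0 := (le_abs_self _).trans (cv_triv (J := J) (P := P) (ks := ks) (G := G) (m := m) b e e')
  by_cases h1 : bW J G e e'
  · rw [if_pos h1]
    refine h0.trans ?_
    have : (0 : ℝ) ≤ (if bV J ks G e then (1 : ℝ) else 0) +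
      (if (J.filter fun i => e i ≠ 0 ∧ e' i = 0).card < s₀ then (1 : ℝ) else 0) := by
      split_ifs <;> norm_num
    nlinarith
  by_cases h2 : bV J ks G e
  · rw [if_neg h1, if_pos h2]
    refine h0.trans ?_
    have : (0 : ℝ) ≤
      (if (J.filter fun i => e i ≠ 0 ∧ e' i = 0).card < s₀ then (1 : ℝ) else 0) := by
      split_ifs <;> norm_num
    nlinarith
  by_cases h3 : (J.filter fun i => e i ≠ 0 ∧ e' i = 0).card < s₀
  · rw [if_neg h1, if_neg h2, if_pos h3]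
    refine h0.trans ?_
    nlinarith
  · rw [if_neg h1, if_neg h2, if_neg h3, zero_add, zero_add, add_zero]
    exact (le_abs_self _).trans (cv_good h b hs h1 h2 h3)

/-- **The second moment.** -/
theorem second (b : ℕ) (δ : ℝ) (hδ : 0 < δ) : ∃ R₀ : ℕ, ∀ R : ℕ, R₀ ≤ R →
    ∀ (I : Type) [Fintype I] (J P : Finset I) (ks : I) (G : I → I → ZMod 3) (m : I → ZMod 3)
      (A : Finset (I → ZMod 3)), Dat J P ks G m R →
    ∑ α : I → I → ZMod 3, (∑ e ∈ A, (one b (co (ef P m e) ks (mx J G α)) - cq b)) ^ 2 ≤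
      NT I * (δ * NE I ^ 2) := by
  obtain ⟨s₁, hs₁⟩ := cb_lim b (δ / 4) (by linarith)
  obtain ⟨s₂, hs₂⟩ := exists_pow_lt_of_lt_one (show (0 : ℝ) < δ / 4 by linarith)
    (show (1 / 3 : ℝ) < 1 by norm_num)
  obtain ⟨s₀, hs₀⟩ : ∃ s₀, s₀ = max s₁ s₂ := ⟨_, rfl⟩
  have hs : ∀ s, s₀ ≤ s → |cb s b - cq b| + (1 / 3) ^ s ≤ δ / 2 := by
    intro s h
    have h1 := hs₁ s ((le_max_left _ _).trans (hs₀ ▸ h))
    have h2 : (1 / 3 : ℝ) ^ s ≤ (1 / 3) ^ s₂ := pow_le_pow_of_le_one (by norm_num) (by norm_num)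
      ((le_max_right _ _).trans (hs₀ ▸ h))
    linarith
  obtain ⟨R₁, hR₁⟩ := exists_pow_lt_of_lt_one (show (0 : ℝ) < δ / 6 by linarith)
    (show (5 / 9 : ℝ) < 1 by norm_num)
  obtain ⟨R₂, hR₂⟩ := exists_pow_lt_of_lt_one (show (0 : ℝ) < δ / 6 by linarith)
    (show (1 / 3 : ℝ) < 1 by norm_num)
  obtain ⟨R₃, hR₃⟩ := exists_pow_lt_of_lt_one (show (0 : ℝ) < δ / 6 / 2 ^ s₀ by positivity)
    (show (8 / 9 : ℝ) < 1 by norm_num)
  refine ⟨max R₁ (max R₂ R₃), fun R hR I _ J P ks G m A h => ?_⟩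
  have g1 : (5 / 9 : ℝ) ^ R ≤ δ / 6 := (pow_le_pow_of_le_one (by norm_num) (by norm_num)
    ((le_max_left _ _).trans hR)).trans hR₁.le
  have g2 : (1 / 3 : ℝ) ^ R ≤ δ / 6 := (pow_le_pow_of_le_one (by norm_num) (by norm_num)
    ((le_max_left _ _).trans ((le_max_right _ _).trans hR))).trans hR₂.le
  have g3 : (2 : ℝ) ^ s₀ * (8 / 9) ^ J.card ≤ δ / 6 := by
    have h1 : (8 / 9 : ℝ) ^ J.card ≤ δ / 6 / 2 ^ s₀ :=
      (pow_le_pow_of_le_one (by norm_num) (by norm_num)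
      (((le_max_right _ _).trans ((le_max_right _ _).trans hR)).trans h.hJ)).trans hR₃.le
    rw [le_div_iff₀ (by positivity)] at h1
    linarith
  have hN := NT_pos I
  have hE := NE_pos I
  have e1 : ∑ α : I → I → ZMod 3, (∑ e ∈ A, (one b (co (ef P m e) ks (mx J G α)) - cq b)) ^ 2 =
      ∑ e ∈ A, ∑ e' ∈ A, cv J P ks G m b e e' := by
    unfold cv
    have h1 : ∀ α : I → I → ZMod 3, (∑ e ∈ A, (one b (co (ef P m e) ks (mx J G α)) - cq b)) ^ 2 =
        ∑ e ∈ A, ∑ e' ∈ A, (one b (co (ef P m e) ks (mx J G α)) - cq b) *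
          (one b (co (ef P m e') ks (mx J G α)) - cq b) := by
      intro α
      rw [pow_two, sum_mul_sum]
    rw [sum_congr rfl fun α _ => h1 α, sum_comm]
    refine sum_congr rfl fun e _ => ?_
    rw [sum_comm]
  rw [e1]
  have h2 : ∑ e ∈ A, ∑ e' ∈ A, cv J P ks G m b e e' ≤
      ∑ e : I → ZMod 3, ∑ e' : I → ZMod 3, NT I * (δ / 2 + ((if bW J G e e' then (1 : ℝ) else 0) +
      (if bV J ks G e then (1 : ℝ) else 0) +
      (if (J.filter fun i => e i ≠ 0 ∧ e' i = 0).card < s₀ then (1 : ℝ) else 0))) := by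
    have h3 : ∀ e e' : I → ZMod 3, 0 ≤ NT I * (δ / 2 + ((if bW J G e e' then (1 : ℝ) else 0) +
      (if bV J ks G e then (1 : ℝ) else 0) +
      (if (J.filter fun i => e i ≠ 0 ∧ e' i = 0).card < s₀ then (1 : ℝ) else 0))) := by
      intro e e'
      refine mul_nonneg hN.le ?_
      split_ifs <;> linarith
    refine le_trans (sum_le_sum fun e _ => ?_) (sum_le_sum_of_subset_of_nonneg (subset_univ A)
      fun e _ _ => sum_nonneg fun e' _ => h3 e e')
    exact le_trans (sum_le_sum fun e' _ => cv_le h b (by linarith) hs e e')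
      (sum_le_sum_of_subset_of_nonneg (subset_univ A) fun e' _ _ => h3 e e')
  refine h2.trans ?_
  simp_rw [← mul_sum, sum_add_distrib]
  refine mul_le_mul_of_nonneg_left ?_ hN.le
  have k1 := pairs_few (J := J) (fun w => w ≠ 0) (fun w i => ∑ u, w u * G i u ≠ 0) R
    (fun w h1 h2 => (h.hw w h1 h2).trans (le_of_eq fcc)) (bW J G) fun e e' hb => hb
  have k2 := single_few (J := J) (fun v => v ks = 0 ∧ v ≠ 0) (fun v i => ∑ u, v u * G u i ≠ 0) R
    (fun v h1 h2 => (h.hv v h1 h2).trans (le_of_eq fcc)) (bV J ks G) fun e hb => hb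
  have k3 := diff_few (J := J) s₀
  have k1' : ∑ e : I → ZMod 3, ∑ e' : I → ZMod 3, (if bW J G e e' then (1 : ℝ) else 0) ≤
      NE I ^ 2 * (δ / 6) := k1.trans (mul_le_mul_of_nonneg_left g1 (by positivity))
  have k2' : ∑ e : I → ZMod 3, ∑ _e' : I → ZMod 3, (if bV J ks G e then (1 : ℝ) else 0) ≤
      NE I ^ 2 * (δ / 6) := by
    have h4 : ∑ e : I → ZMod 3, (if bV J ks G e then (1 : ℝ) else 0) ≤ NE I * (δ / 6) := by
      have h5 : ∑ e : I → ZMod 3, (if bV J ks G e then (1 : ℝ) else 0) ≤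
          (3 : ℝ) ^ Jᶜ.card * ∑ e : I → ZMod 3, (if bV J ks G e then (1 : ℝ) else 0) :=
        le_mul_of_one_le_left (sum_nonneg fun e _ => by split_ifs <;> norm_num)
          (one_le_pow₀ (by norm_num))
      exact h5.trans (k2.trans (mul_le_mul_of_nonneg_left g2 hE.le))
    simp only [sum_const, card_univ, nsmul_eq_mul]
    rw [← mul_sum]
    have h5 := mul_le_mul_of_nonneg_left h4 hE.le
    unfold NE at h5 ⊢
    linarith
  have k3' : ∑ e : I → ZMod 3, ∑ e' : I → ZMod 3,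
      (if (J.filter fun i => e i ≠ 0 ∧ e' i = 0).card < s₀ then (1 : ℝ) else 0) ≤
      NE I ^ 2 * (δ / 6) := k3.trans (mul_le_mul_of_nonneg_left g3 (by positivity))
  have k4 : ∑ _e : I → ZMod 3, ∑ _e' : I → ZMod 3, δ / 2 = NE I ^ 2 * (δ / 2) := by
    unfold NE
    simp only [sum_const, card_univ, nsmul_eq_mul]
    ring
  rw [k4]
  linarith

/-- **The first moment.** -/
theorem first {R : ℕ} (h : Dat J P ks G m R) (A : Finset (I → ZMod 3)) :
    ∑ α : I → I → ZMod 3, ∑ e ∈ A, (3 : ℝ) ^ co (ef P m e) ks (mx J G α) ≤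
      NT I * (2 * A.card + 8 * (NE I * (1 / 3) ^ R)) := by
  have hks : ks ∉ J := fun hk => h.ksP (h.sub hk)
  have hN := NT_pos I
  have h1 : ∀ e : I → ZMod 3, ∑ α : I → I → ZMod 3, (3 : ℝ) ^ co (ef P m e) ks (mx J G α) ≤
      NT I * (2 + 4 * 3 ^ Jᶜ.card * ((if bW1 J G e then (1 : ℝ) else 0) +
        (if bV J ks G e then (1 : ℝ) else 0))) := by
    intro e
    by_cases hg : ¬ bW1 J G e ∧ ¬ bV J ks G e
    · have h2 := mom_co hks (ef_ks h e) (nbW1 h hg.1) (nbV h hg.2)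
      have h3 : ((∑ α : I → I → ZMod 3, 3 ^ co (ef P m e) ks (mx J G α) : ℕ) : ℝ) ≤
          ((Fintype.card (I → I → ZMod 3) * 2 : ℕ) : ℝ) := by exact_mod_cast h2
      push_cast at h3
      rw [if_neg hg.1, if_neg hg.2, add_zero, mul_zero, add_zero]
      exact h3
    · have h2 := mom_all (J := J) (f := ef P m e) (G := G) hks
      have h3 : ((∑ α : I → I → ZMod 3, 3 ^ co (ef P m e) ks (mx J G α) : ℕ) : ℝ) ≤
          ((Fintype.card (I → I → ZMod 3) * (4 * 3 ^ Jᶜ.card) : ℕ) : ℝ) := by exact_mod_cast h2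
      push_cast at h3
      refine h3.trans ?_
      unfold NT
      refine mul_le_mul_of_nonneg_left ?_ (Nat.cast_nonneg _)
      have h4 : (1 : ℝ) ≤ (if bW1 J G e then (1 : ℝ) else 0) +
        (if bV J ks G e then (1 : ℝ) else 0) := by
        by_cases h5 : bW1 J G e
        · rw [if_pos h5]
          split_ifs <;> norm_num
        · rw [if_neg h5, if_pos (by tauto)]
          norm_num
      have h5 : (0 : ℝ) ≤ 4 * 3 ^ Jᶜ.card := by positivity
      nlinarith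
  rw [sum_comm]
  refine (sum_le_sum fun e _ => h1 e).trans ?_
  rw [← mul_sum]
  refine mul_le_mul_of_nonneg_left ?_ hN.le
  rw [sum_add_distrib, sum_const, nsmul_eq_mul, ← mul_sum]
  have k1 := single_few (J := J) (fun w => w ≠ 0) (fun w i => ∑ u, w u * G i u ≠ 0) R
    (fun w h1 h2 => (h.hw w h1 h2).trans (le_of_eq fcc)) (bW1 J G) fun e hb => hb
  have k2 := single_few (J := J) (fun v => v ks = 0 ∧ v ≠ 0) (fun v i => ∑ u, v u * G u i ≠ 0) R
    (fun v h1 h2 => (h.hv v h1 h2).trans (le_of_eq fcc)) (bV J ks G) fun e hb => hb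
  have k3 : ∑ e ∈ A, ((if bW1 J G e then (1 : ℝ) else 0) + (if bV J ks G e then (1 : ℝ) else 0)) ≤
      ∑ e : I → ZMod 3, (if bW1 J G e then (1 : ℝ) else 0) +
        ∑ e : I → ZMod 3, (if bV J ks G e then (1 : ℝ) else 0) := by
    rw [← sum_add_distrib]
    refine sum_le_sum_of_subset_of_nonneg (subset_univ A) fun e _ _ => ?_
    split_ifs <;> norm_num
  have k4 := mul_le_mul_of_nonneg_left k3 (show (0 : ℝ) ≤ 4 * 3 ^ Jᶜ.card by positivity)
  have k1' : (3 : ℝ) ^ Jᶜ.card * ∑ e : I → ZMod 3, (if bW1 J G e then (1 : ℝ) else 0) ≤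
      NE I * (1 / 3) ^ R := k1
  have k2' : (3 : ℝ) ^ Jᶜ.card * ∑ e : I → ZMod 3, (if bV J ks G e then (1 : ℝ) else 0) ≤
      NE I * (1 / 3) ^ R := k2
  nlinarith

end ex

end Q283.ND
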