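import Pool.Agent.Q283.ND.Ld
import Pool.Agent.Q283.Q3.Sumq

/-! The law of large numbers over the exponents: the local theorem -/

set_option autoImplicit false
set_option linter.unusedSectionVars false

open scoped Classical

namespace Q283.ND

open Finset Module
open Pool.Agent.Y703.CX (c3)
open Q283.Q3 (cq cq_ge cq_le cq_eq part_sum)

theorem cq_succ' (r : ℕ) : ((3 : ℝ) ^ (r + 1) - 1) ^ 2 * cq (r + 1) = 3 * cq r := by
  have hp : (0 : ℝ) < (3 : ℝ) ^ (r + 1) - 1 := by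
    have : (3 : ℝ) ^ 1 ≤ 3 ^ (r + 1) := pow_le_pow_right₀ (by norm_num) (by omega)
    linarith
  have hP : (0 : ℝ) < ∏ i ∈ range r, ((3 : ℝ) ^ (i + 1) - 1) ^ 2 := by
    refine prod_pos fun i _ => pow_pos ?_ 2
    have : (3 : ℝ) ^ 1 ≤ 3 ^ (i + 1) := pow_le_pow_right₀ (by norm_num) (by omega)
    linarith
  rw [cq_eq, cq_eq, prod_range_succ]
  field_simp
  ring

theorem tele (s : ℕ) : (3 : ℝ) ^ s * ∑ r ∈ range s, ((3 : ℝ) ^ r - 2) * cq r =
    - (((3 : ℝ) ^ s - 1) ^ 2 * cq s) := by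
  induction s with
  | zero => norm_num
  | succ s ih =>
    rw [sum_range_succ, cq_succ', pow_succ]
    have h : (3 : ℝ) ^ s * 3 * (∑ r ∈ range s, ((3 : ℝ) ^ r - 2) * cq r + (3 ^ s - 2) * cq s) =
        3 * ((3 : ℝ) ^ s * ∑ r ∈ range s, ((3 : ℝ) ^ r - 2) * cq r) +
          3 * 3 ^ s * (3 ^ s - 2) * cq s := by ring
    rw [h, ih]
    ring

/-- the partial means -/
theorem mean_part (s : ℕ) : 2 - 7 / (3 : ℝ) ^ s ≤ ∑ r ∈ range s, (3 : ℝ) ^ r * cq r ∧
    ∑ r ∈ range s, (3 : ℝ) ^ r * cq r ≤ 2 := by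
  have h1 := tele s
  have h2 := part_sum s
  have h3 : ∑ r ∈ range s, (3 : ℝ) ^ r * cq r =
      2 * ∑ r ∈ range s, cq r + ∑ r ∈ range s, ((3 : ℝ) ^ r - 2) * cq r := by
    rw [mul_sum, ← sum_add_distrib]
    exact sum_congr rfl fun r _ => by ring
  have hp : (0 : ℝ) < 3 ^ s := by positivity
  have h4 : ∑ r ∈ range s, ((3 : ℝ) ^ r - 2) * cq r ≤ 0 := by
    by_contra h
    rw [not_le] at h
    have h5 := mul_pos hp h
    rw [h1] at h5
    have h6 : 0 ≤ ((3 : ℝ) ^ s - 1) ^ 2 * cq s := mul_nonneg (sq_nonneg _) (cq_ge s)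
    linarith
  refine ⟨?_, by rw [h3]; linarith [h2.2]⟩
  rw [h3]
  rcases Nat.eq_zero_or_pos s with hs | hs
  · subst hs
    norm_num
  obtain ⟨k, rfl⟩ : ∃ k, s = k + 1 := ⟨s - 1, by omega⟩
  rw [cq_succ'] at h1
  have h5 : -3 ≤ (3 : ℝ) ^ (k + 1) * ∑ r ∈ range (k + 1), ((3 : ℝ) ^ r - 2) * cq r := by
    rw [h1]
    have := cq_le k
    linarith
  have h6 : -3 / (3 : ℝ) ^ (k + 1) ≤ ∑ r ∈ range (k + 1), ((3 : ℝ) ^ r - 2) * cq r := by
    rw [div_le_iff₀ hp]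
    linarith
  have h7 : 7 / (3 : ℝ) ^ (k + 1) = 2 * (2 / 3 ^ (k + 1)) + 3 / 3 ^ (k + 1) := by ring
  have h8 : -3 / (3 : ℝ) ^ (k + 1) = - (3 / 3 ^ (k + 1)) := by ring
  rw [h8] at h6
  linarith [h2.1]

/-- the shares and the mean are within `ε` of the law -/
def Good {E : Type} (B : ℕ) (ε : ℝ) (A : Finset E) (g : E → ℕ) : Prop :=
  (∀ b < B, |∑ e ∈ A, (one b (g e) - cq b)| ≤ ε * A.card) ∧
    |∑ e ∈ A, (3 : ℝ) ^ g e - 2 * A.card| ≤ ε * A.card

/-- the lower bound for the mean -/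
theorem low_mean {E : Type} {B : ℕ} {ε : ℝ} (hε : 0 ≤ ε) {A : Finset E} {g : E → ℕ}
    (h : ∀ b < B, |∑ e ∈ A, (one b (g e) - cq b)| ≤ ε * A.card) :
    (2 - 7 / (3 : ℝ) ^ B - ε * 3 ^ B) * A.card ≤ ∑ e ∈ A, (3 : ℝ) ^ g e := by
  have h1 : ∀ e, ∑ b ∈ range B, (3 : ℝ) ^ b * one b (g e) ≤ (3 : ℝ) ^ g e := by
    intro e
    unfold one
    simp_rw [mul_ite, mul_one, mul_zero]
    rw [Finset.sum_ite_eq]
    split_ifs
    · exact le_rfl
    · positivity
  have h2 : ∑ e ∈ A, ∑ b ∈ range B, (3 : ℝ) ^ b * one b (g e) ≤ ∑ e ∈ A, (3 : ℝ) ^ g e :=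
    sum_le_sum fun e _ => h1 e
  refine le_trans ?_ h2
  rw [sum_comm]
  have h3 : ∀ b ∈ range B, (3 : ℝ) ^ b * ((cq b - ε) * A.card) ≤
      ∑ e ∈ A, (3 : ℝ) ^ b * one b (g e) := by
    intro b hb
    rw [← mul_sum]
    refine mul_le_mul_of_nonneg_left ?_ (by positivity)
    have h4 := (abs_le.1 (h b (mem_range.1 hb))).1
    rw [sum_sub_distrib, sum_const, nsmul_eq_mul] at h4
    linarith
  refine le_trans ?_ (sum_le_sum h3)
  have h4 := (mean_part B).1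
  have h5 : ∑ b ∈ range B, (3 : ℝ) ^ b * ((cq b - ε) * A.card) =
      (∑ b ∈ range B, (3 : ℝ) ^ b * cq b) * A.card - ε * (∑ b ∈ range B, (3 : ℝ) ^ b) * A.card := by
    rw [sum_mul, mul_sum, sum_mul, ← sum_sub_distrib]
    exact sum_congr rfl fun b _ => by ring
  rw [h5]
  have hA : (0 : ℝ) ≤ A.card := Nat.cast_nonneg _
  have h6 : ∑ b ∈ range B, (3 : ℝ) ^ b ≤ 3 ^ B := by
    have := geom_sum_eq (show (3 : ℝ) ≠ 1 by norm_num) B
    rw [this]
    have : (0 : ℝ) < 3 ^ B := by positivity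
    linarith
  have h7 := mul_le_mul_of_nonneg_left h6 hε
  have h8 : (2 - 7 / (3 : ℝ) ^ B - ε * 3 ^ B) * A.card ≤
      (∑ b ∈ range B, (3 : ℝ) ^ b * cq b - ε * ∑ b ∈ range B, (3 : ℝ) ^ b) * A.card :=
    mul_le_mul_of_nonneg_right (by linarith) hA
  linarith

theorem Good.mono {E : Type} {B B' : ℕ} {ε ε' : ℝ} {A : Finset E} {g : E → ℕ}
    (h : Good B ε A g) (hB : B' ≤ B) (hε : ε ≤ ε') : Good B' ε' A g := by
  have h1 : ε * A.card ≤ ε' * A.card := mul_le_mul_of_nonneg_right hε (Nat.cast_nonneg _)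
  exact ⟨fun b hb => (h.1 b (lt_of_lt_of_le hb hB)).trans h1, h.2.trans h1⟩

/-- Markov for a sum over the tables -/
theorem markov {α : Type} [Fintype α] {F : α → ℝ} (hF : ∀ a, 0 ≤ F a) {t X : ℝ}
    (hX : ∑ a, F a ≤ X) (Q : α → Prop) (hQ : ∀ a, Q a → t ≤ F a) :
    ((univ.filter Q).card : ℝ) * t ≤ X := by
  refine le_trans ?_ hX
  rw [← nsmul_eq_mul, ← sum_const]
  refine le_trans (sum_le_sum fun a ha => hQ a (mem_filter.1 ha).2) ?_
  exact sum_le_sum_of_subset_of_nonneg (filter_subset _ _) fun a _ _ => hF a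

/-- **The local theorem.** -/
theorem loc (B : ℕ) (ε : ℝ) (hε : 0 < ε) : ∃ R₀ : ℕ, ∀ R : ℕ, R₀ ≤ R →
    ∀ (I : Type) [Fintype I] (J P : Finset I) (ks : I) (G : I → I → ZMod 3) (m : I → ZMod 3)
      (A : Finset (I → ZMod 3)), Dat J P ks G m R → NE I ≤ 3 * A.card →
    ((univ.filter fun α : I → I → ZMod 3 =>
      ¬ Good B ε A (fun e => co (ef P m e) ks (mx J G α))).card : ℝ) ≤ ε * NT I := by
  -- the parameters
  obtain ⟨ε₁, hε₁⟩ : ∃ ε₁, ε₁ = min ε 1 := ⟨_, rfl⟩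
  have hε₁0 : 0 < ε₁ := by rw [hε₁]; exact lt_min hε one_pos
  have hε₁1 : ε₁ ≤ 1 := by rw [hε₁]; exact min_le_right _ _
  have hε₁ε : ε₁ ≤ ε := by rw [hε₁]; exact min_le_left _ _
  obtain ⟨B₂, hB₂⟩ := exists_pow_lt_of_lt_one (show (0 : ℝ) < ε₁ ^ 2 / 56 by positivity)
    (show (1 / 3 : ℝ) < 1 by norm_num)
  obtain ⟨B', hB'⟩ : ∃ B', B' = max B B₂ := ⟨_, rfl⟩
  have hBB : B ≤ B' := hB' ▸ le_max_left _ _
  have h7 : 7 / (3 : ℝ) ^ B' ≤ ε₁ ^ 2 / 8 := by
    have h1 : (1 / 3 : ℝ) ^ B' ≤ (1 / 3) ^ B₂ := pow_le_pow_of_le_one (by norm_num) (by norm_num)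
      (hB' ▸ le_max_right _ _)
    have h2 : 7 / (3 : ℝ) ^ B' = 7 * (1 / 3) ^ B' := by
      rw [one_div, inv_pow]
      rfl
    rw [h2]
    linarith
  obtain ⟨ε', hε'⟩ : ∃ ε' : ℝ, ε' = ε₁ ^ 2 / 8 / 3 ^ B' := ⟨_, rfl⟩
  have hε'0 : 0 < ε' := by rw [hε']; positivity
  have hε'3 : ε' * 3 ^ B' = ε₁ ^ 2 / 8 := by
    rw [hε']
    field_simp
  have hε'1 : ε' ≤ ε₁ := by
    have h1 : (1 : ℝ) ≤ 3 ^ B' := one_le_pow₀ (by norm_num)
    have h2 : ε' ≤ ε' * 3 ^ B' := le_mul_of_one_le_right hε'0.le h1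
    rw [hε'3] at h2
    nlinarith
  obtain ⟨δ, hδ⟩ : ∃ δ : ℝ, δ = ε₁ ^ 2 * ε' ^ 2 / (54 * (B' + 1)) := ⟨_, rfl⟩
  have hδ0 : 0 < δ := by rw [hδ]; positivity
  choose R₁ hR₁ using fun b => second b δ hδ0
  obtain ⟨R₂, hR₂⟩ := exists_pow_lt_of_lt_one (show (0 : ℝ) < ε₁ ^ 2 / 96 by positivity)
    (show (1 / 3 : ℝ) < 1 by norm_num)
  refine ⟨max ((range B').sup R₁) R₂, fun R hR I _ J P ks G m A h hA => ?_⟩
  have hN := NT_pos I
  have hE := NE_pos I
  have hA0 : (0 : ℝ) < A.card := by linarith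
  obtain ⟨a, ha⟩ : ∃ a : ℝ, a = A.card := ⟨_, rfl⟩
  rw [← ha] at hA hA0
  have hR3 : (1 / 3 : ℝ) ^ R ≤ ε₁ ^ 2 / 96 := (pow_le_pow_of_le_one (by norm_num) (by norm_num)
    ((le_max_right _ _).trans hR)).trans hR₂.le
  -- the tables with bad shares
  obtain ⟨S, hS⟩ : ∃ S : ℕ → (I → I → ZMod 3) → ℝ, S = fun b α =>
    ∑ e ∈ A, (one b (co (ef P m e) ks (mx J G α)) - cq b) := ⟨_, rfl⟩
  obtain ⟨Z, hZ⟩ : ∃ Z : (I → I → ZMod 3) → ℝ, Z = fun α =>
    ∑ e ∈ A, (3 : ℝ) ^ co (ef P m e) ks (mx J G α) := ⟨_, rfl⟩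
  obtain ⟨bad, hbad⟩ : ∃ bad : Finset (I → I → ZMod 3), bad =
    univ.filter fun α => ∃ b < B', ε' * a < |S b α| := ⟨_, rfl⟩
  have hb1 : (bad.card : ℝ) ≤ ε₁ ^ 2 / 6 * NT I := by
    have h1 : bad ⊆ (range B').biUnion fun b => univ.filter fun α => ε' * a < |S b α| := by
      intro α hα
      rw [hbad, mem_filter] at hα
      obtain ⟨-, b, hb, h2⟩ := hα
      rw [mem_biUnion]
      exact ⟨b, mem_range.2 hb, mem_filter.2 ⟨mem_univ _, h2⟩⟩
    have h2 : ∀ b ∈ range B', ((univ.filter fun α => ε' * a < |S b α|).card : ℝ) ≤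
        ε₁ ^ 2 / (6 * (B' + 1)) * NT I := by
      intro b hb
      have h3 := hR₁ b R ((le_sup (f := R₁) hb).trans ((le_max_left _ _).trans hR)) I J P ks G m A h
      have h4 := markov (F := fun α => (S b α) ^ 2) (fun α => sq_nonneg _)
        (t := (ε' * a) ^ 2) (X := NT I * (δ * NE I ^ 2)) (by rw [hS]; exact h3)
        (fun α => ε' * a < |S b α|) (fun α hα => by
          rw [← sq_abs (S b α)]
          exact pow_le_pow_left₀ (by positivity) hα.le 2)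
      have h5 : NE I ^ 2 ≤ 9 * a ^ 2 := by nlinarith
      have h6 : NT I * (δ * NE I ^ 2) ≤ (ε₁ ^ 2 / (6 * (B' + 1)) * NT I) * (ε' * a) ^ 2 := by
        calc NT I * (δ * NE I ^ 2) ≤ NT I * (δ * (9 * a ^ 2)) := by gcongr
          _ = (ε₁ ^ 2 / (6 * (B' + 1)) * NT I) * (ε' * a) ^ 2 := by
            rw [hδ]
            field_simp
            ring
      have h7 : (0 : ℝ) < (ε' * a) ^ 2 := by positivity
      exact le_of_mul_le_mul_right (h4.trans h6) h7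
    have h3 : (bad.card : ℝ) ≤ ∑ b ∈ range B',
        ((univ.filter fun α => ε' * a < |S b α|).card : ℝ) := by
      have h4 := (card_le_card h1).trans card_biUnion_le
      exact_mod_cast h4
    refine h3.trans ((sum_le_sum h2).trans ?_)
    rw [sum_const, card_range, nsmul_eq_mul]
    have h4 : (B' : ℝ) * (ε₁ ^ 2 / (6 * (B' + 1)) * NT I) =
        (B' / (B' + 1)) * (ε₁ ^ 2 / 6 * NT I) := by
      field_simp
    rw [h4]
    refine mul_le_of_le_one_left (by positivity) ?_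
    rw [div_le_one (by positivity)]
    linarith
  -- the lower bound for the mean
  have hlow : ∀ α, α ∉ bad → (2 - ε₁ ^ 2 / 4) * a ≤ Z α := by
    intro α hα
    rw [hbad, mem_filter, not_and] at hα
    have h1 := hα (mem_univ _)
    push Not at h1
    have h2 := low_mean (A := A) (g := fun e => co (ef P m e) ks (mx J G α)) hε'0.le (B := B')
      (fun b hb => by
        have h3 := h1 b hb
        rw [hS] at h3
        rw [← ha]
        exact h3)
    rw [← ha, hε'3] at h2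
    rw [hZ]
    refine le_trans (mul_le_mul_of_nonneg_right ?_ hA0.le) h2
    linarith
  -- the upper bound
  have hup : ((univ.filter fun α => α ∉ bad ∧ (2 + ε₁) * a < Z α).card : ℝ) * (ε₁ * a) ≤
      NT I * a * (ε₁ ^ 2 / 2) + 2 * a * bad.card := by
    have h1 := first h A
    have h2 : ∑ α, Z α ≤ NT I * (2 * a + ε₁ ^ 2 / 4 * a) := by
      rw [hZ]
      refine h1.trans (mul_le_mul_of_nonneg_left ?_ hN.le)
      rw [← ha]
      have h3 : NE I * (1 / 3) ^ R ≤ (3 * a) * (ε₁ ^ 2 / 96) :=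
        mul_le_mul hA hR3 (by positivity) (by positivity)
      linarith
    have hF : ∀ α, 0 ≤ (if α ∈ bad then 0 else Z α - (2 - ε₁ ^ 2 / 4) * a) := by
      intro α
      split_ifs with h3
      · exact le_rfl
      · linarith [hlow α h3]
    have h3 : ∑ α, (if α ∈ bad then 0 else Z α - (2 - ε₁ ^ 2 / 4) * a) ≤
        NT I * a * (ε₁ ^ 2 / 2) + 2 * a * bad.card := by
      have h4 : ∀ α, (if α ∈ bad then 0 else Z α - (2 - ε₁ ^ 2 / 4) * a) ≤
          (Z α - (2 - ε₁ ^ 2 / 4) * a) + if α ∈ bad then 2 * a else 0 := by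
        intro α
        have hZ0 : 0 ≤ Z α := by
          rw [hZ]
          exact sum_nonneg fun e _ => by positivity
        split_ifs
        · have : 0 ≤ ε₁ ^ 2 / 4 * a := by positivity
          linarith
        · linarith
      refine (sum_le_sum fun α _ => h4 α).trans ?_
      rw [sum_add_distrib, sum_sub_distrib, sum_const, card_univ, nsmul_eq_mul, ← sum_filter,
        sum_const, nsmul_eq_mul]
      have h5 : (univ.filter fun α => α ∈ bad) = bad := by ext; simp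
      rw [h5]
      have h6 : (Fintype.card (I → I → ZMod 3) : ℝ) = NT I := rfl
      rw [h6]
      nlinarith
    have h4 := markov hF (t := ε₁ * a) h3
      (fun α => α ∉ bad ∧ (2 + ε₁) * a < Z α) (fun α hα => by
        rw [if_neg hα.1]
        have : 0 ≤ ε₁ ^ 2 / 4 * a := by positivity
        linarith [hα.2])
    refine le_trans (le_of_eq ?_) h4
    congr 2
    exact fcc
  have hb2 : ((univ.filter fun α => α ∉ bad ∧ (2 + ε₁) * a < Z α).card : ℝ) ≤
      5 / 6 * ε₁ * NT I := by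
    have h1 : NT I * a * (ε₁ ^ 2 / 2) + 2 * a * bad.card ≤ (5 / 6 * ε₁ * NT I) * (ε₁ * a) := by
      have h2 := mul_le_mul_of_nonneg_left hb1 (show (0 : ℝ) ≤ 2 * a by positivity)
      nlinarith
    exact le_of_mul_le_mul_right (hup.trans h1) (by positivity)
  -- the conclusion
  have hfin : (univ.filter fun α : I → I → ZMod 3 =>
      ¬ Good B ε A (fun e => co (ef P m e) ks (mx J G α))) ⊆
      bad ∪ univ.filter fun α => α ∉ bad ∧ (2 + ε₁) * a < Z α := by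
    intro α hα
    rw [mem_filter] at hα
    rw [mem_union, mem_filter]
    by_contra hc
    rw [not_or, not_and] at hc
    obtain ⟨c1, c2⟩ := hc
    have c3 := c2 (mem_univ _)
    rw [not_and] at c3
    have c4 := not_lt.1 (c3 c1)
    apply hα.2
    refine Good.mono (B := B') (ε := ε₁) ⟨fun b hb => ?_, ?_⟩ hBB hε₁ε
    · rw [hbad, mem_filter, not_and] at c1
      have h1 := c1 (mem_univ _)
      push Not at h1
      have h2 := h1 b hb
      rw [hS] at h2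
      rw [← ha]
      exact h2.trans (mul_le_mul_of_nonneg_right hε'1 hA0.le)
    · have h1 := hlow α c1
      rw [hZ] at h1 c4
      simp only at h1 c4
      rw [← ha, abs_le]
      have h2 : ε₁ ^ 2 / 4 * a ≤ ε₁ * a := mul_le_mul_of_nonneg_right (by nlinarith) hA0.le
      constructor <;> linarith
  have h1 : ((univ.filter fun α : I → I → ZMod 3 =>
      ¬ Good B ε A (fun e => co (ef P m e) ks (mx J G α))).card : ℝ) ≤
      (bad.card : ℝ) + ((univ.filter fun α => α ∉ bad ∧ (2 + ε₁) * a < Z α).card : ℝ) := by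
    have h2 := (card_le_card hfin).trans (card_union_le _ _)
    exact_mod_cast h2
  have h2 : ε₁ ^ 2 / 6 * NT I + 5 / 6 * ε₁ * NT I ≤ ε * NT I := by
    have : ε₁ ^ 2 / 6 + 5 / 6 * ε₁ ≤ ε := by nlinarith
    nlinarith
  linarith

end Q283.ND
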