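import Pool.Agent.Q283.ND.Lr

/-! Pairs of exponents: the covariance of the indicators of the coranks, and the first moments -/

set_option autoImplicit false
set_option linter.unusedSectionVars false

open scoped Classical

namespace Q283.ND

open Finset Module

section pr
variable {I : Type} [Fintype I] {J : Finset I} {f f' : I → ZMod 3} {ks : I}
  {G : I → I → ZMod 3} {C : Finset I}

/-- the corank -/
noncomputable def co (f : I → ZMod 3) (ks : I) (L : I → I → ZMod 3) : ℕ :=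
  finrank (ZMod 3) (Sy f ks ∅ L)

/-- the indicator -/
noncomputable def one (b n : ℕ) : ℝ := if n = b then 1 else 0

theorem one_ge (b n : ℕ) : 0 ≤ one b n := by
  unfold one
  split_ifs <;> norm_num

theorem one_le (b n : ℕ) : one b n ≤ 1 := by
  unfold one
  split_ifs <;> norm_num

theorem sum_one {A : Type} [Fintype A] (b : ℕ) (g : A → ℕ) :
    ∑ a, one b (g a) = ((univ.filter fun a => g a = b).card : ℝ) := by
  unfold one
  rw [← sum_filter, sum_const, nsmul_eq_mul, mul_one]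

theorem cb_ge (s b : ℕ) : 0 ≤ cb s b := by
  unfold cb
  positivity

theorem co_rs (β α : I → I → ZMod 3) (h : ∀ i ∈ C, i ∈ J → f' i = 0) (hC : C ⊆ J) :
    co f' ks (mx J G (rs C α β)) = co f' ks (mx J G α) := by
  unfold co
  rw [Sy_congr]
  intro i _ hi
  have hiC : i ∉ C := fun h' => hi (h i h' (hC h'))
  funext j
  unfold mx rs
  rw [if_neg hiC]

/-- the mean over the resampled rows -/
theorem inner_abs (hks : ks ∉ J) (hf : f ks ≠ 0) (hC : C ⊆ sp J f)
    (hw : ∀ w : I → ZMod 3, (∀ i ∈ J, w i = 0) → w ≠ 0 →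
      ∃ i ∈ sp J f \ C, ∑ u, w u * G i u ≠ 0) (b : ℕ) {q : ℝ} (hq0 : 0 ≤ q) (hq1 : q ≤ 1)
    (α : I → I → ZMod 3) :
    |∑ β : I → I → ZMod 3, (one b (co f ks (mx J G (rs C α β))) - q)| ≤
      Fintype.card (I → I → ZMod 3) * |cb C.card b - q| +
      Fintype.card (I → I → ZMod 3) *
        (if finrank (ZMod 3) (Sy f ks C (mx J G α)) ≠ C.card then 1 else 0) := by
  have hN : (0 : ℝ) ≤ Fintype.card (I → I → ZMod 3) := Nat.cast_nonneg _
  by_cases h : finrank (ZMod 3) (Sy f ks C (mx J G α)) ≠ C.card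
  · rw [if_pos h, mul_one]
    refine le_trans ?_ (le_add_of_nonneg_left (mul_nonneg hN (abs_nonneg _)))
    refine (abs_sum_le_sum_abs _ _).trans ?_
    have h1 : ∀ β ∈ (univ : Finset (I → I → ZMod 3)),
        |one b (co f ks (mx J G (rs C α β))) - q| ≤ 1 := by
      intro β _
      have h2 := one_ge b (co f ks (mx J G (rs C α β)))
      have h3 := one_le b (co f ks (mx J G (rs C α β)))
      rw [abs_le]
      constructor <;> linarith
    refine (sum_le_sum h1).trans (le_of_eq ?_)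
    rw [sum_const, card_univ, nsmul_eq_mul, mul_one]
  · rw [not_not] at h
    rw [if_neg (not_not.2 h), mul_zero, add_zero]
    have h1 := cond hks hf hC hw h b
    have h2 : ∑ β : I → I → ZMod 3, one b (co f ks (mx J G (rs C α β))) =
        Fintype.card (I → I → ZMod 3) * cb C.card b := by
      rw [sum_one, ← h1]
      exact congrArg Nat.cast fcc
    rw [sum_sub_distrib, h2, sum_const, card_univ, nsmul_eq_mul, ← mul_sub, abs_mul,
      abs_of_nonneg hN]

theorem cb_le_of (hks : ks ∉ J) (hf : f ks ≠ 0) (hC : C ⊆ sp J f)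
    (hw : ∀ w : I → ZMod 3, (∀ i ∈ J, w i = 0) → w ≠ 0 →
      ∃ i ∈ sp J f \ C, ∑ u, w u * G i u ≠ 0) (b : ℕ) (α : I → I → ZMod 3)
    (h : finrank (ZMod 3) (Sy f ks C (mx J G α)) = C.card) : cb C.card b ≤ 1 := by
  have h1 := cond hks hf hC hw h b
  have h2 : ((univ.filter fun β : I → I → ZMod 3 =>
      finrank (ZMod 3) (Sy f ks ∅ (mx J G (rs C α β))) = b).card : ℝ) ≤
      Fintype.card (I → I → ZMod 3) := by
    exact_mod_cast card_le_univ _
  rw [h1] at h2
  have hN : (0 : ℝ) < Fintype.card (I → I → ZMod 3) := by exact_mod_cast Fintype.card_pos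
  by_contra h3
  rw [not_le] at h3
  nlinarith

/-- the number of the bad tables, in real form -/
theorem few_real (hks : ks ∉ J) (hf : f ks ≠ 0) (hC : C ⊆ sp J f)
    (hw : ∀ w : I → ZMod 3, (∀ i ∈ J, w i = 0) → w ≠ 0 →
      ∃ i ∈ sp J f \ C, ∑ u, w u * G i u ≠ 0)
    (hv : ∀ v : I → ZMod 3, (∀ i ∈ J, v i = 0) → v ks = 0 → v ≠ 0 →
      ∃ j ∈ sp J f, ∑ u, v u * G u j ≠ 0) :
    ∑ α : I → I → ZMod 3,
      (if finrank (ZMod 3) (Sy f ks C (mx J G α)) ≠ C.card then (1 : ℝ) else 0) ≤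
      Fintype.card (I → I → ZMod 3) * (1 / 3) ^ C.card := by
  have h1 := few hks hf hC hw hv
  rw [← sum_filter, sum_const, nsmul_eq_mul, mul_one, one_div, inv_pow,
    ← div_eq_mul_inv, le_div_iff₀ (by positivity)]
  have h2 : (((univ.filter fun α : I → I → ZMod 3 =>
      finrank (ZMod 3) (Sy f ks C (mx J G α)) ≠ C.card).card * (2 * 3 ^ C.card) : ℕ) : ℝ) ≤
      (Fintype.card (I → I → ZMod 3) : ℝ) := by exact_mod_cast h1
  push_cast at h2
  have h3 : (0 : ℝ) ≤ ((univ.filter fun α : I → I → ZMod 3 =>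
      finrank (ZMod 3) (Sy f ks C (mx J G α)) ≠ C.card).card : ℝ) * 3 ^ C.card := by positivity
  nlinarith

/-- **The covariance.** -/
theorem pair (hks : ks ∉ J) (hf : f ks ≠ 0)
    (hw : ∀ w : I → ZMod 3, (∀ i ∈ J, w i = 0) → w ≠ 0 →
      ∃ i ∈ sp J f ∩ sp J f', ∑ u, w u * G i u ≠ 0)
    (hv : ∀ v : I → ZMod 3, (∀ i ∈ J, v i = 0) → v ks = 0 → v ≠ 0 →
      ∃ j ∈ sp J f, ∑ u, v u * G u j ≠ 0) (b : ℕ) {q : ℝ} (hq0 : 0 ≤ q) (hq1 : q ≤ 1) :
    |∑ α : I → I → ZMod 3, (one b (co f ks (mx J G α)) - q) * (one b (co f' ks (mx J G α)) - q)| ≤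
      Fintype.card (I → I → ZMod 3) *
        (|cb (sp J f \ sp J f').card b - q| + (1 / 3) ^ (sp J f \ sp J f').card) := by
  obtain ⟨C, hCd⟩ : ∃ C, C = sp J f \ sp J f' := ⟨_, rfl⟩
  obtain ⟨N, hN⟩ : ∃ N : ℝ, N = Fintype.card (I → I → ZMod 3) := ⟨_, rfl⟩
  have hN0 : 0 < N := by
    rw [hN]
    exact_mod_cast Fintype.card_pos
  have hC : C ⊆ sp J f := by rw [hCd]; exact sdiff_subset
  have hw' : ∀ w : I → ZMod 3, (∀ i ∈ J, w i = 0) → w ≠ 0 →
      ∃ i ∈ sp J f \ C, ∑ u, w u * G i u ≠ 0 := by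
    intro w h1 h2
    obtain ⟨i, hi, h3⟩ := hw w h1 h2
    rw [mem_inter] at hi
    exact ⟨i, by rw [hCd, mem_sdiff, mem_sdiff]; exact ⟨hi.1, fun h => h.2 hi.2⟩, h3⟩
  rw [← hCd, ← hN]
  have h1 := sum_rs C (fun α => (one b (co f ks (mx J G α)) - q) *
    (one b (co f' ks (mx J G α)) - q))
  have h2 : ∀ α : I → I → ZMod 3, ∑ β : I → I → ZMod 3,
      (one b (co f ks (mx J G (rs C α β))) - q) * (one b (co f' ks (mx J G (rs C α β))) - q) =
      (∑ β : I → I → ZMod 3, (one b (co f ks (mx J G (rs C α β))) - q)) *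
        (one b (co f' ks (mx J G α)) - q) := by
    intro α
    rw [sum_mul]
    refine sum_congr rfl fun β _ => ?_
    rw [co_rs (f' := f') β α (fun i hi hiJ => ?_) (hC.trans (filter_subset _ _))]
    rw [hCd, mem_sdiff, mem_sp (f := f')] at hi
    by_contra h
    exact hi.2 ⟨hiJ, h⟩
  rw [sum_congr rfl fun α _ => h2 α, ← hN] at h1
  have h3 : N * |∑ α : I → I → ZMod 3, (one b (co f ks (mx J G α)) - q) *
      (one b (co f' ks (mx J G α)) - q)| ≤ N * (N * (|cb C.card b - q| + (1 / 3) ^ C.card)) := by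
    have e : N * |∑ α : I → I → ZMod 3, (one b (co f ks (mx J G α)) - q) *
      (one b (co f' ks (mx J G α)) - q)| = |N * ∑ α : I → I → ZMod 3,
        (one b (co f ks (mx J G α)) - q) * (one b (co f' ks (mx J G α)) - q)| := by
      rw [abs_mul, abs_of_pos hN0]
    rw [e, ← h1]
    refine (abs_sum_le_sum_abs _ _).trans ?_
    have h4 : ∀ α ∈ (univ : Finset (I → I → ZMod 3)),
        |(∑ β : I → I → ZMod 3, (one b (co f ks (mx J G (rs C α β))) - q)) *
        (one b (co f' ks (mx J G α)) - q)| ≤ N * |cb C.card b - q| +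
          N * (if finrank (ZMod 3) (Sy f ks C (mx J G α)) ≠ C.card then 1 else 0) := by
      intro α _
      rw [abs_mul]
      have h5 := inner_abs hks hf hC hw' b hq0 hq1 α
      rw [← hN] at h5
      have h6 : |one b (co f' ks (mx J G α)) - q| ≤ 1 := by
        have h2 := one_ge b (co f' ks (mx J G α))
        have h3 := one_le b (co f' ks (mx J G α))
        rw [abs_le]
        constructor <;> linarith
      calc _ ≤ |∑ β : I → I → ZMod 3, (one b (co f ks (mx J G (rs C α β))) - q)| * 1 :=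
            mul_le_mul_of_nonneg_left h6 (abs_nonneg _)
        _ ≤ _ := by rw [mul_one]; exact h5
    refine (sum_le_sum h4).trans ?_
    rw [sum_add_distrib, sum_const, card_univ, nsmul_eq_mul, ← hN, ← mul_sum]
    have h5 := few_real hks hf hC hw' hv
    rw [← hN] at h5
    have h6 := mul_le_mul_of_nonneg_left h5 hN0.le
    linarith
  exact le_of_mul_le_mul_left h3 hN0

/-- the mean of one indicator -/
theorem single (hks : ks ∉ J) (hf : f ks ≠ 0) (hC : C ⊆ sp J f)
    (hw : ∀ w : I → ZMod 3, (∀ i ∈ J, w i = 0) → w ≠ 0 →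
      ∃ i ∈ sp J f \ C, ∑ u, w u * G i u ≠ 0)
    (hv : ∀ v : I → ZMod 3, (∀ i ∈ J, v i = 0) → v ks = 0 → v ≠ 0 →
      ∃ j ∈ sp J f, ∑ u, v u * G u j ≠ 0) (b : ℕ) {q : ℝ} (hq0 : 0 ≤ q) (hq1 : q ≤ 1)
    (hq : cb C.card b = q) :
    |∑ α : I → I → ZMod 3, (one b (co f ks (mx J G α)) - q)| ≤
      Fintype.card (I → I → ZMod 3) * (1 / 3) ^ C.card := by
  obtain ⟨N, hN⟩ : ∃ N : ℝ, N = Fintype.card (I → I → ZMod 3) := ⟨_, rfl⟩
  have hN0 : 0 < N := by
    rw [hN]
    exact_mod_cast Fintype.card_pos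
  have h1 := sum_rs C (fun α => one b (co f ks (mx J G α)) - q)
  rw [← hN] at h1 ⊢
  have h3 : N * |∑ α : I → I → ZMod 3, (one b (co f ks (mx J G α)) - q)| ≤
      N * (N * (1 / 3) ^ C.card) := by
    have e : N * |∑ α : I → I → ZMod 3, (one b (co f ks (mx J G α)) - q)| =
        |N * ∑ α : I → I → ZMod 3, (one b (co f ks (mx J G α)) - q)| := by
      rw [abs_mul, abs_of_pos hN0]
    rw [e, ← h1]
    refine (abs_sum_le_sum_abs _ _).trans ?_
    refine (sum_le_sum fun α _ => inner_abs hks hf hC hw b hq0 hq1 α).trans ?_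
    rw [sum_add_distrib, hq, sub_self, abs_zero, mul_zero, sum_const_zero, zero_add, ← hN,
      ← mul_sum]
    have h5 := few_real hks hf hC hw hv
    rw [← hN] at h5
    exact mul_le_mul_of_nonneg_left h5 hN0.le
  exact le_of_mul_le_mul_left h3 hN0

/-- the first moment of `3 ^ corank` -/
theorem mom_co (hks : ks ∉ J) (hf : f ks ≠ 0)
    (hw : ∀ w : I → ZMod 3, (∀ i ∈ J, w i = 0) → w ≠ 0 →
      ∃ i ∈ sp J f, ∑ u, w u * G i u ≠ 0)
    (hv : ∀ v : I → ZMod 3, (∀ i ∈ J, v i = 0) → v ks = 0 → v ≠ 0 →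
      ∃ j ∈ sp J f, ∑ u, v u * G u j ≠ 0) :
    ∑ α : I → I → ZMod 3, 3 ^ co f ks (mx J G α) ≤ Fintype.card (I → I → ZMod 3) * 2 := by
  have h := mom (C := ∅) hks hf (empty_subset _) (fun w h1 h2 => by
    obtain ⟨i, hi, h3⟩ := hw w h1 h2
    exact ⟨i, by rw [sdiff_empty]; exact hi, h3⟩) hv
  rw [card_empty, pow_zero] at h
  exact h

/-- the first moment in general -/
theorem mom_all (hks : ks ∉ J) :
    ∑ α : I → I → ZMod 3, 3 ^ co f ks (mx J G α) ≤
      Fintype.card (I → I → ZMod 3) * (4 * 3 ^ Jᶜ.card) := by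
  obtain ⟨N, hN⟩ : ∃ N, N = Fintype.card (I → I → ZMod 3) := ⟨_, rfl⟩
  obtain ⟨k, hk⟩ : ∃ k, k = (sp J f).card := ⟨_, rfl⟩
  have e1 : ∑ α : I → I → ZMod 3, 3 ^ co f ks (mx J G α) =
      ∑ x : I → ZMod 3, (univ.filter fun α => x ∈ Sy f ks ∅ (mx J G α)).card := by
    have e2 : ∀ α : I → I → ZMod 3, 3 ^ co f ks (mx J G α) =
        ∑ x : I → ZMod 3, if x ∈ Sy f ks ∅ (mx J G α) then 1 else 0 := by
      intro α
      unfold co
      rw [← sc_eq, card_filter]
    rw [sum_congr rfl fun α _ => e2 α, sum_comm]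
    exact sum_congr rfl fun x _ => (card_filter _ _).symm
  -- the vectors with support in the support
  obtain ⟨E, hE⟩ : ∃ E : Finset (I → ZMod 3), E = univ.filter fun x => ∀ i, f i = 0 → x i = 0 :=
    ⟨_, rfl⟩
  have hEc : E.card ≤ 3 ^ Jᶜ.card * 3 ^ k := by
    have h1 : E ⊆ Fintype.piFinset fun i => if i ∈ Jᶜ ∪ sp J f then univ else {0} := by
      intro x hx
      rw [hE, mem_filter] at hx
      rw [Fintype.mem_piFinset]
      intro i
      split_ifs with h
      · exact mem_univ _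
      · rw [mem_union, mem_compl, mem_sp, not_or, not_not] at h
        rw [mem_singleton]
        apply hx.2
        by_contra h'
        exact h.2 ⟨h.1, h'⟩
    refine (card_le_card h1).trans ?_
    rw [Fintype.card_piFinset]
    have h2 : ∀ i, (if i ∈ Jᶜ ∪ sp J f then (univ : Finset (ZMod 3)) else {0}).card =
        if i ∈ Jᶜ ∪ sp J f then 3 else 1 := by
      intro i
      split_ifs
      · rw [card_univ, ZMod.card]
      · rw [card_singleton]
    rw [prod_congr rfl fun i _ => h2 i, prod_ite, prod_const_one, mul_one, prod_const, ← pow_add]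
    refine Nat.pow_le_pow_right (by norm_num) ?_
    have h3 : (univ.filter fun i => i ∈ Jᶜ ∪ sp J f) = Jᶜ ∪ sp J f := by ext; simp
    rw [h3, hk]
    exact card_union_le _ _
  -- the constant ones
  obtain ⟨D, hD⟩ : ∃ D : Finset (I → ZMod 3), D = E.filter fun x => ∃ t, ∀ j ∈ sp J f, x j = t :=
    ⟨_, rfl⟩
  have hDc : D.card ≤ 3 ^ Jᶜ.card * 3 := by
    have h1 : D ⊆ ((univ : Finset ((↥(Jᶜ : Finset I) → ZMod 3) × ZMod 3))).image fun y i =>
        if h : i ∈ Jᶜ then y.1 ⟨i, h⟩ else if f i = 0 then 0 else y.2 := by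
      intro x hx
      rw [hD, hE, mem_filter, mem_filter] at hx
      obtain ⟨⟨-, h2⟩, t, ht⟩ := hx
      rw [mem_image]
      refine ⟨(fun i => x i, t), mem_univ _, ?_⟩
      funext i
      simp only
      split_ifs with h3 h4
      · rfl
      · exact (h2 i h4).symm
      · rw [mem_compl, not_not] at h3
        exact (ht i (mem_sp.2 ⟨h3, h4⟩)).symm
    refine (card_le_card h1).trans (card_image_le.trans (le_of_eq ?_))
    rw [card_univ, Fintype.card_prod, Fintype.card_fun, ZMod.card, Fintype.card_coe]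
  rw [e1, ← hN]
  have h2 : ∀ x : I → ZMod 3, (univ.filter fun α => x ∈ Sy f ks ∅ (mx J G α)).card * 3 ^ k ≤
      (if x ∈ D then N * 3 ^ k else 0) + (if x ∈ E then N else 0) := by
    intro x
    by_cases hxE : x ∈ E
    swap
    · have : (univ.filter fun α => x ∈ Sy f ks ∅ (mx J G α)).card = 0 := by
        rw [card_eq_zero, filter_eq_empty_iff]
        intro α _ h
        apply hxE
        rw [hE, mem_filter]
        exact ⟨mem_univ _, h.1⟩
      rw [this, zero_mul]
      exact Nat.zero_le _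
    by_cases hxD : x ∈ D
    · rw [if_pos hxD]
      refine le_trans (Nat.mul_le_mul_right _ ?_) (Nat.le_add_right _ _)
      rw [hN]
      exact card_le_univ _
    · rw [if_neg hxD, if_pos hxE, zero_add]
      have hc : ¬ ∃ t, ∀ j ∈ sp J f, x j = t := by
        intro h
        exact hxD (by rw [hD, mem_filter]; exact ⟨hxE, h⟩)
      rw [hN, ← card_rows (G := G) (K := sp J f) (Finset.Subset.refl _) hc, ← hk]
      refine Nat.mul_le_mul_right _ (card_le_card fun α hα => ?_)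
      rw [mem_filter, mem_Sy] at hα
      rw [mem_filter]
      exact ⟨mem_univ _, fun i hi => hα.2.2.2 i (fun h => hks (h ▸ (mem_sp.1 hi).1))
        (notMem_empty _)⟩
  have h3 : (∑ x : I → ZMod 3, (univ.filter fun α => x ∈ Sy f ks ∅ (mx J G α)).card) * 3 ^ k ≤
      (3 ^ Jᶜ.card * 3) * (N * 3 ^ k) + (3 ^ Jᶜ.card * 3 ^ k) * N := by
    rw [sum_mul]
    refine (sum_le_sum fun x _ => h2 x).trans ?_
    rw [sum_add_distrib, ← sum_filter, ← sum_filter, sum_const, sum_const, smul_eq_mul,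
      smul_eq_mul]
    have e3 : (univ.filter fun x => x ∈ D) = D := by ext; simp
    have e4 : (univ.filter fun x => x ∈ E) = E := by ext; simp
    rw [e3, e4]
    gcongr
  have h4 : (∑ x : I → ZMod 3, (univ.filter fun α => x ∈ Sy f ks ∅ (mx J G α)).card) * 3 ^ k ≤
      (N * (4 * 3 ^ Jᶜ.card)) * 3 ^ k := by
    refine h3.trans (le_of_eq ?_)
    ring
  exact Nat.le_of_mul_le_mul_right h4 (by positivity)

end pr

end Q283.ND
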