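import Pool.Agent.Q283.ND.La

/-! Random tables: resampling, the first moment, the conditional law -/

set_option autoImplicit false
set_option linter.unusedSectionVars false

open scoped Classical

namespace Q283.ND

open Finset Module

theorem fcc {α : Type} {s : Finset α} {P : α → Prop} {i1 i2 : DecidablePred P} :
    (@Finset.filter α P i1 s).card = (@Finset.filter α P i2 s).card := by
  congr

/-! ### the number of tuples of functionals with given common kernel -/

section kr
variable {V : Type} [AddCommGroup V] [Module (ZMod 3) V] {K : Type}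

/-- the common kernel -/
def Kr (g : K → Module.Dual (ZMod 3) V) : Submodule (ZMod 3) V where
  carrier := {x | ∀ i, g i x = 0}
  add_mem' := by
    intro x y h1 h2 i
    rw [map_add, h1 i, h2 i, add_zero]
  zero_mem' := fun i => map_zero _
  smul_mem' := by
    intro a x h i
    rw [map_smul, h i, smul_zero]

theorem mem_Kr {g : K → Module.Dual (ZMod 3) V} {x : V} : x ∈ Kr g ↔ ∀ i, g i x = 0 := Iff.rfl

end kr

/-- the number of the square systems with given corank -/
noncomputable def nm (s b : ℕ) : ℕ :=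
  Nat.card {g : Fin s → Module.Dual (ZMod 3) (Fin s → ZMod 3) // finrank (ZMod 3) (Kr g) = b}

/-- the law of the corank of a square matrix -/
noncomputable def cb (s b : ℕ) : ℝ := (nm s b : ℝ) / 3 ^ (s * s)

theorem nm_eq {V : Type} [AddCommGroup V] [Module (ZMod 3) V] [Module.Finite (ZMod 3) V]
    {K : Type} [Fintype K] {s : ℕ}
    (hV : finrank (ZMod 3) V = s) (hK : Fintype.card K = s) (b : ℕ) :
    Nat.card {g : K → Module.Dual (ZMod 3) V // finrank (ZMod 3) (Kr g) = b} = nm s b := by
  obtain ⟨θ⟩ : Nonempty (V ≃ₗ[ZMod 3] (Fin s → ZMod 3)) :=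
    FiniteDimensional.nonempty_linearEquiv_of_finrank_eq (by rw [hV, finrank_fintype_fun_eq_card,
      Fintype.card_fin])
  obtain ⟨ε⟩ : Nonempty (K ≃ Fin s) := ⟨Fintype.equivFinOfCardEq hK⟩
  unfold nm
  refine Nat.card_congr (Equiv.subtypeEquiv ?_ ?_)
  · exact (Equiv.arrowCongr ε θ.dualMap.symm.toEquiv)
  · intro g
    have h : (Kr g).map (θ : V →ₗ[ZMod 3] (Fin s → ZMod 3)) =
        Kr (Equiv.arrowCongr ε θ.dualMap.symm.toEquiv g) := by
      ext y
      rw [Submodule.mem_map, mem_Kr]
      constructor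
      · rintro ⟨x, hx, rfl⟩ i
        show (θ.dualMap.symm (g (ε.symm i))) (θ x) = 0
        have h1 : θ.dualMap.symm (g (ε.symm i)) (θ x) = g (ε.symm i) x := by
          have h2 := congrFun (congrArg DFunLike.coe (θ.dualMap.apply_symm_apply (g (ε.symm i)))) x
          exact h2
        rw [h1]
        exact hx _
      · intro hy
        refine ⟨θ.symm y, fun i => ?_, by simp⟩
        have h1 := hy (ε i)
        have h3 : (Equiv.arrowCongr ε θ.dualMap.symm.toEquiv g) (ε i) = θ.dualMap.symm (g i) := by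
          show θ.dualMap.symm (g (ε.symm (ε i))) = _
          rw [ε.symm_apply_apply]
        rw [h3] at h1
        have h2 := congrFun (congrArg DFunLike.coe (θ.dualMap.apply_symm_apply (g i))) (θ.symm y)
        have h4 : θ.dualMap (θ.dualMap.symm (g i)) (θ.symm y) =
          θ.dualMap.symm (g i) (θ (θ.symm y)) := rfl
        rw [h4, θ.apply_symm_apply, h1] at h2
        exact h2.symm
    rw [← h, LinearEquiv.finrank_map_eq]

/-! ### tables -/

section tab
variable {I : Type} [Fintype I] {J : Finset I} {f : I → ZMod 3} {ks : I}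
  {G : I → I → ZMod 3} {C : Finset I}

/-- the table with random entries in `J × J` -/
noncomputable def mx (J : Finset I) (G α : I → I → ZMod 3) : I → I → ZMod 3 :=
  fun i j => if i ∈ J ∧ j ∈ J then α i j else G i j

/-- the support -/
noncomputable def sp (J : Finset I) (f : I → ZMod 3) : Finset I := J.filter fun i => f i ≠ 0

theorem mem_sp {i : I} : i ∈ sp J f ↔ i ∈ J ∧ f i ≠ 0 := by
  unfold sp
  rw [mem_filter]

/-- resampling of the rows in `C` -/
noncomputable def rs (C : Finset I) (α β : I → I → ZMod 3) : I → I → ZMod 3 :=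
  fun i => if i ∈ C then β i else α i

theorem rs_rs (C : Finset I) (α β : I → I → ZMod 3) : rs C (rs C α β) (rs C β α) = α := by
  funext i
  unfold rs
  split_ifs <;> rfl

/-- the sum over the resampled tables -/
theorem sum_rs (C : Finset I) (F : (I → I → ZMod 3) → ℝ) :
    ∑ α : I → I → ZMod 3, ∑ β : I → I → ZMod 3, F (rs C α β) =
      (Fintype.card (I → I → ZMod 3) : ℝ) * ∑ α : I → I → ZMod 3, F α := by
  have h1 : ∑ x : (I → I → ZMod 3) × (I → I → ZMod 3), F (rs C x.1 x.2) =
      ∑ x : (I → I → ZMod 3) × (I → I → ZMod 3), F x.1 := by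
    refine Finset.sum_bij (fun x _ => (rs C x.1 x.2, rs C x.2 x.1)) (fun _ _ => mem_univ _) ?_ ?_
      fun _ _ => rfl
    · intro x _ y _ h
      simp only [Prod.mk.injEq] at h
      refine Prod.ext ?_ ?_
      · rw [← rs_rs C x.1 x.2, ← rs_rs C y.1 y.2, h.1, h.2]
      · rw [← rs_rs C x.2 x.1, ← rs_rs C y.2 y.1, h.1, h.2]
    · intro y _
      exact ⟨(rs C y.1 y.2, rs C y.2 y.1), mem_univ _, Prod.ext (rs_rs C _ _) (rs_rs C _ _)⟩
  rw [Fintype.sum_prod_type, Fintype.sum_prod_type] at h1
  rw [h1]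
  simp only [sum_const, card_univ, nsmul_eq_mul]
  rw [← mul_sum]

/-- a vector that is constant on the support -/
theorem const_zero (hks : ks ∉ J) (hf : f ks ≠ 0)
    (hw : ∀ w : I → ZMod 3, (∀ i ∈ J, w i = 0) → w ≠ 0 →
      ∃ i ∈ sp J f \ C, ∑ u, w u * G i u ≠ 0) {α : I → I → ZMod 3} {x : I → ZMod 3} {t : ZMod 3}
    (h1 : ∀ i, f i = 0 → x i = 0) (h2 : x ks = 0)
    (h3 : ∀ i ∈ sp J f \ C, ro f (mx J G α) i x = 0) (h4 : ∀ j ∈ sp J f, x j = t) : x = 0 := by
  obtain ⟨w, hwd⟩ : ∃ w : I → ZMod 3, w = fun u => if u ∈ J then 0 else f u * (x u - t) := ⟨_, rfl⟩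
  have hw0 : w = 0 := by
    by_contra hne
    obtain ⟨i, hi, hi2⟩ := hw w (fun i hi => by rw [hwd]; exact if_pos hi) hne
    have hiA := (mem_sdiff.1 hi).1
    have hiJ := (mem_sp.1 hiA).1
    have h5 := h3 i hi
    unfold ro at h5
    have h6 : ∑ j, f i * f j * mx J G α i j * (x j - x i) = f i * ∑ u, w u * G i u := by
      rw [mul_sum]
      refine sum_congr rfl fun j _ => ?_
      rw [h4 i hiA, hwd]
      simp only
      by_cases hj : j ∈ J
      · rw [if_pos hj]
        by_cases hfj : f j = 0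
        · rw [hfj]; ring
        · rw [h4 j (mem_sp.2 ⟨hj, hfj⟩)]; ring
      · rw [if_neg hj]
        unfold mx
        rw [if_neg (by tauto)]
        ring
    rw [h6] at h5
    exact hi2 ((mul_eq_zero.1 h5).resolve_left (mem_sp.1 hiA).2)
  have h5 : ∀ u, u ∉ J → f u * (x u - t) = 0 := by
    intro u hu
    have h6 := congrFun hw0 u
    rw [hwd] at h6
    simp only [if_neg hu, Pi.zero_apply] at h6
    exact h6
  have ht : t = 0 := by
    have h6 := (mul_eq_zero.1 (h5 ks hks)).resolve_left hf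
    rw [h2, zero_sub, neg_eq_zero] at h6
    exact h6
  funext i
  rw [Pi.zero_apply]
  by_cases hfi : f i = 0
  · exact h1 i hfi
  by_cases hi : i ∈ J
  · rw [h4 i (mem_sp.2 ⟨hi, hfi⟩), ht]
  · have h6 := (mul_eq_zero.1 (h5 i hi)).resolve_left hfi
    rw [ht, sub_zero] at h6
    exact h6

/-- the number of elements -/
theorem sc_eq (V : Submodule (ZMod 3) (I → ZMod 3)) :
    (univ.filter fun x => x ∈ V).card = 3 ^ finrank (ZMod 3) V := by
  have h := Module.card_eq_pow_finrank (K := ZMod 3) (V := V)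
  rw [← Fintype.card_subtype]
  have e : Fintype.card {x // x ∈ V} = Fintype.card V := Fintype.card_congr (Equiv.refl _)
  rw [e, h, ZMod.card]

/-- the linear part of the random rows -/
noncomputable def li (J : Finset I) (f : I → ZMod 3) (K : Finset I) (x : I → ZMod 3) :
    (I → I → ZMod 3) →+ (K → ZMod 3) where
  toFun := fun α i => ∑ j, if j ∈ J then f i * f j * α i j * (x j - x i) else 0
  map_zero' := by
    funext i
    refine sum_eq_zero fun j _ => ?_
    split_ifs
    · simp
    · rfl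
  map_add' := fun α β => by
    funext i
    show _ = (∑ j, if j ∈ J then f i * f j * α i j * (x j - x i) else 0) +
      ∑ j, if j ∈ J then f i * f j * β i j * (x j - x i) else 0
    rw [← sum_add_distrib]
    refine sum_congr rfl fun j _ => ?_
    split_ifs
    · simp only [Pi.add_apply]; ring
    · rw [add_zero]

theorem li_apply (K : Finset I) (x : I → ZMod 3) (α : I → I → ZMod 3) (i : K) :
    li J f K x α i = ∑ j, if j ∈ J then f i * f j * α i j * (x j - x i) else 0 := rfl

theorem ro_mx {α : I → I → ZMod 3} {i : I} (hi : i ∈ J) (x : I → ZMod 3) :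
    ro f (mx J G α) i x = (∑ j, if j ∈ J then f i * f j * α i j * (x j - x i) else 0) +
      ∑ j, if j ∈ J then 0 else f i * f j * G i j * (x j - x i) := by
  unfold ro mx
  rw [← sum_add_distrib]
  refine sum_congr rfl fun j _ => ?_
  by_cases hj : j ∈ J
  · rw [if_pos ⟨hi, hj⟩, if_pos hj, if_pos hj, add_zero]
  · rw [if_neg (by tauto), if_neg hj, if_neg hj, zero_add]

theorem li_surj {K : Finset I} (hK : K ⊆ sp J f) {x : I → ZMod 3}
    (hx : ¬ ∃ t, ∀ j ∈ sp J f, x j = t) : Function.Surjective (li J f K x) := by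
  have h1 : ∀ i : I, ∃ j ∈ sp J f, x j ≠ x i := by
    intro i
    by_contra h
    push Not at h
    exact hx ⟨x i, h⟩
  choose c hc1 hc2 using h1
  intro g
  refine ⟨fun i j => if h : i ∈ K then (if j = c i then g ⟨i, h⟩ * (f i * f j * (x j - x i))⁻¹ else 0)
    else 0, ?_⟩
  funext i
  rw [li_apply, Finset.sum_eq_single (c i)]
  · rw [if_pos (mem_sp.1 (hc1 i)).1, dif_pos i.2, if_pos rfl]
    have h2 : f i * f (c i) * (x (c i) - x i) ≠ 0 :=
      mul_ne_zero (mul_ne_zero (mem_sp.1 (hK i.2)).2 (mem_sp.1 (hc1 i)).2) (sub_ne_zero.2 (hc2 i))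
    calc f i * f (c i) * (g i * (f i * f (c i) * (x (c i) - x i))⁻¹) * (x (c i) - x i)
        = g i * ((f i * f (c i) * (x (c i) - x i))⁻¹ * (f i * f (c i) * (x (c i) - x i))) := by ring
      _ = g i := by rw [inv_mul_cancel₀ h2, mul_one]
  · intro j _ hj
    by_cases hjJ : j ∈ J
    · rw [if_pos hjJ, dif_pos i.2, if_neg hj]
      ring
    · rw [if_neg hjJ]
  · intro h
    exact absurd (mem_univ _) h

/-- the tables with zero rows in `K` at `x` -/
theorem card_rows {K : Finset I} (hK : K ⊆ sp J f) {x : I → ZMod 3}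
    (hx : ¬ ∃ t, ∀ j ∈ sp J f, x j = t) :
    (univ.filter fun α : I → I → ZMod 3 => ∀ i ∈ K, ro f (mx J G α) i x = 0).card * 3 ^ K.card =
      Fintype.card (I → I → ZMod 3) := by
  have h1 := fib (li J f K x) (li_surj hK hx) (fun b => ∀ i : K, b i +
    ∑ j, (if j ∈ J then 0 else f i * f j * G i j * (x j - x i)) = 0)
  have h2 : Nat.card {b : K → ZMod 3 // ∀ i : K, b i +
      ∑ j, (if j ∈ J then 0 else f i * f j * G i j * (x j - x i)) = 0} = 1 := by
    rw [Nat.card_eq_one_iff_unique]
    refine ⟨⟨?_⟩, ⟨⟨fun i => - ∑ j, (if j ∈ J then 0 else f i * f j * G i j * (x j - x i)),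
      fun i => by rw [neg_add_cancel]⟩⟩⟩
    rintro ⟨b, hb⟩ ⟨b', hb'⟩
    apply Subtype.ext
    funext i
    exact (eq_neg_of_add_eq_zero_left (hb i)).trans (eq_neg_of_add_eq_zero_left (hb' i)).symm
  rw [h2, one_mul, Nat.card_fun, Nat.card_zmod, Nat.card_eq_fintype_card (α := K),
    Fintype.card_coe, Nat.card_eq_fintype_card (α := I → I → ZMod 3)] at h1
  rw [← h1]
  congr 1
  refine (fcc.trans (nc _).symm).trans
    (Nat.card_congr (Equiv.subtypeEquiv (Equiv.refl _) fun α => ?_))
  constructor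
  · intro h i
    rw [Equiv.refl_apply, li_apply, ← ro_mx (mem_sp.1 (hK i.2)).1]
    exact h i i.2
  · intro h i hi
    have h3 := h ⟨i, hi⟩
    rw [Equiv.refl_apply, li_apply, ← ro_mx (mem_sp.1 (hK hi)).1] at h3
    exact h3

/-- **The first moment.** -/
theorem mom (hks : ks ∉ J) (hf : f ks ≠ 0) (hC : C ⊆ sp J f)
    (hw : ∀ w : I → ZMod 3, (∀ i ∈ J, w i = 0) → w ≠ 0 →
      ∃ i ∈ sp J f \ C, ∑ u, w u * G i u ≠ 0)
    (hv : ∀ v : I → ZMod 3, (∀ i ∈ J, v i = 0) → v ks = 0 → v ≠ 0 →
      ∃ j ∈ sp J f, ∑ u, v u * G u j ≠ 0) :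
    ∑ α : I → I → ZMod 3, 3 ^ finrank (ZMod 3) (Sy f ks C (mx J G α)) ≤
      Fintype.card (I → I → ZMod 3) * (1 + 3 ^ C.card) := by
  obtain ⟨V, hV⟩ : ∃ V, V = Sy f ks (sp J f) (mx J G 0) := ⟨_, rfl⟩
  obtain ⟨N, hN⟩ : ∃ N, N = Fintype.card (I → I → ZMod 3) := ⟨_, rfl⟩
  have hksA : ks ∉ sp J f := fun h => hks (mem_sp.1 h).1
  have hVd : finrank (ZMod 3) V = (sp J f).card := by
    rw [hV]
    refine eq_Sy hksA (fun i hi => (mem_sp.1 hi).2) fun v h1 h2 => ?_
    have hvJ : ∀ i ∈ J, v i = 0 := by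
      intro i hi
      by_cases hfi : f i = 0
      · exact h1 i (Or.inr (Or.inr hfi))
      · exact h1 i (Or.inl (mem_sp.2 ⟨hi, hfi⟩))
    obtain ⟨j, hj, h3⟩ := hv v hvJ (h1 ks (Or.inr (Or.inl rfl))) h2
    refine ⟨j, hj, fun h => h3 ?_⟩
    rw [← h]
    refine sum_congr rfl fun u _ => ?_
    by_cases hu : u ∈ J
    · rw [hvJ u hu, zero_mul, zero_mul]
    · unfold mx
      rw [if_neg (by tauto)]
  have hmem : ∀ (α : I → I → ZMod 3) (x : I → ZMod 3), x ∈ Sy f ks C (mx J G α) →
      x ∈ V ∧ ∀ i ∈ sp J f \ C, ro f (mx J G α) i x = 0 := by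
    intro α x hx
    rw [mem_Sy] at hx
    constructor
    · rw [hV, Sy_congr (L' := mx J G α), mem_Sy]
      · exact ⟨hx.1, hx.2.1, fun i h1 h2 => hx.2.2 i h1 fun h => h2 (hC h)⟩
      · intro i hi hfi
        have hiJ : i ∉ J := fun h => hi (mem_sp.2 ⟨h, hfi⟩)
        funext j
        unfold mx
        rw [if_neg (by tauto), if_neg (by tauto)]
    · intro i hi
      rw [mem_sdiff] at hi
      exact hx.2.2 i (fun h => hksA (h ▸ hi.1)) hi.2
  obtain ⟨k, hk⟩ : ∃ k, k = (sp J f \ C).card := ⟨_, rfl⟩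
  have hkC : k + C.card = (sp J f).card := by
    rw [hk]
    exact card_sdiff_add_card_eq_card hC
  have e1 : ∑ α : I → I → ZMod 3, 3 ^ finrank (ZMod 3) (Sy f ks C (mx J G α)) =
      ∑ x : I → ZMod 3, (univ.filter fun α => x ∈ Sy f ks C (mx J G α)).card := by
    have e2 : ∀ α : I → I → ZMod 3, 3 ^ finrank (ZMod 3) (Sy f ks C (mx J G α)) =
        ∑ x : I → ZMod 3, if x ∈ Sy f ks C (mx J G α) then 1 else 0 := by
      intro α
      rw [← sc_eq, card_filter]
    rw [sum_congr rfl fun α _ => e2 α, sum_comm]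
    exact sum_congr rfl fun x _ => (card_filter _ _).symm
  have h2 : ∀ x : I → ZMod 3, (univ.filter fun α => x ∈ Sy f ks C (mx J G α)).card * 3 ^ k ≤
      (if x = 0 then N * 3 ^ k else 0) + (if x ∈ V then N else 0) := by
    intro x
    by_cases hx0 : x = 0
    · rw [if_pos hx0]
      refine le_trans (Nat.mul_le_mul_right _ ?_) (Nat.le_add_right _ _)
      rw [hN]
      exact card_le_univ _
    rw [if_neg hx0, zero_add]
    by_cases hxV : x ∈ V
    swap
    · rw [if_neg hxV, Nat.le_zero, mul_eq_zero]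
      left
      rw [card_eq_zero, filter_eq_empty_iff]
      intro α _ h
      exact hxV (hmem α x h).1
    rw [if_pos hxV]
    by_cases hc : ∃ t, ∀ j ∈ sp J f, x j = t
    · obtain ⟨t, ht⟩ := hc
      have : (univ.filter fun α => x ∈ Sy f ks C (mx J G α)).card = 0 := by
        rw [card_eq_zero, filter_eq_empty_iff]
        intro α _ h
        exact hx0 (const_zero hks hf hw h.1 h.2.1 (hmem α x h).2 ht)
      rw [this, zero_mul]
      exact Nat.zero_le _
    · rw [hN, ← card_rows (G := G) (K := sp J f \ C) sdiff_subset hc, ← hk]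
      refine Nat.mul_le_mul_right _ (card_le_card fun α hα => ?_)
      rw [mem_filter] at hα ⊢
      exact ⟨mem_univ _, (hmem α x hα.2).2⟩
  rw [e1, ← hN]
  have h3 : (∑ x : I → ZMod 3, (univ.filter fun α => x ∈ Sy f ks C (mx J G α)).card) * 3 ^ k ≤
      N * 3 ^ k + 3 ^ (sp J f).card * N := by
    rw [sum_mul]
    refine (sum_le_sum fun x _ => h2 x).trans (le_of_eq ?_)
    rw [sum_add_distrib]
    congr 1
    · rw [Finset.sum_ite_eq' univ (0 : I → ZMod 3) (fun _ => N * 3 ^ k), if_pos (mem_univ _)]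
    · rw [← sum_filter, sum_const, smul_eq_mul, sc_eq, hVd]
  rw [← hkC, pow_add] at h3
  have h4 : (∑ x : I → ZMod 3, (univ.filter fun α => x ∈ Sy f ks C (mx J G α)).card) * 3 ^ k ≤
      (N * (1 + 3 ^ C.card)) * 3 ^ k := by
    refine h3.trans (le_of_eq ?_)
    ring
  exact Nat.le_of_mul_le_mul_right h4 (by positivity)

/-- the bad tables are few -/
theorem few (hks : ks ∉ J) (hf : f ks ≠ 0) (hC : C ⊆ sp J f)
    (hw : ∀ w : I → ZMod 3, (∀ i ∈ J, w i = 0) → w ≠ 0 →
      ∃ i ∈ sp J f \ C, ∑ u, w u * G i u ≠ 0)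
    (hv : ∀ v : I → ZMod 3, (∀ i ∈ J, v i = 0) → v ks = 0 → v ≠ 0 →
      ∃ j ∈ sp J f, ∑ u, v u * G u j ≠ 0) :
    (univ.filter fun α : I → I → ZMod 3 =>
      finrank (ZMod 3) (Sy f ks C (mx J G α)) ≠ C.card).card * (2 * 3 ^ C.card) ≤
      Fintype.card (I → I → ZMod 3) := by
  have h1 := mom hks hf hC hw hv
  have hksC : ks ∉ C := fun h => hks (mem_sp.1 (hC h)).1
  have h2 : ∀ α : I → I → ZMod 3, 3 ^ C.card +
      (if finrank (ZMod 3) (Sy f ks C (mx J G α)) ≠ C.card then 2 * 3 ^ C.card else 0) ≤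
      3 ^ finrank (ZMod 3) (Sy f ks C (mx J G α)) := by
    intro α
    have h3 := le_Sy (L := mx J G α) hksC (fun i hi => (mem_sp.1 (hC hi)).2)
    split_ifs with h
    · have h4 : C.card + 1 ≤ finrank (ZMod 3) (Sy f ks C (mx J G α)) := by omega
      have h5 := Nat.pow_le_pow_right (n := 3) (by norm_num) h4
      rw [pow_succ] at h5
      omega
    · rw [add_zero]
      exact Nat.pow_le_pow_right (by norm_num) h3
  have h3 := (sum_le_sum fun α (_ : α ∈ (univ : Finset (I → I → ZMod 3))) => h2 α).trans h1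
  rw [sum_add_distrib, sum_const, card_univ, smul_eq_mul, ← sum_filter, sum_const, smul_eq_mul] at h3
  have h4 : Fintype.card (I → I → ZMod 3) * (1 + 3 ^ C.card) = Fintype.card (I → I → ZMod 3) +
    Fintype.card (I → I → ZMod 3) * 3 ^ C.card := by ring
  omega

/-- the functionals of the rows on a subspace -/
noncomputable def Fu (J : Finset I) (f : I → ZMod 3) (V : Submodule (ZMod 3) (I → ZMod 3))
    (C : Finset I) : (I → I → ZMod 3) →+ (C → Module.Dual (ZMod 3) V) where
  toFun := fun β i =>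
    { toFun := fun x => ∑ j, if j ∈ J then f i * f j * β i j * ((x : I → ZMod 3) j - (x : I → ZMod 3) i)
        else 0
      map_add' := fun x y => by
        rw [← sum_add_distrib]
        refine sum_congr rfl fun j _ => ?_
        split_ifs
        · simp only [Submodule.coe_add, Pi.add_apply]; ring
        · rw [add_zero]
      map_smul' := fun a x => by
        rw [RingHom.id_apply, smul_eq_mul, mul_sum]
        refine sum_congr rfl fun j _ => ?_
        split_ifs
        · simp only [Submodule.coe_smul, Pi.smul_apply, smul_eq_mul]; ring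
        · rw [mul_zero] }
  map_zero' := by
    funext i
    refine LinearMap.ext fun x => ?_
    show (∑ j, if j ∈ J then f i * f j * 0 * ((x : I → ZMod 3) j - (x : I → ZMod 3) i) else 0) = 0
    refine sum_eq_zero fun j _ => ?_
    split_ifs
    · ring
    · rfl
  map_add' := fun α β => by
    funext i
    refine LinearMap.ext fun x => ?_
    show (∑ j, if j ∈ J then f i * f j * (α i j + β i j) *
        ((x : I → ZMod 3) j - (x : I → ZMod 3) i) else 0) =
      (∑ j, if j ∈ J then f i * f j * α i j * ((x : I → ZMod 3) j - (x : I → ZMod 3) i) else 0) +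
      ∑ j, if j ∈ J then f i * f j * β i j * ((x : I → ZMod 3) j - (x : I → ZMod 3) i) else 0
    rw [← sum_add_distrib]
    refine sum_congr rfl fun j _ => ?_
    split_ifs
    · ring
    · rw [add_zero]

theorem Fu_apply (V : Submodule (ZMod 3) (I → ZMod 3)) (β : I → I → ZMod 3) (i : C) (x : V) :
    Fu J f V C β i x = ∑ j, if j ∈ J then f i * f j * β i j * ((x : I → ZMod 3) j - (x : I → ZMod 3) i)
      else 0 := rfl

/-- the fixed part of the rows on a subspace -/
noncomputable def Fx (J : Finset I) (f : I → ZMod 3) (G : I → I → ZMod 3)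
    (V : Submodule (ZMod 3) (I → ZMod 3)) (C : Finset I) : C → Module.Dual (ZMod 3) V := fun i =>
    { toFun := fun x => ∑ j, if j ∈ J then 0 else f i * f j * G i j *
        ((x : I → ZMod 3) j - (x : I → ZMod 3) i)
      map_add' := fun x y => by
        rw [← sum_add_distrib]
        refine sum_congr rfl fun j _ => ?_
        split_ifs
        · rw [add_zero]
        · simp only [Submodule.coe_add, Pi.add_apply]; ring
      map_smul' := fun a x => by
        rw [RingHom.id_apply, smul_eq_mul, mul_sum]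
        refine sum_congr rfl fun j _ => ?_
        split_ifs
        · rw [mul_zero]
        · simp only [Submodule.coe_smul, Pi.smul_apply, smul_eq_mul]; ring }

theorem Fx_apply (V : Submodule (ZMod 3) (I → ZMod 3)) (i : C) (x : V) :
    Fx J f G V C i x = ∑ j, if j ∈ J then 0 else f i * f j * G i j *
      ((x : I → ZMod 3) j - (x : I → ZMod 3) i) := rfl

theorem Fu_surj {V : Submodule (ZMod 3) (I → ZMod 3)} (hC : C ⊆ sp J f)
    (hV : ∀ x ∈ V, (∃ t, ∀ j ∈ sp J f, x j = t) → x = 0) :
    Function.Surjective (Fu J f V C) := by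
  intro g
  have h1 : ∀ i : C, ∃ c : I → ZMod 3, ∀ x : V, g i x =
      ∑ j, c j * (if j ∈ J then f i * f j * ((x : I → ZMod 3) j - (x : I → ZMod 3) i) else 0) := by
    intro i
    obtain ⟨T, hT⟩ : ∃ T : V →ₗ[ZMod 3] (I → ZMod 3), ∀ x j, T x j =
        if j ∈ J then f i * f j * ((x : I → ZMod 3) j - (x : I → ZMod 3) i) else 0 := by
      refine ⟨{ toFun := fun x j =>
                  if j ∈ J then f i * f j * ((x : I → ZMod 3) j - (x : I → ZMod 3) i) else 0
                map_add' := fun x y => ?_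
                map_smul' := fun a x => ?_ }, fun _ _ => rfl⟩
      · funext j
        show (if j ∈ J then f i * f j * (((x + y : V) : I → ZMod 3) j - ((x + y : V) : I → ZMod 3) i)
            else 0) =
          (if j ∈ J then f i * f j * ((x : I → ZMod 3) j - (x : I → ZMod 3) i) else 0) +
          (if j ∈ J then f i * f j * ((y : I → ZMod 3) j - (y : I → ZMod 3) i) else 0)
        split_ifs
        · simp only [Submodule.coe_add, Pi.add_apply]; ring
        · rw [add_zero]
      · funext j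
        show (if j ∈ J then f i * f j * (((a • x : V) : I → ZMod 3) j - ((a • x : V) : I → ZMod 3) i)
            else 0) =
          a * (if j ∈ J then f i * f j * ((x : I → ZMod 3) j - (x : I → ZMod 3) i) else 0)
        split_ifs
        · simp only [Submodule.coe_smul, Pi.smul_apply, smul_eq_mul]; ring
        · rw [mul_zero]
    have hinj : Function.Injective T := by
      rw [← LinearMap.ker_eq_bot, LinearMap.ker_eq_bot']
      intro x hx
      apply Subtype.ext
      refine hV x x.2 ⟨(x : I → ZMod 3) i, fun j hj => ?_⟩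
      have h2 := congrFun hx j
      rw [hT, if_pos (mem_sp.1 hj).1, Pi.zero_apply] at h2
      exact sub_eq_zero.1 ((mul_eq_zero.1 h2).resolve_left
        (mul_ne_zero (mem_sp.1 (hC i.2)).2 (mem_sp.1 hj).2))
    obtain ⟨φ, hφ⟩ := LinearMap.dualMap_surjective_of_injective hinj (g i)
    refine ⟨fun j => φ (Pi.single j 1), fun x => ?_⟩
    rw [← hφ]
    show φ (T x) = _
    rw [LinearMap.pi_apply_eq_sum_univ φ (T x)]
    refine sum_congr rfl fun j _ => ?_
    rw [smul_eq_mul, mul_comm, hT]
    congr 2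
    funext k
    rw [Pi.single_apply]
    by_cases h : j = k
    · rw [if_pos h, if_pos h.symm]
    · rw [if_neg h, if_neg (Ne.symm h)]
  choose c hc using h1
  refine ⟨fun i j => if h : i ∈ C then c ⟨i, h⟩ j else 0, ?_⟩
  funext i
  refine LinearMap.ext fun x => ?_
  rw [Fu_apply, hc i x]
  refine sum_congr rfl fun j _ => ?_
  rw [dif_pos i.2]
  split_ifs
  · ring
  · rw [mul_zero]

/-- **The conditional law.** -/
theorem cond (hks : ks ∉ J) (hf : f ks ≠ 0) (hC : C ⊆ sp J f)
    (hw : ∀ w : I → ZMod 3, (∀ i ∈ J, w i = 0) → w ≠ 0 →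
      ∃ i ∈ sp J f \ C, ∑ u, w u * G i u ≠ 0) {α : I → I → ZMod 3}
    (hα : finrank (ZMod 3) (Sy f ks C (mx J G α)) = C.card) (b : ℕ) :
    ((univ.filter fun β : I → I → ZMod 3 =>
      finrank (ZMod 3) (Sy f ks ∅ (mx J G (rs C α β))) = b).card : ℝ) =
      Fintype.card (I → I → ZMod 3) * cb C.card b := by
  obtain ⟨V, hV⟩ : ∃ V, V = Sy f ks C (mx J G α) := ⟨_, rfl⟩
  rw [← hV] at hα
  have hksC : ks ∉ C := fun h => hks (mem_sp.1 (hC h)).1
  have hksA : ks ∉ sp J f := fun h => hks (mem_sp.1 h).1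
  have hVc : ∀ x ∈ V, (∃ t, ∀ j ∈ sp J f, x j = t) → x = 0 := by
    rintro x hx ⟨t, ht⟩
    rw [hV, mem_Sy] at hx
    refine const_zero (α := α) hks hf hw hx.1 hx.2.1 (fun i hi => ?_) ht
    rw [mem_sdiff] at hi
    exact hx.2.2 i (fun h => hksA (h ▸ hi.1)) hi.2
  have h1 : ∀ β : I → I → ZMod 3, finrank (ZMod 3) (Sy f ks ∅ (mx J G (rs C α β))) =
      finrank (ZMod 3) (Kr (Fx J f G V C + Fu J f V C β)) := by
    intro β
    have h2 : (Kr (Fx J f G V C + Fu J f V C β)).map V.subtype = Sy f ks ∅ (mx J G (rs C α β)) := by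
      ext x
      rw [Submodule.mem_map, mem_Sy]
      have hrow : ∀ i ∈ C, ro f (mx J G (rs C α β)) i x =
          (∑ j, if j ∈ J then f i * f j * β i j * (x j - x i) else 0) +
          ∑ j, if j ∈ J then 0 else f i * f j * G i j * (x j - x i) := by
        intro i hi
        rw [ro_mx (mem_sp.1 (hC hi)).1]
        unfold rs
        rw [if_pos hi]
      have hrow' : ∀ i, i ∉ C → ro f (mx J G (rs C α β)) i x = ro f (mx J G α) i x := by
        intro i hi
        refine ro_congr x fun _ => ?_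
        funext j
        unfold mx rs
        rw [if_neg hi]
      constructor
      · rintro ⟨y, hy, rfl⟩
        have hyV : (y : I → ZMod 3) ∈ Sy f ks C (mx J G α) := by rw [← hV]; exact y.2
        rw [mem_Sy] at hyV
        refine ⟨hyV.1, hyV.2.1, fun i hi _ => ?_⟩
        by_cases hiC : i ∈ C
        · have h3 := hy ⟨i, hiC⟩
          rw [hrow i hiC, add_comm]
          exact h3
        · rw [hrow' i hiC]
          exact hyV.2.2 i hi hiC
      · rintro ⟨g1, g2, g3⟩
        have hxV : x ∈ V := by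
          rw [hV, mem_Sy]
          refine ⟨g1, g2, fun i hi hiC => ?_⟩
          rw [← hrow' i hiC]
          exact g3 i hi (notMem_empty _)
        refine ⟨⟨x, hxV⟩, fun i => ?_, rfl⟩
        have h3 := g3 i (fun h => hksC (h ▸ i.2)) (notMem_empty _)
        rw [hrow i i.2, add_comm] at h3
        exact h3
    rw [← h2]
    exact ((Submodule.equivMapOfInjective V.subtype V.injective_subtype _).finrank_eq).symm
  have : Finite (Module.Dual (ZMod 3) V) := Module.finite_of_finite (ZMod 3)
  have h2 := fib (Fu J f V C) (Fu_surj hC hVc)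
    (fun g => finrank (ZMod 3) (Kr (Fx J f G V C + g)) = b)
  have h3 : Nat.card {g : C → Module.Dual (ZMod 3) V //
      finrank (ZMod 3) (Kr (Fx J f G V C + g)) = b} = nm C.card b := by
    rw [← nm_eq (V := V) (K := C) hα (Fintype.card_coe C) b]
    exact Nat.card_congr (Equiv.subtypeEquiv (Equiv.addLeft (Fx J f G V C)) fun g => Iff.rfl)
  have h4 : Nat.card (C → Module.Dual (ZMod 3) V) = 3 ^ (C.card * C.card) := by
    rw [Nat.card_fun, Nat.card_eq_fintype_card (α := C), Fintype.card_coe,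
      Module.natCard_eq_pow_finrank (K := ZMod 3), Nat.card_zmod, Subspace.dual_finrank_eq, hα,
      ← pow_mul]
  rw [h3, h4, Nat.card_eq_fintype_card (α := I → I → ZMod 3)] at h2
  have e : (univ.filter fun β : I → I → ZMod 3 =>
      finrank (ZMod 3) (Sy f ks ∅ (mx J G (rs C α β))) = b).card =
      Nat.card {β : I → I → ZMod 3 // finrank (ZMod 3) (Kr (Fx J f G V C + Fu J f V C β)) = b} := by
    refine (fcc.trans (nc _).symm).trans ?_
    exact Nat.card_congr (Equiv.subtypeEquiv (Equiv.refl _) fun β => by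
      rw [Equiv.refl_apply, h1])
  rw [e]
  unfold cb
  have hp : (0 : ℝ) < 3 ^ (C.card * C.card) := by positivity
  rw [mul_div_assoc', eq_div_iff hp.ne']
  have h5 : ((Nat.card {β : I → I → ZMod 3 // finrank (ZMod 3)
      (Kr (Fx J f G V C + Fu J f V C β)) = b} * 3 ^ (C.card * C.card) : ℕ) : ℝ) =
      ((nm C.card b * Fintype.card (I → I → ZMod 3) : ℕ) : ℝ) := by rw [h2]
  rw [Nat.cast_mul, Nat.cast_mul, Nat.cast_pow] at h5
  push_cast at h5 ⊢
  rw [h5]
  ring

end tab

end Q283.ND
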