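import Pool.Agent.Q283.ND.Fn
import Pool.Agent.Q283.Q3.Ku

/-! The law for all sets of coranks and the mean; one set of numbers for all bases -/

set_option autoImplicit false
set_option linter.unusedSectionVars false

open scoped Classical
open Finset Filter

namespace Q283.ND

open Q283.Q3 (cq cq_ge cq_le sum_cq)
open Q283.Q3B (rr ms ms_hasSum summ_mean)
open Pool.Agent.Y703.CT (Cls Base)
open Q155.NL (Alm cnt cs mem_cs alm_finset alm_mono alm_true exists_dense)

/-- the mean of the law -/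
noncomputable def mu : ℝ := ∑' r : ℕ, (r : ℝ) * cq r

/-- the strong form of the law of large numbers -/
structure Lw (ε : ℝ) {E : Type} (A : Finset E) (g : E → ℕ) : Prop where
  law : ∀ T : Set ℕ, |((A.filter fun e => g e ∈ T).card : ℝ) - ms T * A.card| ≤ ε * A.card
  mom : |∑ e ∈ A, (3 : ℝ) ^ g e - 2 * A.card| ≤ ε * A.card
  mean : |∑ e ∈ A, (g e : ℝ) - mu * A.card| ≤ ε * A.card

theorem g_le (g B : ℕ) (h : B ≤ g) : (g : ℝ) ≤ (3 : ℝ) ^ g * (1 / 2) ^ B := by
  have h1 : ∀ n : ℕ, n * 2 ^ n ≤ 3 ^ n := by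
    intro n
    induction n with
    | zero => norm_num
    | succ n ih =>
      rcases Nat.lt_or_ge n 2 with h2 | h2
      · interval_cases n <;> norm_num
      · have h3 : (n + 1) * 2 ^ (n + 1) ≤ 3 * (n * 2 ^ n) := by
          rw [pow_succ]
          have h4 : 0 < 2 ^ n := by positivity
          nlinarith
        calc (n + 1) * 2 ^ (n + 1) ≤ 3 * (n * 2 ^ n) := h3
          _ ≤ 3 * 3 ^ n := Nat.mul_le_mul_left 3 ih
          _ = 3 ^ (n + 1) := by ring
  have h2 : (g : ℝ) * 2 ^ g ≤ 3 ^ g := by exact_mod_cast h1 g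
  have h3 : (2 : ℝ) ^ B ≤ 2 ^ g := pow_le_pow_right₀ (by norm_num) h
  have h4 : (g : ℝ) * 2 ^ B ≤ 3 ^ g := le_trans (mul_le_mul_of_nonneg_left h3 (Nat.cast_nonneg _)) h2
  have h5 : (0 : ℝ) < 2 ^ B := by positivity
  rw [one_div, inv_pow, ← div_eq_mul_inv, le_div_iff₀ h5]
  exact h4

theorem cnt_one {E : Type} (A : Finset E) (g : E → ℕ) (b : ℕ) :
    ∑ e ∈ A, (one b (g e) - cq b) = ((A.filter fun e => g e = b).card : ℝ) - cq b * A.card := by
  rw [sum_sub_distrib, sum_const, nsmul_eq_mul]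
  have h : ∑ e ∈ A, one b (g e) = ((A.filter fun e => g e = b).card : ℝ) := by
    unfold one
    rw [card_filter]
    push_cast
    rfl
  rw [h]
  ring

/-- the weighted sums over the small coranks -/
theorem sum_small {E : Type} (A : Finset E) (g : E → ℕ) (B : ℕ) (w : ℕ → ℝ) :
    ∑ e ∈ A.filter (fun e => g e < B), w (g e) =
      ∑ b ∈ range B, w b * ((A.filter fun e => g e = b).card : ℝ) := by
  rw [← sum_fiberwise_of_maps_to (t := range B) (g := g) (fun e he => by
    rw [mem_range]; exact (mem_filter.1 he).2)]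
  refine sum_congr rfl fun b hb => ?_
  rw [filter_filter]
  have h1 : A.filter (fun e => g e < B ∧ g e = b) = A.filter fun e => g e = b := by
    ext e
    rw [mem_filter, mem_filter]
    rw [mem_range] at hb
    constructor
    · exact fun h => ⟨h.1, h.2.2⟩
    · exact fun h => ⟨h.1, by omega, h.2⟩
  rw [h1, sum_congr rfl fun e he => by rw [(mem_filter.1 he).2], sum_const, nsmul_eq_mul, mul_comm]

theorem lw_of_good (ε : ℝ) (hε : 0 < ε) : ∃ (B n : ℕ), ∀ (E : Type) (A : Finset E) (g : E → ℕ),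
    Good B (1 / ((n : ℝ) + 1)) A g → Lw ε A g := by
  -- the parameters
  have h1 : ∀ᶠ B : ℕ in atTop, 1 - ε / 4 < ∑ b ∈ range B, cq b :=
    sum_cq.tendsto_sum_nat.eventually (lt_mem_nhds (by linarith))
  have h2 : ∀ᶠ B : ℕ in atTop, mu - ε / 4 < ∑ b ∈ range B, (b : ℝ) * cq b :=
    summ_mean.hasSum.tendsto_sum_nat.eventually (lt_mem_nhds (show mu - ε / 4 < mu by linarith))
  have h3 : ∀ᶠ B : ℕ in atTop, ((1 : ℝ) / 2) ^ B < ε / 12 :=
    (tendsto_pow_atTop_nhds_zero_of_lt_one (by norm_num) (by norm_num)).eventually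
      (gt_mem_nhds (by positivity))
  obtain ⟨B, g1, g2, g3⟩ := (h1.and (h2.and h3)).exists
  obtain ⟨n, hn⟩ := exists_nat_one_div_lt (show (0 : ℝ) < min (min ε 1) (ε / (4 * (B ^ 2 + B + 1))) by
    positivity)
  obtain ⟨δ, hδ⟩ : ∃ δ : ℝ, δ = 1 / ((n : ℝ) + 1) := ⟨_, rfl⟩
  have hδ0 : 0 < δ := by rw [hδ]; positivity
  rw [← hδ] at hn
  have hδε : δ ≤ ε := (hn.trans_le ((min_le_left _ _).trans (min_le_left _ _))).le
  have hδ1 : δ ≤ 1 := (hn.trans_le ((min_le_left _ _).trans (min_le_right _ _))).le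
  have hδB : δ * (4 * (B ^ 2 + B + 1)) ≤ ε := by
    have := (hn.trans_le (min_le_right _ _)).le
    rwa [le_div_iff₀ (by positivity)] at this
  refine ⟨B, n, fun E A g h => ?_⟩
  rw [← hδ] at h
  obtain ⟨k1, k2⟩ := h
  obtain ⟨a, ha⟩ : ∃ a : ℝ, a = A.card := ⟨_, rfl⟩
  have ha0 : 0 ≤ a := by rw [ha]; positivity
  obtain ⟨nb, hnb⟩ : ∃ nb : ℕ → ℝ, nb = fun b => ((A.filter fun e => g e = b).card : ℝ) := ⟨_, rfl⟩
  have k3 : ∀ b < B, |nb b - cq b * a| ≤ δ * a := by
    intro b hb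
    have := k1 b hb
    rw [cnt_one] at this
    rw [hnb, ha]
    exact this
  rw [← ha] at k2
  -- sums over small coranks
  have hw : ∀ w : ℕ → ℝ, ∀ c : ℝ, (∀ b < B, |w b| ≤ c) →
      |∑ e ∈ A.filter (fun e => g e < B), w (g e) - (∑ b ∈ range B, w b * cq b) * a| ≤
        B * c * (δ * a) := by
    intro w c hc
    rw [sum_small, sum_mul, ← sum_sub_distrib]
    refine (abs_sum_le_sum_abs _ _).trans ?_
    have h4 : ∀ b ∈ range B, |w b * ((A.filter fun e => g e = b).card : ℝ) - w b * cq b * a| ≤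
        c * (δ * a) := by
      intro b hb
      rw [mem_range] at hb
      have h5 := k3 b hb
      rw [hnb] at h5
      have h6 : w b * ((A.filter fun e => g e = b).card : ℝ) - w b * cq b * a =
          w b * (((A.filter fun e => g e = b).card : ℝ) - cq b * a) := by ring
      rw [h6, abs_mul]
      exact mul_le_mul (hc b hb) h5 (abs_nonneg _) ((abs_nonneg _).trans (hc b hb))
    refine (sum_le_sum h4).trans (le_of_eq ?_)
    rw [sum_const, card_range, nsmul_eq_mul]
    ring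
  have hBδ : (B : ℝ) * (δ * a) ≤ ε / 4 * a := by
    have : (B : ℝ) * δ ≤ ε / 4 := by nlinarith [sq_nonneg (B : ℝ), (Nat.cast_nonneg B : (0 : ℝ) ≤ B)]
    nlinarith
  have hBδ2 : (B : ℝ) * B * (δ * a) ≤ ε / 4 * a := by
    have : (B : ℝ) * B * δ ≤ ε / 4 := by
      nlinarith [sq_nonneg (B : ℝ), (Nat.cast_nonneg B : (0 : ℝ) ≤ B)]
    nlinarith
  have hsplit : ∀ w : ℕ → ℝ, ∑ e ∈ A, w (g e) = ∑ e ∈ A.filter (fun e => g e < B), w (g e) +
      ∑ e ∈ A.filter (fun e => ¬ g e < B), w (g e) :=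
    fun w => (sum_filter_add_sum_filter_not A (fun e => g e < B) fun e => w (g e)).symm
  have hdk : Summable cq := sum_cq.summable
  refine ⟨fun T => ?_, ?_, ?_⟩
  · obtain ⟨w, hwd⟩ : ∃ w : ℕ → ℝ, w = fun r => if r ∈ T then (1 : ℝ) else 0 := ⟨_, rfl⟩
    have hw01 : ∀ r, 0 ≤ w r ∧ w r ≤ 1 := by
      intro r
      rw [hwd]
      beta_reduce
      split_ifs <;> norm_num
    have e1 : ((A.filter fun e => g e ∈ T).card : ℝ) = ∑ e ∈ A, w (g e) := by
      rw [hwd, card_filter]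
      push_cast
      rfl
    have h4 := hw w 1 (fun b _ => by rw [abs_of_nonneg (hw01 b).1]; exact (hw01 b).2)
    have h5 := hw (fun _ => 1) 1 (fun b _ => by norm_num)
    rw [mul_one] at h4 h5
    -- the tail of the law
    have hms : HasSum (fun r => w r * cq r) (ms T) := by
      refine (ms_hasSum T).congr_fun fun r => ?_
      rw [hwd]
      beta_reduce
      split_ifs
      · rw [one_mul]
      · rw [zero_mul]
    have h6 : ∑ b ∈ range B, w b * cq b ≤ ms T :=
      sum_le_hasSum _ (fun r _ => mul_nonneg (hw01 r).1 (cq_ge r)) hms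
    have h7 : ms T - ∑ b ∈ range B, w b * cq b ≤ ε / 4 := by
      have h8 : ∑ b ∈ range B, (1 - w b) * cq b ≤ 1 - ms T := by
        have h9 : HasSum (fun r => (1 - w r) * cq r) (1 - ms T) := by
          refine (sum_cq.sub hms).congr_fun fun r => ?_
          ring
        exact sum_le_hasSum _ (fun r _ => mul_nonneg (by linarith [(hw01 r).2]) (cq_ge r)) h9
      have h9 : ∑ b ∈ range B, (1 - w b) * cq b =
          ∑ b ∈ range B, cq b - ∑ b ∈ range B, w b * cq b := by
        rw [← sum_sub_distrib]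
        exact sum_congr rfl fun b _ => by ring
      linarith
    have h8 : 0 ≤ ∑ e ∈ A.filter (fun e => ¬ g e < B), w (g e) :=
      sum_nonneg fun e _ => (hw01 _).1
    have h9 : ∑ e ∈ A.filter (fun e => ¬ g e < B), w (g e) ≤ ε / 2 * a := by
      have h10 : ∑ e ∈ A.filter (fun e => ¬ g e < B), w (g e) ≤
          ∑ e ∈ A.filter (fun e => ¬ g e < B), (1 : ℝ) := sum_le_sum fun e _ => (hw01 _).2
      have h11 := hsplit fun _ => (1 : ℝ)
      rw [sum_const (s := A), nsmul_eq_mul, mul_one, ← ha] at h11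
      have h12 := (abs_le.1 h5).1
      simp only [one_mul] at h12
      have h13 : (1 - ε / 4) * a ≤ (∑ b ∈ range B, cq b) * a := mul_le_mul_of_nonneg_right g1.le ha0
      linarith
    rw [e1, hsplit w, ← ha, abs_le]
    have h10 := abs_le.1 h4
    have h11 : (∑ b ∈ range B, w b * cq b) * a ≤ ms T * a := mul_le_mul_of_nonneg_right h6 ha0
    have h12 : (ms T - ∑ b ∈ range B, w b * cq b) * a ≤ ε / 4 * a :=
      mul_le_mul_of_nonneg_right h7 ha0
    have h13 : 0 ≤ ε * a := by positivity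
    constructor <;> linarith [h10.1, h10.2]
  · rw [← ha]
    exact k2.trans (mul_le_mul_of_nonneg_right hδε ha0)
  · have h4 := hw (fun r => (r : ℝ)) B (fun b hb => by
      rw [abs_of_nonneg (Nat.cast_nonneg _)]
      exact_mod_cast hb.le)
    have h5 : ∑ b ∈ range B, (b : ℝ) * cq b ≤ mu :=
      sum_le_hasSum _ (fun r _ => mul_nonneg (Nat.cast_nonneg _) (cq_ge r)) summ_mean.hasSum
    have h6 : 0 ≤ ∑ e ∈ A.filter (fun e => ¬ g e < B), (g e : ℝ) :=
      sum_nonneg fun e _ => Nat.cast_nonneg _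
    have h7 : ∑ e ∈ A.filter (fun e => ¬ g e < B), (g e : ℝ) ≤ ε / 4 * a := by
      have h8 : ∑ e ∈ A.filter (fun e => ¬ g e < B), (g e : ℝ) ≤
          ∑ e ∈ A.filter (fun e => ¬ g e < B), (3 : ℝ) ^ g e * (1 / 2) ^ B :=
        sum_le_sum fun e he => g_le _ _ (not_lt.1 (mem_filter.1 he).2)
      have h9 : ∑ e ∈ A.filter (fun e => ¬ g e < B), (3 : ℝ) ^ g e * (1 / 2) ^ B ≤
          (∑ e ∈ A, (3 : ℝ) ^ g e) * (1 / 2) ^ B := by
        rw [← sum_mul]
        refine mul_le_mul_of_nonneg_right ?_ (by positivity)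
        exact sum_le_sum_of_subset_of_nonneg (filter_subset _ _) fun e _ _ => by positivity
      have h10 : ∑ e ∈ A, (3 : ℝ) ^ g e ≤ 3 * a := by
        have := (abs_le.1 k2).2
        have h11 : δ * a ≤ 1 * a := mul_le_mul_of_nonneg_right hδ1 ha0
        linarith
      have h11 : (∑ e ∈ A, (3 : ℝ) ^ g e) * (1 / 2) ^ B ≤ (3 * a) * (ε / 12) :=
        mul_le_mul h10 g3.le (by positivity) (by positivity)
      linarith
    rw [hsplit fun r => (r : ℝ), ← ha, abs_le]
    have h10 := abs_le.1 h4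
    have h11 : (∑ b ∈ range B, (b : ℝ) * cq b) * a ≤ mu * a := mul_le_mul_of_nonneg_right h5 ha0
    have h12 : (mu - ε / 4) * a ≤ (∑ b ∈ range B, (b : ℝ) * cq b) * a :=
      mul_le_mul_of_nonneg_right g2.le ha0
    have h13 : 0 ≤ ε * a := by positivity
    constructor <;> linarith [h10.1, h10.2]

/-- **One set of numbers for all bases.** -/
theorem main : ∃ S : ℕ → Prop, Alm Dc S ∧ ∀ N : ℕ, Cls N → ∀ ε : ℝ, 0 < ε →
    ∀ᶠ D in atTop, Dc D → S D → ∀ k : ℕ, N * k % 9 ≠ 1 → N * k % 9 ≠ 8 →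
      Lw ε (Dk k D) fun d => rr (cf (N * d)) := by
  obtain ⟨S, hS, h⟩ := exists_dense (C := Dc) (T := fun j D =>
    ∀ k ∈ range 9, Cls (Nat.unpair j).1 → TD k (Nat.unpair j).1 (Nat.unpair (Nat.unpair j).2).1
      (1 / (((Nat.unpair (Nat.unpair j).2).2 : ℝ) + 1)) D) fun j => by
    refine alm_finset (range 9) fun k hk => ?_
    by_cases hC : Cls (Nat.unpair j).1
    · exact alm_mono (alm_TD (mem_range.1 hk) hC _ _ (by positivity)) fun D _ hD _ => hD
    · exact alm_mono (alm_true Dc) fun D _ _ h => absurd h hC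
  refine ⟨S, hS, fun N hC ε hε => ?_⟩
  obtain ⟨B, n, hg⟩ := lw_of_good ε hε
  filter_upwards [h (Nat.pair N (Nat.pair B n))] with D hD hDc hSD k h1 h8
  simp only [Nat.unpair_pair] at hD
  refine hg _ _ _ ?_
  by_cases hk : k < 9
  · exact good_div hC hDc h1 h8 (hD hSD k (mem_range.2 hk) hC)
  · have he : Dk k D = ∅ := by
      unfold Dk
      rw [filter_eq_empty_iff]
      intro d _ hd
      have := Nat.mod_lt d (show 0 < 9 by norm_num)
      omega
    rw [he]
    refine ⟨fun b _ => ?_, ?_⟩ <;> simp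

end Q283.ND
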