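import Pool.Agent.Q283.ND.Mn

/-! Shares, means, the number of the divisors in a residue class -/

set_option autoImplicit false
set_option linter.unusedSectionVars false

open scoped Classical
open Finset Filter

namespace Q283.ND

open Q283.Q3 (cq cq_ge cq_le sum_cq)
open Q283.Q3B (rr ms ms_hasSum summ_mean mean_eq)
open Pool.Agent.Y703.CT (Cls Base)
open Pool.Agent.Y703.CX (c3)
open Q155.NL (Alm cnt cs mem_cs)

theorem Dk_card {k D : ℕ} (hD : Dc D) (hne : (Dk k D).Nonempty) :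
    3 ^ D.primeFactors.card ≤ 3 * (Dk k D).card := by
  have h1 := Dk_eq (k := k) hD.1
  have hinj : Set.InjOn (dv (S := D.primeFactors)) (Ax k D.primeFactors) :=
    fun _ _ _ _ h' => dv_inj h'
  have h2 : (Dk k D).card = (Ax k D.primeFactors).card := by
    rw [h1, card_image_of_injOn hinj]
  have h3 : (Ax k D.primeFactors).Nonempty := by
    rw [h1, image_nonempty] at hne
    exact hne
  have h4 := third (I := D.primeFactors) (P := univ) (v := fun p => (p : ℕ)) (k := k)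
    (fun p _ => hD.2 p (Nat.prime_of_mem_primeFactors p.2) (Nat.dvd_of_mem_primeFactors p.2))
    (Ax k D.primeFactors) (fun e => by
      unfold Ax
      rw [mem_filter]
      exact ⟨fun h => h.2, fun h => ⟨mem_univ _, h⟩⟩) h3
  rw [Fintype.card_coe] at h4
  rw [h2]
  exact_mod_cast h4

theorem one_mem {D : ℕ} (hD : Dc D) : (Dk 1 D).Nonempty :=
  ⟨1, (mem_Dk hD.1).2 ⟨one_dvd _, rfl⟩⟩

theorem c3_lt : c3 < 0.5602 ∧ 0.56 < c3 := by
  obtain ⟨h1, -, -, h4⟩ := Pool.Agent.Y461.CX.t_C3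
  refine ⟨?_, h4⟩
  have h5 := (abs_le.1 (h1 10)).1
  have h6 : ∏ i ∈ Finset.range 10, (1 - (1 / 3 : ℝ) ^ (i + 1)) < 0.56015 := by
    norm_num [Finset.prod_range_succ]
  have h7 : (1 / 3 : ℝ) ^ 10 < 0.00002 := by norm_num
  linarith

theorem mu_lt : 2 * mu < 0.92 := by
  have h1 : mu ≤ (3 / 4 + 9 / 128 * (100 / 99)) * c3 := mean_eq
  have h2 := c3_lt.1
  have h3 : (3 / 4 + 9 / 128 * (100 / 99)) * c3 < (3 / 4 + 9 / 128 * (100 / 99)) * 0.5602 :=
    mul_lt_mul_of_pos_left h2 (by norm_num)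
  norm_num at h3 ⊢
  linarith

/-- the measure of a set with one element -/
theorem ms_single (b : ℕ) : ms {b} = cq b := by
  unfold ms
  exact tsum_singleton b cq

theorem div_abs {x y a ε : ℝ} (ha : 0 < a) (h : |x - y * a| ≤ ε * a) : |x / a - y| ≤ ε := by
  have h1 : x / a - y = (x - y * a) / a := by
    field_simp
  rw [h1, abs_div, abs_of_pos ha, div_le_iff₀ ha]
  exact h

/-- the mean of the ranks -/
theorem mean_rank {ε : ℝ} {E : Type} {A : Finset E} {g R : E → ℕ} (h : Lw ε A g)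
    (hA : 0 < A.card) (hR : ∀ e ∈ A, R e ≤ 2 * g e) (hε : 2 * mu + 2 * ε < 0.92) :
    (∑ e ∈ A, (R e : ℝ)) / A.card < 0.92 := by
  have hA' : (0 : ℝ) < A.card := by exact_mod_cast hA
  rw [div_lt_iff₀ hA']
  have h1 : ∑ e ∈ A, (R e : ℝ) ≤ 2 * ∑ e ∈ A, (g e : ℝ) := by
    rw [mul_sum]
    refine sum_le_sum fun e he => ?_
    exact_mod_cast hR e he
  have h2 := (abs_le.1 h.mean).2
  nlinarith

end Q283.ND
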